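import Pool.Agent.Lib.MP_e9abfe_ag_DMC.Fin

/-!
# Bounds which do not depend on the embedding, and the choice of a transcendental number
-/

set_option autoImplicit false

namespace Pool.Agent.TRA

open Pool.Agent.DMC

theorem near_one {B : ℝ} (hB : 1 < B) (k : ℕ) : ∃ a : ℝ, 0 < a ∧ a < 1 ∧ 1 < a ^ k * B := by
  have hB0 : 0 < B := one_pos.trans hB
  have hB1 : B⁻¹ < 1 := inv_lt_one_of_one_lt₀ hB
  have hBi : 0 < B⁻¹ := inv_pos.2 hB0
  obtain ⟨t, ht⟩ : ∃ t : ℝ, t = (1 - B⁻¹) / (k + 1) := ⟨_, rfl⟩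
  have hk : (0 : ℝ) < k + 1 := by positivity
  have ht0 : 0 < t := by
    rw [ht]
    exact div_pos (by linarith) hk
  have ht1 : t * (k + 1) = 1 - B⁻¹ := by
    rw [ht]
    field_simp
  have hkt : 0 ≤ (k : ℝ) * t := by positivity
  refine ⟨1 - t, by nlinarith, by linarith, ?_⟩
  have h1 := one_add_mul_le_pow (a := -t) (by nlinarith) k
  have h2 : B⁻¹ < (1 - t) ^ k := by
    have e : 1 + -t = 1 - t := by ring
    rw [e] at h1
    nlinarith
  have h3 := mul_lt_mul_of_pos_right h2 hB0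
  rwa [inv_mul_cancel₀ hB0.ne'] at h3

/-- a point which is not integral at `2` is large, uniformly -/
theorem pl_low {P : MvPolynomial (Fin 3) ℤ} {α : Fin 3 → ℂ}
    (hP : 2 * MvPolynomial.aeval α P = 1) :
    ∃ M₀ : ℝ, 1 < M₀ ∧ ∀ (L : Type) [NormedField L] [IsUltrametricDist L] (φ : ℂ →+* L),
      ‖(2 : L)‖ = ‖(2 : PadicComplex 2)‖ → ∃ i, M₀ ≤ ‖φ (α i)‖ := by
  have h20 : 0 < ‖(2 : PadicComplex 2)‖ := norm_pos_iff.2 two_ne_zero
  have hB : 1 < ‖(2 : PadicComplex 2)‖⁻¹ := one_lt_inv_iff₀.2 ⟨h20, Fin_two⟩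
  obtain ⟨a, ha0, ha1, ha⟩ := near_one hB P.totalDegree
  have hM : 1 < a⁻¹ := one_lt_inv_iff₀.2 ⟨ha0, ha1⟩
  refine ⟨a⁻¹, hM, fun L _ _ φ h2 => ?_⟩
  by_contra hcon
  push Not at hcon
  have h5 : 2 * MvPolynomial.aeval (fun i => φ (α i)) P = (1 : L) := by
    have h3 : φ (MvPolynomial.aeval α P) = MvPolynomial.aeval (fun i => φ (α i)) P :=
      MvPolynomial.comp_aeval_apply α φ.toIntAlgHom P
    rw [← h3, ← map_ofNat φ 2, ← map_mul, hP, map_one]
  have h6 : ‖MvPolynomial.aeval (fun i => φ (α i)) P‖ ≤ a⁻¹ ^ P.totalDegree := by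
    rw [MvPolynomial.aeval_def, MvPolynomial.eval₂_eq']
    refine IsUltrametricDist.norm_sum_le_of_forall_le_of_nonneg (by positivity) fun m hm => ?_
    rw [norm_mul, norm_prod]
    have h7 : ‖algebraMap ℤ L (MvPolynomial.coeff m P)‖ ≤ 1 := by
      rw [eq_intCast]
      exact IsUltrametricDist.norm_intCast_le_one L _
    have h8 : ∏ i, ‖φ (α i) ^ m i‖ ≤ a⁻¹ ^ P.totalDegree := by
      calc ∏ i, ‖φ (α i) ^ m i‖ ≤ ∏ i, a⁻¹ ^ m i := by
            refine Finset.prod_le_prod (fun _ _ => norm_nonneg _) fun i _ => ?_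
            rw [norm_pow]
            exact pow_le_pow_left₀ (norm_nonneg _) (hcon i).le _
        _ = a⁻¹ ^ ∑ i, m i := Finset.prod_pow_eq_pow_sum _ _ _
        _ ≤ _ := by
            refine pow_le_pow_right₀ hM.le ?_
            have h9 := MvPolynomial.le_totalDegree hm
            rw [Finsupp.sum_fintype _ _ (fun _ => rfl)] at h9
            exact h9
    calc _ ≤ 1 * a⁻¹ ^ P.totalDegree :=
          mul_le_mul h7 h8 (Finset.prod_nonneg fun _ _ => norm_nonneg _) zero_le_one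
      _ = _ := one_mul _
  have h7 := congrArg norm h5
  rw [norm_mul, norm_one, h2] at h7
  have h8 : ‖(2 : PadicComplex 2)‖ * a⁻¹ ^ P.totalDegree < 1 := by
    rw [inv_pow, ← div_eq_mul_inv, div_lt_one (by positivity)]
    rw [← div_eq_mul_inv, lt_div_iff₀ h20, one_mul] at ha
    exact ha
  have h9 := mul_le_mul_of_nonneg_left h6 h20.le
  linarith

/-- algebraic numbers are bounded, uniformly -/
theorem pl_alg (β : ℂ) (hβ : IsAlgebraic ℚ β) :
    ∃ C : ℝ, 0 < C ∧ ∀ (L : Type) [NormedField L] [IsUltrametricDist L] (φ : ℂ →+* L),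
      (∀ n : ℤ, ‖(n : L)‖ = ‖(n : PadicComplex 2)‖) → ‖φ β‖ ≤ C := by
  obtain ⟨p, hp, hpβ⟩ := (IsFractionRing.isAlgebraic_iff ℤ ℚ ℂ).2 hβ
  obtain ⟨c, hc⟩ : ∃ c : ℤ, c = p.leadingCoeff := ⟨_, rfl⟩
  have hc0 : c ≠ 0 := by
    rw [hc]
    exact Polynomial.leadingCoeff_ne_zero.2 hp
  have hcn : 0 < ‖(c : PadicComplex 2)‖ := norm_pos_iff.2 (Int.cast_ne_zero.2 hc0)
  refine ⟨‖(c : PadicComplex 2)‖⁻¹, inv_pos.2 hcn, fun L _ _ φ hint => ?_⟩
  by_contra hcon
  rw [not_le] at hcon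
  have hc1 : ‖(c : L)‖ ≤ 1 := IsUltrametricDist.norm_intCast_le_one L _
  rw [← hint] at hcn hcon
  have hx1 : 1 < ‖φ β‖ := ((one_le_inv₀ hcn).2 hc1).trans_lt hcon
  have hbig : 1 < ‖(c : L)‖ * ‖φ β‖ := by
    rw [inv_lt_iff_one_lt_mul₀ hcn, mul_comm] at hcon
    exact hcon
  have h0 : p.eval₂ (Int.castRingHom L) (φ β) = 0 := by
    have h1 := congrArg φ hpβ
    rw [map_zero, Polynomial.aeval_def, Polynomial.hom_eval₂] at h1
    have e : φ.comp (algebraMap ℤ ℂ) = Int.castRingHom L := RingHom.ext_int _ _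
    rw [e] at h1
    exact h1
  rw [Polynomial.eval₂_eq_sum_range, Finset.sum_range_succ] at h0
  have hlead : Int.castRingHom L (p.coeff p.natDegree) = (c : L) := by
    rw [hc]
    rfl
  rw [hlead] at h0
  have h1 : ‖(c : L) * φ β ^ p.natDegree‖ =
      ‖∑ i ∈ Finset.range p.natDegree, Int.castRingHom L (p.coeff i) * φ β ^ i‖ := by
    have e : (c : L) * φ β ^ p.natDegree =
        -∑ i ∈ Finset.range p.natDegree, Int.castRingHom L (p.coeff i) * φ β ^ i := by
      linear_combination h0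
    rw [e, norm_neg]
  rcases Nat.eq_zero_or_pos p.natDegree with hd | hd
  · rw [hd, pow_zero, mul_one, Finset.range_zero, Finset.sum_empty, norm_zero] at h1
    linarith
  · obtain ⟨m, hm⟩ : ∃ m, p.natDegree = m + 1 := ⟨p.natDegree - 1, by omega⟩
    have h2 : ‖∑ i ∈ Finset.range p.natDegree, Int.castRingHom L (p.coeff i) * φ β ^ i‖ ≤
        ‖φ β‖ ^ m := by
      refine IsUltrametricDist.norm_sum_le_of_forall_le_of_nonneg (by positivity)
        fun i hi => ?_
      rw [norm_mul, norm_pow]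
      have h3 : ‖Int.castRingHom L (p.coeff i)‖ ≤ 1 :=
        IsUltrametricDist.norm_intCast_le_one L _
      have h4 : ‖φ β‖ ^ i ≤ ‖φ β‖ ^ m := by
        refine pow_le_pow_right₀ hx1.le ?_
        have := Finset.mem_range.1 hi
        omega
      calc _ ≤ 1 * ‖φ β‖ ^ m := mul_le_mul h3 h4 (by positivity) zero_le_one
        _ = _ := one_mul _
    rw [← h1, hm, norm_mul, norm_pow, pow_succ] at h2
    have h3 : 0 < ‖φ β‖ ^ m := pow_pos (one_pos.trans hx1) m
    nlinarith

/-- a transcendental root, or a point of `ℙ²` with algebraic coordinates -/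
theorem pl_root (x y z : ℂ) :
    (∃ e : ℂ, Transcendental ℚ e ∧ y * e ^ 2 + (x + z) * e - z = 0) ∨
      ∃ (τ : ℂ) (b : Fin 3 → ℂ), (∀ i, IsAlgebraic ℚ (b i)) ∧ x = b 0 * τ ∧ y = b 1 * τ ∧
        z = b 2 * τ := by
  have h01 : IsAlgebraic ℚ (1 : ℂ) := isAlgebraic_one
  have h00 : IsAlgebraic ℚ (0 : ℂ) := isAlgebraic_zero
  by_cases hy : y = 0
  · by_cases hs : x + z = 0
    · right
      refine ⟨x, ![1, 0, -1], fun i => ?_, by simp, by simp [hy], ?_⟩
      · fin_cases i
        · exact h01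
        · exact h00
        · exact h01.neg
      · show z = -1 * x
        linear_combination hs
    · by_cases he : Transcendental ℚ (z / (x + z))
      · left
        refine ⟨_, he, ?_⟩
        rw [hy]
        field_simp
        ring
      · right
        have he' : IsAlgebraic ℚ (z / (x + z)) := not_not.1 he
        refine ⟨x + z, ![1 - z / (x + z), 0, z / (x + z)], fun i => ?_, ?_, ?_, ?_⟩
        · fin_cases i
          · exact h01.sub he'
          · exact h00
          · exact he'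
        · show x = (1 - z / (x + z)) * (x + z)
          field_simp
          ring
        · show y = 0 * (x + z)
          rw [hy, zero_mul]
        · show z = z / (x + z) * (x + z)
          field_simp
  · obtain ⟨s, hs⟩ := IsAlgClosed.exists_eq_mul_self (discrim y (x + z) (-z))
    obtain ⟨e₁, he₁⟩ := exists_quadratic_eq_zero hy ⟨s, hs⟩
    obtain ⟨e₂, he₂⟩ : ∃ e₂, e₂ = -(x + z) / y - e₁ := ⟨_, rfl⟩
    have hsum : y * (e₁ + e₂) = -(x + z) := by
      rw [he₂]
      field_simp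
      ring
    have hprod : y * (e₁ * e₂) = -z := by
      linear_combination e₁ * hsum - he₁
    by_cases h1 : Transcendental ℚ e₁
    · exact Or.inl ⟨e₁, h1, by linear_combination he₁⟩
    by_cases h2 : Transcendental ℚ e₂
    · exact Or.inl ⟨e₂, h2, by linear_combination e₂ * hsum - hprod⟩
    right
    have a1 : IsAlgebraic ℚ e₁ := not_not.1 h1
    have a2 : IsAlgebraic ℚ e₂ := not_not.1 h2
    refine ⟨y, ![e₁ * e₂ - e₁ - e₂, 1, -(e₁ * e₂)], fun i => ?_, ?_, ?_, ?_⟩
    · fin_cases i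
      · exact ((a1.mul a2).sub a1).sub a2
      · exact h01
      · exact (a1.mul a2).neg
    · show x = (e₁ * e₂ - e₁ - e₂) * y
      linear_combination hsum - hprod
    · show y = 1 * y
      rw [one_mul]
    · show z = -(e₁ * e₂) * y
      linear_combination hprod

end Pool.Agent.TRA
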