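import Mathlib

/-!
# The value group of `ℂ_[2]` is countable
-/

set_option autoImplicit false

namespace Pool.Agent.TRA

open Polynomial

theorem cnt_alg (x : PadicAlgCl 2) (hx : x ≠ 0) :
    ∃ (k : ℤ) (d : ℕ), ‖x‖ = ((2 : ℝ) ^ k) ^ (1 / (d : ℝ)) := by
  have h1 := spectralNorm.spectralNorm_eq_norm_coeff_zero_rpow ℚ_[2] (PadicAlgCl 2) x
  have hi : IsIntegral ℚ_[2] x := Algebra.IsIntegral.isIntegral x
  have h0 : (minpoly ℚ_[2] x).coeff 0 ≠ 0 := minpoly.coeff_zero_ne_zero hi hx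
  rw [Padic.norm_eq_zpow_neg_valuation h0] at h1
  exact ⟨_, _, h1⟩

theorem cnt_norm : (Set.range fun c : PadicComplex 2 => ‖c‖).Countable := by
  have h1 : (Set.range fun c : PadicComplex 2 => ‖c‖) ⊆
      {0} ∪ Set.range fun p : ℤ × ℕ => ((2 : ℝ) ^ p.1) ^ (1 / (p.2 : ℝ)) := by
    rintro _ ⟨c, rfl⟩
    by_cases hc : c = 0
    · left
      simp [hc]
    right
    have hpos : 0 < ‖c‖ := norm_pos_iff.2 hc
    obtain ⟨y, hy⟩ := (UniformSpace.Completion.denseRange_coe
      (α := PadicAlgCl 2)).exists_dist_lt c hpos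
    rw [dist_eq_norm] at hy
    have hn : ‖c‖ = ‖y‖ := by
      rw [← PadicComplex.norm_extends]
      have e : (y : PadicComplex 2) = c + -(c - y) := by ring
      rw [e, IsUltrametricDist.norm_add_eq_max_of_norm_ne_norm (by rw [norm_neg]; exact hy.ne'),
        norm_neg, max_eq_left hy.le]
    have hy0 : y ≠ 0 := by
      rintro rfl
      rw [norm_zero] at hn
      exact hpos.ne' hn
    obtain ⟨k, d, h⟩ := cnt_alg y hy0
    refine ⟨(k, d), ?_⟩
    show _ = ‖c‖
    rw [hn, h]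
  exact ((Set.countable_singleton 0).union (Set.countable_range _)).mono h1

/-- in every interval there is a number without nonzero power in the value group -/
theorem cnt_exists (a b : ℝ) (ha : 0 ≤ a) (hab : a < b) : ∃ r : ℝ, a < r ∧ r < b ∧
    ∀ (c : PadicComplex 2) (m : ℤ), r ^ m = ‖c‖ → m = 0 := by
  by_contra hcon
  push Not at hcon
  have hsub : Set.Ioo a b ⊆ ⋃ m : ℤ, ⋃ n ∈ (Set.range fun c : PadicComplex 2 => ‖c‖),
      {r : ℝ | 0 < r ∧ m ≠ 0 ∧ r ^ m = n} := by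
    rintro r ⟨h1, h2⟩
    obtain ⟨c, m, h3, h4⟩ := hcon r h1 h2
    simp only [Set.mem_iUnion]
    exact ⟨m, ‖c‖, ⟨c, rfl⟩, ha.trans_lt h1, h4, h3⟩
  have hc : (Set.Ioo a b).Countable := by
    refine Set.Countable.mono hsub ?_
    refine Set.countable_iUnion fun m => Set.Countable.biUnion cnt_norm fun n _ => ?_
    refine Set.Subsingleton.countable ?_
    rintro r ⟨hr, hm, h⟩ s ⟨hs, _, h'⟩
    rw [← h'] at h
    exact (zpow_left_injOn₀ hm) hr.le hs.le h
  have h1 := Cardinal.mk_Ioo_real hab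
  have h2 := hc.le_aleph0
  rw [h1] at h2
  exact absurd h2 (not_le.2 Cardinal.aleph0_lt_continuum)

end Pool.Agent.TRA
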