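import Pool.Agent.Lib.MP_e9abfe_ag_GSF.Defs

/-!
# Dynamical Mordell-Lang at transcendental points, map `(x² + y, y² + z, z² + x)`: vocabulary
-/

set_option autoImplicit false

namespace Pool.Agent.TRA

variable {L : Type} [NormedField L]

/-- an orbit with two coordinates `u`, `v` dominated by their own squares, of multiplicatively
independent norms, and a coordinate `w` of the order of `√u` -/
structure Semi (u v w : ℕ → L) : Prop where
  u_succ : ∀ n, u (n + 1) = u n ^ 2 + v n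
  v_succ : ∀ n, v (n + 1) = v n ^ 2 + w n
  w_succ : ∀ n, w (n + 1) = w n ^ 2 + u n
  u_one : 1 < ‖u 0‖
  v_one : 1 < ‖v 0‖
  hw : ‖w 0‖ ^ 2 ≤ ‖u 0‖
  hv : ‖v 0‖ < ‖u 0‖ ^ 2
  hu : ‖u 0‖ < ‖v 0‖ ^ 4
  indep : ∀ a b : ℤ, ‖u 0‖ ^ a = ‖v 0‖ ^ b → a = 0 ∧ b = 0

end Pool.Agent.TRA
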