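import Pool.Agent.Lib.MP_e9abfe_ag_TRA.FldB
import Pool.Agent.Lib.MP_e9abfe_ag_TRA.Cnt
import Pool.Agent.Lib.MP_e9abfe_ag_GSF.Frob
import Pool.Agent.Lib.MP_e9abfe_ag_DMC.Emb
import Pool.Agent.Lib.MP_e9abfe_ag_DMC.Fin

/-!
# Embeddings of `ℂ` into ultrametric fields with prescribed norm of a transcendental number
-/

set_option autoImplicit false

namespace Pool.Agent.TRA

open Polynomial

/-- `ℂ` is algebraic over `R[e]`, and `e` is transcendental over `R` -/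
theorem emb_basis (e : ℂ) (he : Transcendental ℚ e) : ∃ R : Subalgebra ℚ ℂ,
    (∀ p : Polynomial R, p ≠ 0 → p.eval₂ (algebraMap R ℂ) e ≠ 0) ∧
    ∀ v : ℂ, ∃ G : Polynomial (Polynomial R), G ≠ 0 ∧
      G.eval₂ (eval₂RingHom (algebraMap R ℂ) e) v = 0 := by
  classical
  have h0 : AlgebraicIndepOn ℚ id ({e} : Set ℂ) :=
    (algebraicIndependent_singleton_iff (ι := ({e} : Set ℂ)) ⟨e, rfl⟩).2 he
  obtain ⟨T, hT, hb⟩ := exists_isTranscendenceBasis_superset h0
  have heT : e ∈ T := hT rfl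
  obtain ⟨s, hs⟩ : ∃ s : Set ℂ, s = Subtype.val '' {i : T | (i : ℂ) ≠ e} := ⟨_, rfl⟩
  refine ⟨Algebra.adjoin ℚ s, ?_, ?_⟩
  · have h1 := hb.1.transcendental_adjoin (s := {i : T | (i : ℂ) ≠ e}) (i := ⟨e, heT⟩)
      (fun h => h rfl)
    rw [← hs] at h1
    intro p hp h2
    exact h1 ⟨p, hp, h2⟩
  · have h1 : ∀ a ∈ Algebra.adjoin ℚ (Set.range (Subtype.val : T → ℂ)),
        ∃ q : Polynomial (Algebra.adjoin ℚ s),
          q.eval₂ (algebraMap (Algebra.adjoin ℚ s) ℂ) e = a := by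
      intro a ha
      induction ha using Algebra.adjoin_induction with
      | mem x hx =>
        obtain ⟨i, rfl⟩ := hx
        by_cases hi : (i : ℂ) = e
        · exact ⟨X, by rw [eval₂_X, hi]⟩
        · refine ⟨C ⟨i, Algebra.subset_adjoin ?_⟩, ?_⟩
          · rw [hs]
            exact ⟨i, hi, rfl⟩
          · rw [eval₂_C]
            rfl
      | algebraMap r =>
        refine ⟨C (algebraMap ℚ _ r), ?_⟩
        rw [eval₂_C]
        rfl
      | add x y _ _ hx hy =>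
        obtain ⟨p, hp⟩ := hx
        obtain ⟨q, hq⟩ := hy
        exact ⟨p + q, by rw [eval₂_add, hp, hq]⟩
      | mul x y _ _ hx hy =>
        obtain ⟨p, hp⟩ := hx
        obtain ⟨q, hq⟩ := hy
        exact ⟨p * q, by rw [eval₂_mul, hp, hq]⟩
    choose! f hf using h1
    intro v
    have h2 := hb.isAlgebraic
    obtain ⟨P, hP, hPv⟩ := h2.isAlgebraic v
    obtain ⟨g, hg⟩ : ∃ g : ℕ → Polynomial (Algebra.adjoin ℚ s),
        g = fun i => f ((P.coeff i : _) : ℂ) := ⟨_, rfl⟩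
    have hgv : ∀ i, (g i).eval₂ (algebraMap (Algebra.adjoin ℚ s) ℂ) e = (P.coeff i : ℂ) := by
      intro i
      rw [hg]
      exact hf _ (P.coeff i).2
    refine ⟨∑ i ∈ P.support, C (g i) * X ^ i, ?_, ?_⟩
    · intro h0
      obtain ⟨i, hi⟩ := support_nonempty.2 hP
      have h3 := congrArg (fun Q => coeff Q i) h0
      simp only [finsetSum_coeff, coeff_C_mul_X_pow, coeff_zero] at h3
      rw [Finset.sum_ite_eq P.support i g, if_pos hi] at h3
      have h4 := hgv i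
      rw [h3, eval₂_zero] at h4
      exact (mem_support_iff.1 hi) (Subtype.ext h4.symm)
    · rw [eval₂_finsetSum]
      rw [aeval_def, eval₂_eq_sum, sum_def] at hPv
      rw [← hPv]
      refine Finset.sum_congr rfl fun i _ => ?_
      rw [eval₂_mul, eval₂_C, eval₂_X_pow, coe_eval₂RingHom, hgv]
      rfl

/-- extension of an embedding to `ℂ` -/
theorem emb_lift {L : Type} [Field L] [IsAlgClosed L] (R : Subalgebra ℚ ℂ) (e : ℂ)
    (h1 : ∀ p : Polynomial R, p ≠ 0 → p.eval₂ (algebraMap R ℂ) e ≠ 0)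
    (h2 : ∀ v : ℂ, ∃ G : Polynomial (Polynomial R), G ≠ 0 ∧
      G.eval₂ (eval₂RingHom (algebraMap R ℂ) e) v = 0)
    (j : R →+* L) (t : L) (h3 : ∀ p : Polynomial R, p ≠ 0 → p.eval₂ j t ≠ 0) :
    ∃ φ : ℂ →+* L, φ e = t ∧ ∀ c : R, φ c = j c := by
  let i1 : Algebra (Polynomial R) ℂ := (eval₂RingHom (algebraMap R ℂ) e).toAlgebra
  let i2 : Algebra (Polynomial R) L := (eval₂RingHom j t).toAlgebra
  have e1 : ∀ p : Polynomial R, algebraMap (Polynomial R) ℂ p = p.eval₂ (algebraMap R ℂ) e :=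
    fun _ => rfl
  have e2 : ∀ p : Polynomial R, algebraMap (Polynomial R) L p = p.eval₂ j t := fun _ => rfl
  have t1 : Module.IsTorsionFree (Polynomial R) ℂ :=
    Module.isTorsionFree_iff_algebraMap_injective.2 (by
      rw [injective_iff_map_eq_zero]
      intro p hp
      by_contra h
      exact h1 p h hp)
  have t2 : Module.IsTorsionFree (Polynomial R) L :=
    Module.isTorsionFree_iff_algebraMap_injective.2 (by
      rw [injective_iff_map_eq_zero]
      intro p hp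
      by_contra h
      exact h3 p h hp)
  have t3 : Algebra.IsAlgebraic (Polynomial R) ℂ := ⟨fun v => by
    obtain ⟨G, hG, hG2⟩ := h2 v
    exact ⟨G, hG, hG2⟩⟩
  obtain ⟨φ⟩ : Nonempty (ℂ →ₐ[Polynomial R] L) := ⟨IsAlgClosed.lift⟩
  refine ⟨φ, ?_, fun c => ?_⟩
  · have h := φ.commutes X
    rw [e1, e2, eval₂_X, eval₂_X] at h
    exact h
  · have h := φ.commutes (C c)
    rw [e1, e2, eval₂_C, eval₂_C] at h
    exact h

/-- the norm of an element which is algebraic over `R[t]` -/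
theorem emb_norm {K L : Type} [NormedField K] [NormedField L] [IsUltrametricDist L]
    {R : Subalgebra ℚ ℂ} (ψ : R →+* K) (hψ : Function.Injective ψ) (ι : K →+* L) (t : L)
    (hι : ∀ c, ‖ι c‖ = ‖c‖) {r : ℝ} (hr : 0 < r) (ht : ‖t‖ = r)
    (hr' : ∀ (c : K) (m : ℤ), r ^ m = ‖c‖ → m = 0) (G : Polynomial (Polynomial R)) (D : ℕ)
    (hD : ∀ i, (G.coeff i).natDegree ≤ D) (hG : G ≠ 0) (x : L) (hx : x ≠ 0)
    (h0 : G.eval₂ (eval₂RingHom (ι.comp ψ) t) x = 0) :
    ∃ (m : ℕ) (i : ℤ) (c : K), 0 < m ∧ |i| ≤ D ∧ c ≠ 0 ∧ ‖x‖ ^ m = ‖c‖ * r ^ i := by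
  classical
  have hxpos : 0 < ‖x‖ := norm_pos_iff.2 hx
  -- the norms of the coefficients
  have hc : ∀ k ∈ G.support, ∃ (i : ℕ) (c : K), c ≠ 0 ∧ i ≤ D ∧
      ‖(G.coeff k).eval₂ (ι.comp ψ) t‖ = ‖c‖ * r ^ i := by
    intro k hk
    have hk0 : (G.coeff k).map ψ ≠ 0 := by
      rw [Ne, Polynomial.map_eq_zero_iff hψ]
      exact mem_support_iff.1 hk
    obtain ⟨i, hi, hi2⟩ := fld_norm ι t hι hr ht hr' _ hk0
    refine ⟨i, _, hi, ?_, ?_⟩
    · refine (le_natDegree_of_ne_zero hi).trans ((natDegree_map_le).trans (hD k))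
    · rw [← hi2, eval₂_map]
  choose! i c hc0 hiD hcn using hc
  -- the dominating term
  obtain ⟨k, hk, hmax⟩ := Finset.exists_max_image G.support
    (fun k => ‖(G.coeff k).eval₂ (ι.comp ψ) t * x ^ k‖) (support_nonempty.2 hG)
  rw [eval₂_eq_sum, sum_def, ← Finset.add_sum_erase _ _ hk] at h0
  have hkn : 0 < ‖(G.coeff k).eval₂ (ι.comp ψ) t * x ^ k‖ := by
    rw [norm_mul, norm_pow, hcn k hk]
    have := norm_pos_iff.2 (hc0 k hk)
    positivity
  have hex : ∃ l ∈ G.support.erase k, ‖(G.coeff k).eval₂ (ι.comp ψ) t * x ^ k‖ ≤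
      ‖(G.coeff l).eval₂ (ι.comp ψ) t * x ^ l‖ := by
    rcases (G.support.erase k).eq_empty_or_nonempty with h | h
    · rw [h, Finset.sum_empty, add_zero] at h0
      have h0' : (G.coeff k).eval₂ (ι.comp ψ) t * x ^ k = 0 := h0
      rw [h0', norm_zero] at hkn
      exact absurd hkn (lt_irrefl _)
    · obtain ⟨l, hl, hl2⟩ := IsUltrametricDist.exists_norm_finsetSum_le_of_nonempty h
        (fun l => (eval₂RingHom (ι.comp ψ) t) (G.coeff l) * x ^ l)
      refine ⟨l, hl, ?_⟩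
      have e : (eval₂RingHom (ι.comp ψ) t) (G.coeff k) * x ^ k =
          -∑ l ∈ G.support.erase k, (eval₂RingHom (ι.comp ψ) t) (G.coeff l) * x ^ l := by
        linear_combination h0
      have e2 := congrArg norm e
      rw [norm_neg] at e2
      exact e2.le.trans hl2
  obtain ⟨l, hl, hle⟩ := hex
  obtain ⟨hlk, hl2⟩ := Finset.mem_erase.1 hl
  have heq := le_antisymm hle (hmax l hl2)
  rw [norm_mul, norm_pow, hcn k hk, norm_mul, norm_pow, hcn l hl2] at heq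
  have hck : 0 < ‖c k‖ := norm_pos_iff.2 (hc0 k hk)
  have hcl : 0 < ‖c l‖ := norm_pos_iff.2 (hc0 l hl2)
  have hDk := hiD k hk
  have hDl := hiD l hl2
  rcases lt_or_gt_of_ne hlk with h | h
  · -- l < k
    refine ⟨k - l, (i l : ℤ) - (i k : ℤ), c l / c k, by omega, ?_,
      div_ne_zero (hc0 l hl2) (hc0 k hk), ?_⟩
    · rw [abs_le]
      constructor <;> omega
    · obtain ⟨m, hm⟩ : ∃ m, k = l + m := ⟨k - l, by omega⟩
      have e1 : k - l = m := by omega
      rw [e1, norm_div, zpow_sub₀ hr.ne', zpow_natCast, zpow_natCast]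
      rw [hm, pow_add] at heq
      rw [hm]
      rw [hm] at hck
      have h1 : 0 < ‖x‖ ^ l := pow_pos hxpos l
      have h2 : 0 < r ^ i (l + m) := pow_pos hr _
      have h3 : ‖x‖ ^ l * (‖c (l + m)‖ * r ^ i (l + m) * ‖x‖ ^ m) =
          ‖x‖ ^ l * (‖c l‖ * r ^ i l) := by linear_combination heq
      have h4 := mul_left_cancel₀ h1.ne' h3
      field_simp
      linear_combination h4
  · refine ⟨l - k, (i k : ℤ) - (i l : ℤ), c k / c l, by omega, ?_,
      div_ne_zero (hc0 k hk) (hc0 l hl2), ?_⟩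
    · rw [abs_le]
      constructor <;> omega
    · obtain ⟨m, hm⟩ : ∃ m, l = k + m := ⟨l - k, by omega⟩
      have e1 : l - k = m := by omega
      rw [e1, norm_div, zpow_sub₀ hr.ne', zpow_natCast, zpow_natCast]
      rw [hm, pow_add] at heq
      rw [hm]
      rw [hm] at hcl
      have h1 : 0 < ‖x‖ ^ k := pow_pos hxpos k
      have h2 : 0 < r ^ i (k + m) := pow_pos hr _
      have h3 : ‖x‖ ^ k * (‖c (k + m)‖ * r ^ i (k + m) * ‖x‖ ^ m) =
          ‖x‖ ^ k * (‖c k‖ * r ^ i k) := by linear_combination -heq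
      have h4 := mul_left_cancel₀ h1.ne' h3
      field_simp
      linear_combination h4

/-- multiplicative dependence on `r` forces a small norm -/
theorem emb_small {K : Type} [NormedField K] {r : ℝ} (hr : 0 < r) (hr1 : r < 1)
    (hr' : ∀ (c : K) (m : ℤ), r ^ m = ‖c‖ → m = 0) {y : ℝ} {D m : ℕ} (hm : 0 < m)
    {i : ℤ} (hi : |i| ≤ D) {c : K} (hc : c ≠ 0) (h1 : y ^ m = ‖c‖ * r ^ i) {a b : ℤ}
    (hb : b ≠ 0) (h2 : y ^ b = r ^ a) : y ≤ (r⁻¹) ^ D := by
  have hcpos : 0 < ‖c‖ := norm_pos_iff.2 hc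
  have hri : 0 < r ^ i := zpow_pos hr i
  have h3 : (y ^ m) ^ b = (r ^ a) ^ m := by
    rw [← h2, ← zpow_natCast, ← zpow_natCast, ← zpow_mul, ← zpow_mul, mul_comm]
  rw [h1, mul_zpow, ← zpow_mul] at h3
  have h4 : r ^ (a * m - i * b) = ‖c ^ b‖ := by
    rw [norm_zpow, zpow_sub₀ hr.ne', div_eq_iff (zpow_pos hr _).ne', h3, ← zpow_natCast,
      ← zpow_mul]
  have h5 := hr' _ _ h4
  rw [h5, zpow_zero, norm_zpow] at h4
  have h6 : ‖c‖ = 1 := by
    have h7 : ‖c‖ ^ b = 1 ^ b := by rw [one_zpow, ← h4]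
    exact (zpow_left_inj₀ hcpos.le zero_le_one hb).1 h7
  rw [h6, one_mul] at h1
  have hinv : 1 ≤ r⁻¹ := (one_le_inv₀ hr).2 hr1.le
  have h8 : r ^ i ≤ (r⁻¹) ^ D := by
    have h9 : r ^ i = (r⁻¹) ^ (-i) := by
      rw [zpow_neg, inv_zpow, inv_inv]
    rw [h9, ← zpow_natCast (r⁻¹) D]
    exact zpow_le_zpow_right₀ hinv (by have := abs_le.1 hi; omega)
  rcases le_total y 1 with h | h
  · exact h.trans (one_le_pow₀ hinv)
  · calc y = y ^ 1 := (pow_one y).symm
      _ ≤ y ^ m := pow_le_pow_right₀ h hm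
      _ = r ^ i := h1
      _ ≤ _ := h8

theorem emb_main (e : ℂ) (he : Transcendental ℚ e) (v : Fin 3 → ℂ) : ∃ D : ℕ, ∀ r : ℝ, 0 < r →
    r < 1 → (∀ (c : PadicComplex 2) (m : ℤ), r ^ m = ‖c‖ → m = 0) →
    ∃ (L : Type) (_ : NormedField L) (_ : IsUltrametricDist L) (_ : CompleteSpace L)
      (_ : IsAlgClosed L) (φ : ℂ →+* L), ‖φ e‖ = r ∧
      (∀ n : ℤ, ‖(n : L)‖ = ‖(n : PadicComplex 2)‖) ∧
      (∀ u : L, ‖u‖ = 1 → ∃ f : ℕ, 0 < f ∧ ‖u ^ (2 ^ f - 1) - 1‖ < 1) ∧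
      ∀ (k : Fin 3) (a b : ℤ), b ≠ 0 → ‖φ (v k)‖ ^ b = r ^ a → ‖φ (v k)‖ ≤ (r⁻¹) ^ D := by
  classical
  obtain ⟨R, h1, h2⟩ := emb_basis e he
  choose G hG hG2 using h2
  obtain ⟨D, hD⟩ : ∃ D : ℕ, ∀ (k : Fin 3) (i : ℕ), ((G (v k)).coeff i).natDegree ≤ D := by
    refine ⟨∑ k, ∑ i ∈ (G (v k)).support, ((G (v k)).coeff i).natDegree, fun k i => ?_⟩
    by_cases hi : i ∈ (G (v k)).support
    · exact (Finset.single_le_sum (f := fun i => ((G (v k)).coeff i).natDegree)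
        (fun _ _ => Nat.zero_le _) hi).trans (Finset.single_le_sum
          (f := fun k => ∑ i ∈ (G (v k)).support, ((G (v k)).coeff i).natDegree)
          (fun _ _ => Nat.zero_le _) (Finset.mem_univ k))
    · rw [notMem_support_iff.1 hi, natDegree_zero]
      exact Nat.zero_le _
  refine ⟨D, fun r hr hr1 hr' => ?_⟩
  obtain ⟨ψ₀⟩ : Nonempty (ℂ ≃+* PadicComplex 2) :=
    IsAlgClosed.ringEquiv_of_equiv_of_charZero
      (by rw [Cardinal.mk_complex]; exact Cardinal.aleph0_lt_continuum)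
      (Cardinal.eq.1 Pool.Agent.DMC.emb_mk.symm)
  obtain ⟨ψ, hψ⟩ : ∃ ψ : R →+* PadicComplex 2,
      ψ = (ψ₀ : ℂ →+* PadicComplex 2).comp (algebraMap R ℂ) := ⟨_, rfl⟩
  have hψi : Function.Injective ψ := by
    rw [hψ]
    exact ψ₀.injective.comp Subtype.val_injective
  have hbig : ∃ c : PadicComplex 2, 1 < ‖c‖ := by
    refine ⟨(2 : PadicComplex 2)⁻¹, ?_⟩
    rw [norm_inv]
    exact one_lt_inv_iff₀.2 ⟨norm_pos_iff.2 two_ne_zero, Pool.Agent.DMC.Fin_two⟩
  obtain ⟨L, i1, i2, i3, i4, ι, t, hι, ht, hres⟩ := fld_big (PadicComplex 2) hbig r hr hr'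
  have h3 : ∀ p : Polynomial R, p ≠ 0 → p.eval₂ (ι.comp ψ) t ≠ 0 := by
    intro p hp h0
    have hp2 : p.map ψ ≠ 0 := by
      rw [Ne, Polynomial.map_eq_zero_iff hψi]
      exact hp
    obtain ⟨i, hi, hi2⟩ := fld_norm ι t hι hr ht hr' _ hp2
    rw [eval₂_map, h0, norm_zero] at hi2
    have := norm_pos_iff.2 hi
    have : 0 < ‖(p.map ψ).coeff i‖ * r ^ i := by positivity
    exact this.ne hi2
  obtain ⟨φ, hφe, hφc⟩ := emb_lift R e h1 (fun v => ⟨G v, hG v, hG2 v⟩) (ι.comp ψ) t h3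
  have htwo : ∀ n : ℤ, ‖(n : L)‖ = ‖(n : PadicComplex 2)‖ := fun n => by
    rw [← map_intCast ι n, hι]
  refine ⟨L, i1, i2, i3, i4, φ, by rw [hφe, ht], htwo, ?_, ?_⟩
  · intro u hu
    obtain ⟨c, hc⟩ := hres u hu.le
    have hc1 : ‖c‖ = 1 := by
      rw [← hι c]
      have e1 : ι c = u + -(u - ι c) := by ring
      rw [e1, IsUltrametricDist.norm_add_eq_max_of_norm_ne_norm
        (by rw [norm_neg, hu]; exact hc.ne'), norm_neg, hu]
      exact max_eq_left hc.le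
    obtain ⟨f, hf, hf2⟩ := Pool.Agent.GSF.frob c hc1
    refine ⟨f, hf, ?_⟩
    have h5 : ∀ k : ℕ, ‖u ^ k - (ι c) ^ k‖ < 1 := by
      intro k
      induction k with
      | zero => simp
      | succ k ih =>
        have e1 : u ^ (k + 1) - (ι c) ^ (k + 1) =
            u ^ k * (u - ι c) + (u ^ k - (ι c) ^ k) * ι c := by ring
        rw [e1]
        refine (IsUltrametricDist.norm_add_le_max _ _).trans_lt (max_lt ?_ ?_)
        · rw [norm_mul, norm_pow, hu, one_pow, one_mul]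
          exact hc
        · rw [norm_mul, hι, hc1, mul_one]
          exact ih
    have e2 : u ^ (2 ^ f - 1) - 1 = (u ^ (2 ^ f - 1) - (ι c) ^ (2 ^ f - 1)) +
        ι (c ^ (2 ^ f - 1) - 1) := by
      rw [map_sub, map_pow, map_one]
      ring
    rw [e2]
    refine (IsUltrametricDist.norm_add_le_max _ _).trans_lt (max_lt (h5 _) ?_)
    rw [hι]
    exact hf2
  · intro k a b hb hab
    by_cases hv : v k = 0
    · rw [hv, map_zero, norm_zero, zero_zpow b hb] at hab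
      exact absurd hab (zpow_pos hr a).ne
    have hx : φ (v k) ≠ 0 := by
      rw [Ne, map_eq_zero]
      exact hv
    have h0 : (G (v k)).eval₂ (eval₂RingHom (ι.comp ψ) t) (φ (v k)) = 0 := by
      have e1 : (φ.comp (eval₂RingHom (algebraMap R ℂ) e)) = eval₂RingHom (ι.comp ψ) t := by
        apply Polynomial.ringHom_ext
        · intro c
          simp only [RingHom.comp_apply, coe_eval₂RingHom, eval₂_C]
          exact hφc c
        · simp only [RingHom.comp_apply, coe_eval₂RingHom, eval₂_X]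
          exact hφe
      rw [← e1, ← hom_eval₂, hG2, map_zero]
    obtain ⟨m, i, c, hm, hi, hc, hn⟩ := emb_norm ψ hψi ι t hι hr ht hr' (G (v k)) D (hD k)
      (hG (v k)) (φ (v k)) hx h0
    exact emb_small hr hr1 hr' hm hi hc hn hb hab

end Pool.Agent.TRA
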