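import Pool.Agent.Lib.MP_e9abfe_ag_TRA.Geo
import Pool.Agent.Lib.MP_e9abfe_ag_TRA.Emb
import Pool.Agent.Lib.MP_e9abfe_ag_TRA.Alg
import Pool.Agent.Lib.MP_e9abfe_ag_GSF.Fin

/-!
# The theorem over the complex numbers
-/

set_option autoImplicit false

namespace Pool.Agent.TRA

open MvPolynomial
open Pool.Agent.DMC
open Pool.Agent.MP_e9abfe (Phi Phi_iter_map)

/-- transfer by a homomorphism of fields -/
theorem APs_of_map {L : Type} [NormedField L] (φ : ℂ →+* L) (α : Fin 3 → ℂ)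
    (h : APs fun i => φ (α i)) : APs α := by
  intro S
  have hiter : ∀ n, Phi^[n] (fun i => φ (α i)) = fun i => φ (Phi^[n] α i) := fun n =>
    Phi_iter_map φ n α
  have hz : ∀ (g : MvPolynomial (Fin 3) ℂ) (n : ℕ),
      eval (Phi^[n] fun i => φ (α i)) (map φ g) = 0 ↔ eval (Phi^[n] α) g = 0 := by
    intro g n
    rw [hiter, Pool.Agent.GSF.fin_eval]
    exact map_eq_zero_iff φ φ.injective
  obtain ⟨F, hF⟩ := h (map φ '' S)
  refine ⟨F, ?_⟩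
  rw [← hF]
  ext n
  constructor
  · rintro h _ ⟨g, hg, rfl⟩
    exact (hz g n).2 (h g hg)
  · intro h g hg
    exact (hz g n).1 (h _ ⟨g, hg, rfl⟩)

/-- transfer from an iterate -/
theorem APs_shift (α : Fin 3 → ℂ) (N : ℕ) (h : APs (Phi^[N] α)) : APs α := by
  classical
  intro S
  obtain ⟨F, hF⟩ := h S
  refine ⟨F.image (fun q => (q.1 + N, q.2)) ∪
    ((Finset.range N).filter fun n => ∀ g ∈ S, eval (Phi^[n] α) g = 0).image fun n => (n, 0), ?_⟩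
  have hiff : ∀ m, (∀ g ∈ S, eval (Phi^[m + N] α) g = 0) ↔ ∃ q ∈ F, ∃ j : ℕ,
      m = q.1 + q.2 * j := by
    intro m
    have h1 : m ∈ {n : ℕ | ∀ g ∈ S, eval (Phi^[n] (Phi^[N] α)) g = 0} ↔
        m ∈ {m | ∃ q ∈ F, ∃ j : ℕ, m = q.1 + q.2 * j} := by rw [hF]
    simp only [Set.mem_ofPred_eq, ← Function.iterate_add_apply] at h1
    exact h1
  ext m
  simp only [Set.mem_ofPred_eq, Finset.mem_union, Finset.mem_image, Finset.mem_filter,
    Finset.mem_range]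
  constructor
  · intro hm
    rcases Nat.lt_or_ge m N with hlt | hge
    · exact ⟨(m, 0), Or.inr ⟨m, ⟨hlt, hm⟩, rfl⟩, 0, by simp⟩
    · obtain ⟨k, rfl⟩ : ∃ k, m = k + N := ⟨m - N, by omega⟩
      obtain ⟨q, hq, j, hj⟩ := (hiff k).1 hm
      exact ⟨(q.1 + N, q.2), Or.inl ⟨q, hq, rfl⟩, j, by simp only; omega⟩
  · rintro ⟨p, ⟨q, hq, rfl⟩ | ⟨n, ⟨hn, hnS⟩, rfl⟩, j, hj⟩
    · have e : m = q.1 + q.2 * j + N := by
        simp only at hj
        omega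
      rw [e]
      exact (hiff _).2 ⟨q, hq, j, rfl⟩
    · have e : m = n := by simpa using hj
      rw [e]
      exact hnS

theorem tra_main (α : Fin 3 → ℂ) (hα : ∃ i, Transcendental ℚ (α i)) : APs α := by
  by_cases hint : ∀ P : MvPolynomial (Fin 3) ℤ, 2 * aeval α P ≠ 1
  · exact fun S => Fin_integral α hint S
  push Not at hint
  obtain ⟨P, hP⟩ := hint
  obtain ⟨M₀, hM₀, hlow⟩ := pl_low hP
  rcases pl_root (α 0) (α 1) (α 2) with ⟨e, he, hroot⟩ | ⟨τ, b, hb, hx, hy, hz⟩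
  · obtain ⟨D, hD⟩ := emb_main e he α
    obtain ⟨a, ha0, ha1, ha⟩ := near_one hM₀ (D + 8)
    obtain ⟨r, har, hr1, hr'⟩ := cnt_exists a 1 ha0.le ha1
    have hr : 0 < r := ha0.trans har
    obtain ⟨L, i1, i2, i3, i4, φ, hφe, hn, hfr, hind⟩ := hD r hr hr1 hr'
    have h2 : ‖(2 : L)‖ = ‖(2 : PadicComplex 2)‖ := by
      have := hn 2
      norm_cast at this ⊢
    have hch : CharZero L := charZero_of_injective_ringHom φ.injective
    refine APs_of_map φ α (geo_main (r := r) (M₀ := M₀) (D := D) (e := φ e)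
      (by rw [h2]; exact Fin_two) hfr hr hr1 hφe ?_ (hlow L φ h2) ?_ hM₀ hind)
    · have h3 := congrArg φ hroot
      simpa only [map_sub, map_add, map_mul, map_pow, map_zero] using h3
    · refine ha.trans_le (mul_le_mul_of_nonneg_right ?_ (by linarith))
      exact pow_le_pow_left₀ ha0.le har.le _
  · exfalso
    have hbα : ∀ i, α i = b i * τ := by
      intro i
      fin_cases i
      · exact hx
      · exact hy
      · exact hz
    have hτ : Transcendental ℚ τ := by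
      obtain ⟨i, hi⟩ := hα
      intro h
      refine hi ?_
      rw [hbα i]
      exact (hb i).mul h
    obtain ⟨D, hD⟩ := emb_main τ hτ α
    choose C hC0 hC using fun i => pl_alg (b i) (hb i)
    obtain ⟨K, hK⟩ : ∃ K : ℝ, K = 1 + ∑ i, C i := ⟨_, rfl⟩
    have hCK : ∀ i, C i ≤ K := fun i => by
      have := Finset.single_le_sum (f := C) (fun i _ => (hC0 i).le) (Finset.mem_univ i)
      linarith
    have hK1 : 1 ≤ K := by
      have : 0 ≤ ∑ i, C i := Finset.sum_nonneg fun i _ => (hC0 i).le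
      linarith
    have hK0 : 0 < K := by linarith
    obtain ⟨r, hr, hrK, hr'⟩ := cnt_exists 0 K⁻¹ le_rfl (inv_pos.2 hK0)
    have hr1 : r < 1 := hrK.trans_le (inv_le_one_of_one_le₀ hK1)
    obtain ⟨L, i1, i2, i3, i4, φ, hφe, hn, hfr, -⟩ := hD r hr hr1 hr'
    have h2 : ‖(2 : L)‖ = ‖(2 : PadicComplex 2)‖ := by
      have := hn 2
      norm_cast at this ⊢
    obtain ⟨i, hi⟩ := hlow L φ h2
    rw [hbα i, map_mul, norm_mul, hφe] at hi
    have h3 : ‖φ (b i)‖ ≤ K := (hC i L φ hn).trans (hCK i)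
    have h4 : ‖φ (b i)‖ * r ≤ K * K⁻¹ := mul_le_mul h3 hrK.le hr.le hK0.le
    rw [mul_inv_cancel₀ hK0.ne'] at h4
    linarith

theorem alg_main (α : Fin 3 → ℂ) (N : ℕ) (φ : ℂ →+* PadicComplex 2)
    (h : ∀ i, ‖φ (Phi^[N] α (i + 1))‖ ≤ 1 ∨ ‖φ (Phi^[N] α (i + 1))‖ < ‖φ (Phi^[N] α i)‖ ^ 2) :
    APs α := by
  refine APs_shift α N ?_
  by_cases hint : ∀ P : MvPolynomial (Fin 3) ℤ, 2 * aeval (Phi^[N] α) P ≠ 1
  · exact fun S => Fin_integral _ hint S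
  push Not at hint
  obtain ⟨P, hP⟩ := hint
  obtain ⟨i₀, hi₀⟩ := Fin_big Fin_two φ (Phi^[N] α) P hP
  have hstep : ∀ i, 1 < ‖φ (Phi^[N] α (i + 1))‖ → 1 < ‖φ (Phi^[N] α i)‖ := by
    intro i hi
    have a1 : ‖φ (Phi^[N] α (i + 1))‖ < ‖φ (Phi^[N] α i)‖ ^ 2 :=
      (h i).resolve_left (not_le.2 hi)
    by_contra hcon
    push Not at hcon
    have := norm_nonneg (φ (Phi^[N] α i))
    nlinarith
  have hall : ∀ i, 1 < ‖φ (Phi^[N] α i)‖ := by
    have e2 : i₀ + 2 + 1 = i₀ := by fin_cases i₀ <;> rfl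
    have e1 : i₀ + 1 + 1 = i₀ + 2 := by fin_cases i₀ <;> rfl
    have b2 : 1 < ‖φ (Phi^[N] α (i₀ + 2))‖ := hstep _ (by rw [e2]; exact hi₀)
    have b1 : 1 < ‖φ (Phi^[N] α (i₀ + 1))‖ := hstep _ (by rw [e1]; exact b2)
    intro i
    have hcase : ∀ i₀ i : Fin 3, i = i₀ ∨ i = i₀ + 1 ∨ i = i₀ + 2 := by decide
    rcases hcase i₀ i with h | h | h
    · rw [h]; exact hi₀
    · rw [h]; exact b1
    · rw [h]; exact b2
  exact APs_of_map φ _ (orbit_free Fin_two Pool.Agent.GSF.frob fun i =>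
    (h i).resolve_left (not_le.2 (hall (i + 1))))

theorem final (α : Fin 3 → ℂ) (hα : (∀ i, IsAlgebraic ℚ (α i)) →
      ∃ (N : ℕ) (φ : ℂ →+* PadicComplex 2), ∀ i, ‖φ (Phi^[N] α (i + 1))‖ ≤ 1 ∨
        ‖φ (Phi^[N] α (i + 1))‖ < ‖φ (Phi^[N] α i)‖ ^ 2)
    (S : Set (MvPolynomial (Fin 3) ℂ)) :
    ∃ F : Finset (ℕ × ℕ),
      {n : ℕ | ∀ g ∈ S,
          eval ((fun v : Fin 3 → ℂ => ![v 0 ^ 2 + v 1, v 1 ^ 2 + v 2, v 2 ^ 2 + v 0])^[n] α) g = 0}
        = {m : ℕ | ∃ p ∈ F, ∃ j : ℕ, m = p.1 + p.2 * j} := by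
  change ∃ F : Finset (ℕ × ℕ), {n : ℕ | ∀ f ∈ S, eval (Phi^[n] α) f = 0}
        = {m : ℕ | ∃ p ∈ F, ∃ j : ℕ, m = p.1 + p.2 * j}
  by_cases h : ∀ i, IsAlgebraic ℚ (α i)
  · obtain ⟨N, φ, hφ⟩ := hα h
    exact alg_main α N φ hφ S
  · obtain ⟨i, hi⟩ := not_forall.1 h
    exact tra_main α ⟨i, hi⟩ S

end Pool.Agent.TRA
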