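import Mathlib

/-!
# An ultrametric field generated by one element of prescribed norm
-/

set_option autoImplicit false

namespace Pool.Agent.TRA

open Polynomial

section gauss

variable {K : Type} [NormedField K] [IsUltrametricDist K]

theorem fld_na : IsNonarchimedean (NormedField.toAbsoluteValue K) := fun x y => by
  exact IsUltrametricDist.norm_add_le_max x y

/-- the Gauss norm as a valuation -/
noncomputable def fldVal (K : Type) [NormedField K] [IsUltrametricDist K] (r : ℝ) (hr : 0 < r) :
    Valuation (Polynomial K) NNReal where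
  toFun p := ⟨p.gaussNorm (NormedField.toAbsoluteValue K) r,
    gaussNorm_nonneg _ _ hr.le⟩
  map_zero' := by
    apply Subtype.ext
    exact gaussNorm_zero (NormedField.toAbsoluteValue K) r
  map_one' := by
    apply Subtype.ext
    show (1 : Polynomial K).gaussNorm (NormedField.toAbsoluteValue K) r = 1
    rw [← C_1, gaussNorm_C, map_one]
  map_mul' p q := by
    apply Subtype.ext
    exact gaussNorm_mul fld_na hr p q
  map_add_le_max' p q := by
    have h := isNonarchimedean_gaussNorm (NormedField.toAbsoluteValue K) fld_na hr.le p q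
    exact_mod_cast h

theorem fldVal_coe (r : ℝ) (hr : 0 < r) (p : Polynomial K) :
    ((fldVal K r hr p : NNReal) : ℝ) = p.gaussNorm (NormedField.toAbsoluteValue K) r := rfl

theorem fldVal_eq_zero (r : ℝ) (hr : 0 < r) (p : Polynomial K) :
    fldVal K r hr p = 0 ↔ p = 0 := by
  rw [← NNReal.coe_eq_zero, fldVal_coe]
  exact gaussNorm_eq_zero_iff _ _ (fun x hx => (AbsoluteValue.eq_zero _).1 hx) hr

theorem fldVal_supp (r : ℝ) (hr : 0 < r) :
    nonZeroDivisors (Polynomial K) ≤ (fldVal K r hr).supp.primeCompl := by
  intro p hp hmem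
  have h1 : fldVal K r hr p = 0 := hmem
  rw [fldVal_eq_zero] at h1
  exact nonZeroDivisors.ne_zero hp h1

/-- the extension to rational functions -/
noncomputable def fldW (K : Type) [NormedField K] [IsUltrametricDist K] (r : ℝ) (hr : 0 < r) :
    Valuation (FractionRing (Polynomial K)) NNReal :=
  (fldVal K r hr).extendToLocalization (fldVal_supp r hr) (FractionRing (Polynomial K))

/-- the absolute value -/
noncomputable def fldAbs (K : Type) [NormedField K] [IsUltrametricDist K] (r : ℝ) (hr : 0 < r) :
    AbsoluteValue (FractionRing (Polynomial K)) ℝ where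
  toFun x := ((fldW K r hr x : NNReal) : ℝ)
  map_mul' x y := by
    rw [map_mul]
    exact NNReal.coe_mul _ _
  nonneg' x := NNReal.coe_nonneg _
  eq_zero' x := by
    rw [NNReal.coe_eq_zero]
    exact map_eq_zero _
  add_le' x y := by
    have h : fldW K r hr (x + y) ≤ fldW K r hr x + fldW K r hr y :=
      ((fldW K r hr).map_add x y).trans (max_le (le_add_of_nonneg_right zero_le)
        (le_add_of_nonneg_left zero_le))
    exact_mod_cast h

theorem fldAbs_poly (r : ℝ) (hr : 0 < r) (p : Polynomial K) :
    fldAbs K r hr (algebraMap _ _ p) = p.gaussNorm (NormedField.toAbsoluteValue K) r := by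
  show ((fldW K r hr (algebraMap _ _ p) : NNReal) : ℝ) = _
  unfold fldW
  rw [Valuation.extendToLocalization_apply_map_apply, fldVal_coe]

theorem fldAbs_max (r : ℝ) (hr : 0 < r) (x y : FractionRing (Polynomial K)) :
    fldAbs K r hr (x + y) ≤ max (fldAbs K r hr x) (fldAbs K r hr y) := by
  have h := (fldW K r hr).map_add x y
  have h2 : ((fldW K r hr (x + y) : NNReal) : ℝ) ≤
    ((max (fldW K r hr x) (fldW K r hr y) : NNReal) : ℝ) := by exact_mod_cast h
  rw [NNReal.coe_max] at h2
  exact h2

end gauss

/-- the field of rational functions with a Gauss norm -/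
theorem fld_frac (K : Type) [NormedField K] [IsUltrametricDist K] (r : ℝ) (hr : 0 < r) :
    ∃ (F : Type) (_ : NormedField F) (_ : IsUltrametricDist F) (ι : K →+* F) (t : F),
      (∀ c, ‖ι c‖ = ‖c‖) ∧ ‖t‖ = r ∧
      ∀ x : F, ∃ p q : Polynomial K, q.eval₂ ι t ≠ 0 ∧ x * q.eval₂ ι t = p.eval₂ ι t := by
  let _ : NormedField (FractionRing (Polynomial K)) := (fldAbs K r hr).toNormedField
  have hn : ∀ x : FractionRing (Polynomial K), ‖x‖ = fldAbs K r hr x := fun _ => rfl
  have hu : IsUltrametricDist (FractionRing (Polynomial K)) := by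
    apply IsUltrametricDist.isUltrametricDist_of_forall_norm_add_le_max_norm
    intro x y
    exact fldAbs_max r hr x y
  refine ⟨FractionRing (Polynomial K), inferInstance, hu,
    (algebraMap (Polynomial K) (FractionRing (Polynomial K))).comp Polynomial.C,
    algebraMap (Polynomial K) (FractionRing (Polynomial K)) Polynomial.X, ?_, ?_, ?_⟩
  · intro c
    rw [hn, RingHom.comp_apply, fldAbs_poly, gaussNorm_C]
    rfl
  · rw [hn, fldAbs_poly]
    have h : (X : Polynomial K) = monomial 1 1 := by rw [monomial_one_one_eq_X]
    rw [h, gaussNorm_monomial, map_one, one_mul, pow_one]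
  · have hev : ∀ p : Polynomial K, p.eval₂
        ((algebraMap (Polynomial K) (FractionRing (Polynomial K))).comp Polynomial.C)
        (algebraMap (Polynomial K) (FractionRing (Polynomial K)) Polynomial.X) =
        algebraMap (Polynomial K) (FractionRing (Polynomial K)) p := by
      intro p
      rw [← hom_eval₂, eval₂_C_X]
    intro x
    obtain ⟨p, q, hq, h⟩ := IsFractionRing.div_surjective (A := Polynomial K) x
    have hq0 : algebraMap (Polynomial K) (FractionRing (Polynomial K)) q ≠ 0 :=
      IsFractionRing.to_map_ne_zero_of_mem_nonZeroDivisors hq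
    refine ⟨p, q, ?_, ?_⟩
    · rw [hev]
      exact hq0
    · rw [hev, hev, ← h]
      exact div_mul_cancel₀ _ hq0

end Pool.Agent.TRA
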