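import Pool.Agent.Lib.MP_e9abfe_ag_TRA.FldA

/-!
# Completion and algebraic closure; the big field
-/

set_option autoImplicit false

namespace Pool.Agent.TRA

open Polynomial

theorem fld_compl (F : Type) [NormedField F] [IsUltrametricDist F] :
    ∃ (E : Type) (_ : NormedField E) (_ : IsUltrametricDist E) (_ : CompleteSpace E)
      (ι : F →+* E), (∀ x, ‖ι x‖ = ‖x‖) ∧ DenseRange ι := by
  have hu : IsUltrametricDist (UniformSpace.Completion F) := by
    apply IsUltrametricDist.isUltrametricDist_of_forall_norm_add_le_max_norm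
    intro x y
    induction x, y using UniformSpace.Completion.induction_on₂ with
    | hp =>
      exact isClosed_le (continuous_norm.comp (continuous_fst.add continuous_snd))
        ((continuous_norm.comp continuous_fst).max (continuous_norm.comp continuous_snd))
    | ih a b =>
      rw [← UniformSpace.Completion.coe_add, UniformSpace.Completion.norm_coe,
        UniformSpace.Completion.norm_coe, UniformSpace.Completion.norm_coe]
      exact IsUltrametricDist.norm_add_le_max a b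
  exact ⟨UniformSpace.Completion F, inferInstance, hu, inferInstance,
    UniformSpace.Completion.coeRingHom, fun x => UniformSpace.Completion.norm_coe x,
    UniformSpace.Completion.denseRange_coe⟩

theorem fld_algcl (E : Type) [NormedField E] [IsUltrametricDist E] [CompleteSpace E]
    (hE : ∃ c : E, 1 < ‖c‖) :
    ∃ (A : Type) (_ : NormedField A) (_ : IsUltrametricDist A) (_ : IsAlgClosed A)
      (ι : E →+* A), (∀ x, ‖ι x‖ = ‖x‖) ∧
      ∀ a : A, ‖a‖ ≤ 1 → ∃ p : Polynomial E, p.Monic ∧ (∀ i, ‖p.coeff i‖ ≤ 1) ∧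
        p.eval₂ ι a = 0 := by
  let _ : NontriviallyNormedField E := { (inferInstance : NormedField E) with non_trivial := hE }
  let _ : NormedField (AlgebraicClosure E) := spectralNorm.normedField E (AlgebraicClosure E)
  have hn : ∀ x : AlgebraicClosure E, ‖x‖ = spectralNorm E (AlgebraicClosure E) x := fun _ => rfl
  have hu : IsUltrametricDist (AlgebraicClosure E) :=
    IsUltrametricDist.isUltrametricDist_of_forall_norm_add_le_max_norm
      (isNonarchimedean_spectralNorm (K := E) (L := AlgebraicClosure E))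
  refine ⟨AlgebraicClosure E, inferInstance, hu, inferInstance,
    algebraMap E (AlgebraicClosure E), fun x => ?_, fun a ha => ?_⟩
  · rw [hn]
    exact spectralNorm_extends x
  · have hi : IsIntegral E a := Algebra.IsIntegral.isIntegral a
    refine ⟨minpoly E a, minpoly.monic hi, ?_, ?_⟩
    · rw [hn] at ha
      exact (spectralValue_le_one_iff (minpoly.monic hi)).1 ha
    · exact minpoly.aeval E a

/-- a polynomial in an element whose powers have norms outside the value group of the constants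
is dominated by one of its terms -/
theorem fld_dom {K F : Type} [NormedField K] [NormedField F] [IsUltrametricDist F]
    (ι : K →+* F) (t : F) (hι : ∀ c, ‖ι c‖ = ‖c‖) {r : ℝ} (hr : 0 < r) (ht : ‖t‖ = r)
    (hr' : ∀ (c : K) (m : ℤ), r ^ m = ‖c‖ → m = 0) (p : Polynomial K) (hp0 : p ≠ 0) :
    ∃ i, p.coeff i ≠ 0 ∧ ‖p.eval₂ ι t - ι (p.coeff i) * t ^ i‖ < ‖ι (p.coeff i) * t ^ i‖ := by
  classical
  obtain ⟨i, hi, hmax⟩ := Finset.exists_max_image p.support (fun j => ‖p.coeff j‖ * r ^ j)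
    (support_nonempty.2 hp0)
  have hi0 : p.coeff i ≠ 0 := mem_support_iff.1 hi
  have hnt : ∀ j, ‖ι (p.coeff j) * t ^ j‖ = ‖p.coeff j‖ * r ^ j := by
    intro j
    rw [norm_mul, norm_pow, hι, ht]
  refine ⟨i, hi0, ?_⟩
  have hpos : 0 < ‖ι (p.coeff i) * t ^ i‖ := by
    rw [hnt]
    exact mul_pos (norm_pos_iff.2 hi0) (pow_pos hr i)
  have e : p.eval₂ ι t - ι (p.coeff i) * t ^ i =
      ∑ j ∈ p.support.erase i, ι (p.coeff j) * t ^ j := by
    rw [eval₂_eq_sum, sum_def, ← Finset.add_sum_erase _ _ hi]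
    ring
  rw [e]
  have hlt : ∀ j ∈ p.support.erase i, ‖ι (p.coeff j) * t ^ j‖ < ‖ι (p.coeff i) * t ^ i‖ := by
    intro j hj
    obtain ⟨hji, hj2⟩ := Finset.mem_erase.1 hj
    refine lt_of_le_of_ne ?_ ?_
    · rw [hnt, hnt]
      exact hmax j hj2
    · rw [hnt, hnt]
      intro h
      apply hji
      have hj0 : p.coeff j ≠ 0 := mem_support_iff.1 hj2
      have h1 : r ^ ((j : ℤ) - (i : ℤ)) = ‖p.coeff i / p.coeff j‖ := by
        rw [zpow_sub₀ hr.ne', zpow_natCast, zpow_natCast, norm_div,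
          div_eq_div_iff (pow_pos hr i).ne' (norm_pos_iff.2 hj0).ne']
        linarith
      have h2 := hr' _ _ h1
      omega
  rcases (p.support.erase i).eq_empty_or_nonempty with h | h
  · rw [h, Finset.sum_empty, norm_zero]
    exact hpos
  · obtain ⟨j, hj, hj2⟩ := IsUltrametricDist.exists_norm_finsetSum_le_of_nonempty h
      (fun j => ι (p.coeff j) * t ^ j)
    exact hj2.trans_lt (hlt j hj)

/-- the norm of a polynomial in such an element -/
theorem fld_norm {K F : Type} [NormedField K] [NormedField F] [IsUltrametricDist F]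
    (ι : K →+* F) (t : F) (hι : ∀ c, ‖ι c‖ = ‖c‖) {r : ℝ} (hr : 0 < r) (ht : ‖t‖ = r)
    (hr' : ∀ (c : K) (m : ℤ), r ^ m = ‖c‖ → m = 0) (p : Polynomial K) (hp0 : p ≠ 0) :
    ∃ i, p.coeff i ≠ 0 ∧ ‖p.eval₂ ι t‖ = ‖p.coeff i‖ * r ^ i := by
  obtain ⟨i, hi, hi2⟩ := fld_dom ι t hι hr ht hr' p hp0
  refine ⟨i, hi, ?_⟩
  have e : p.eval₂ ι t = (p.eval₂ ι t - ι (p.coeff i) * t ^ i) + ι (p.coeff i) * t ^ i := by ring
  rw [e, IsUltrametricDist.norm_add_eq_max_of_norm_ne_norm hi2.ne, max_eq_right hi2.le, norm_mul,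
    norm_pow, hι, ht]

/-- the residue field does not grow: rational functions -/
theorem fld_res1 {K F : Type} [NormedField K] [NormedField F] [IsUltrametricDist F]
    (ι : K →+* F) (t : F) (hι : ∀ c, ‖ι c‖ = ‖c‖) {r : ℝ} (hr : 0 < r) (ht : ‖t‖ = r)
    (hr' : ∀ (c : K) (m : ℤ), r ^ m = ‖c‖ → m = 0)
    (hrat : ∀ x : F, ∃ p q : Polynomial K, q.eval₂ ι t ≠ 0 ∧ x * q.eval₂ ι t = p.eval₂ ι t)
    (x : F) (hx : ‖x‖ ≤ 1) : ∃ c : K, ‖x - ι c‖ < 1 := by
  rcases lt_or_eq_of_le hx with hx1 | hx1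
  · exact ⟨0, by rw [map_zero, sub_zero]; exact hx1⟩
  obtain ⟨p, q, hq, hpq⟩ := hrat x
  have hx0 : x ≠ 0 := norm_pos_iff.1 (by rw [hx1]; exact one_pos)
  have hp : p ≠ 0 := by
    rintro rfl
    rw [eval₂_zero] at hpq
    exact mul_ne_zero hx0 hq hpq
  have hq0 : q ≠ 0 := by
    rintro rfl
    exact hq (eval₂_zero _ _)
  obtain ⟨i, hi, hi2⟩ := fld_dom ι t hι hr ht hr' p hp
  obtain ⟨j, hj, hj2⟩ := fld_dom ι t hι hr ht hr' q hq0
  obtain ⟨P, hP⟩ : ∃ P, P = p.eval₂ ι t := ⟨_, rfl⟩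
  obtain ⟨Q, hQ⟩ : ∃ Q, Q = q.eval₂ ι t := ⟨_, rfl⟩
  obtain ⟨a, ha⟩ : ∃ a, a = ι (p.coeff i) * t ^ i := ⟨_, rfl⟩
  obtain ⟨b, hb⟩ : ∃ b, b = ι (q.coeff j) * t ^ j := ⟨_, rfl⟩
  rw [← hP, ← ha] at hi2
  rw [← hQ, ← hb] at hj2
  rw [← hP, ← hQ] at hpq
  have hPa : ‖P‖ = ‖a‖ := by
    have h1 : P = (P - a) + a := by ring
    rw [h1, IsUltrametricDist.norm_add_eq_max_of_norm_ne_norm hi2.ne, max_eq_right hi2.le]
  have hQb : ‖Q‖ = ‖b‖ := by
    have h1 : Q = (Q - b) + b := by ring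
    rw [h1, IsUltrametricDist.norm_add_eq_max_of_norm_ne_norm hj2.ne, max_eq_right hj2.le]
  have hab : ‖a‖ = ‖b‖ := by
    rw [← hPa, ← hQb, ← hpq, norm_mul, hx1, one_mul]
  have hna : ‖a‖ = ‖p.coeff i‖ * r ^ i := by rw [ha, norm_mul, norm_pow, hι, ht]
  have hnb : ‖b‖ = ‖q.coeff j‖ * r ^ j := by rw [hb, norm_mul, norm_pow, hι, ht]
  have hij : i = j := by
    have h1 : r ^ ((i : ℤ) - (j : ℤ)) = ‖q.coeff j / p.coeff i‖ := by
      rw [zpow_sub₀ hr.ne', zpow_natCast, zpow_natCast, norm_div,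
        div_eq_div_iff (pow_pos hr j).ne' (norm_pos_iff.2 hi).ne']
      rw [hna, hnb] at hab
      linarith
    have h2 := hr' _ _ h1
    omega
  subst hij
  refine ⟨p.coeff i / q.coeff i, ?_⟩
  have ht0 : t ≠ 0 := norm_pos_iff.1 (by rw [ht]; exact hr)
  have hb0 : b ≠ 0 := by
    rw [hb]
    refine mul_ne_zero ?_ (pow_ne_zero _ ht0)
    rw [Ne, map_eq_zero]
    exact hj
  have hc : ι (p.coeff i / q.coeff i) = a / b := by
    have h1 : ι (q.coeff i) ≠ 0 := by
      rw [Ne, map_eq_zero]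
      exact hj
    have h2 : t ^ i ≠ 0 := pow_ne_zero _ ht0
    rw [map_div₀, ha, hb]
    field_simp
  have hbpos : 0 < ‖b‖ := norm_pos_iff.2 hb0
  have e : (x - a / b) * b = (P - a) - x * (Q - b) := by
    rw [← hpq]
    field_simp
    ring
  have h3 : ‖(x - a / b) * b‖ < 1 * ‖b‖ := by
    rw [e, one_mul, sub_eq_add_neg]
    refine (IsUltrametricDist.norm_add_le_max _ _).trans_lt (max_lt ?_ ?_)
    · rw [← hab]
      exact hi2
    · rw [norm_neg, norm_mul, hx1, one_mul]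
      exact hj2
  rw [hc]
  rw [norm_mul] at h3
  exact lt_of_mul_lt_mul_right h3 hbpos.le

/-- the residue field does not grow: dense extension -/
theorem fld_res2 {K F E : Type} [NormedField K] [NormedField F] [NormedField E]
    [IsUltrametricDist E] (ι : K →+* F) (j : F →+* E) (hj : ∀ x, ‖j x‖ = ‖x‖)
    (hd : DenseRange j) (h : ∀ x : F, ‖x‖ ≤ 1 → ∃ c : K, ‖x - ι c‖ < 1) (x : E) (hx : ‖x‖ ≤ 1) :
    ∃ c : K, ‖x - j (ι c)‖ < 1 := by
  obtain ⟨y, hy⟩ := hd.exists_dist_lt x one_pos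
  rw [dist_eq_norm] at hy
  have hy1 : ‖y‖ ≤ 1 := by
    rw [← hj y]
    have e : j y = x + -(x - j y) := by ring
    rw [e]
    refine (IsUltrametricDist.norm_add_le_max _ _).trans (max_le hx ?_)
    rw [norm_neg]
    exact hy.le
  obtain ⟨c, hc⟩ := h y hy1
  refine ⟨c, ?_⟩
  have e : x - j (ι c) = (x - j y) + j (y - ι c) := by
    rw [map_sub]
    ring
  rw [e]
  refine (IsUltrametricDist.norm_add_le_max _ _).trans_lt (max_lt hy ?_)
  rw [hj]
  exact hc

/-- the residue field does not grow: algebraic extension -/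
theorem fld_res3 {K E A : Type} [NormedField K] [IsAlgClosed K] [NormedField E] [NormedField A]
    [IsUltrametricDist A] (ι : K →+* E) (j : E →+* A) (hj : ∀ x, ‖j x‖ = ‖x‖)
    (h : ∀ x : E, ‖x‖ ≤ 1 → ∃ c : K, ‖x - ι c‖ < 1)
    (a : A) (ha : ‖a‖ ≤ 1) (ha2 : ∃ p : Polynomial E, p.Monic ∧ (∀ i, ‖p.coeff i‖ ≤ 1) ∧
      p.eval₂ j a = 0) : ∃ c : K, ‖a - j (ι c)‖ < 1 := by
  classical
  obtain ⟨p, hp, hpc, hpa⟩ := ha2
  choose c hc using fun i => h (p.coeff i) (hpc i)
  obtain ⟨d, hd⟩ : ∃ d, d = p.natDegree := ⟨_, rfl⟩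
  obtain ⟨q, hq⟩ : ∃ q : Polynomial K, q = X ^ d + ∑ i ∈ Finset.range d, C (c i) * X ^ i :=
    ⟨_, rfl⟩
  have hdeg : (∑ i ∈ Finset.range d, C (c i) * X ^ i : Polynomial K).degree < (d : WithBot ℕ) := by
    rw [degree_lt_iff_coeff_zero]
    intro m hm
    rw [finsetSum_coeff]
    refine Finset.sum_eq_zero fun i hi => ?_
    rw [coeff_C_mul_X_pow, if_neg]
    have := Finset.mem_range.1 hi
    omega
  have hqm : q.Monic := by
    rw [hq]
    exact monic_X_pow_add (by exact_mod_cast hdeg)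
  have hpe : a ^ d + ∑ i ∈ Finset.range d, j (p.coeff i) * a ^ i = 0 := by
    rw [← hpa, eval₂_eq_sum_range, Finset.sum_range_succ, ← hd, hd, hp.coeff_natDegree, map_one,
      one_mul, add_comm]
  have hqe : q.eval₂ (j.comp ι) a = a ^ d + ∑ i ∈ Finset.range d, j (ι (c i)) * a ^ i := by
    rw [hq, eval₂_add, eval₂_X_pow, eval₂_finsetSum]
    congr 1
    refine Finset.sum_congr rfl fun i _ => ?_
    rw [eval₂_mul, eval₂_C, eval₂_X_pow]
    rfl
  have hsmall : ‖q.eval₂ (j.comp ι) a‖ < 1 := by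
    have e : q.eval₂ (j.comp ι) a = -∑ i ∈ Finset.range d, j (p.coeff i - ι (c i)) * a ^ i := by
      rw [hqe]
      have e2 : ∑ i ∈ Finset.range d, j (p.coeff i - ι (c i)) * a ^ i =
          ∑ i ∈ Finset.range d, j (p.coeff i) * a ^ i -
            ∑ i ∈ Finset.range d, j (ι (c i)) * a ^ i := by
        rw [← Finset.sum_sub_distrib]
        refine Finset.sum_congr rfl fun i _ => ?_
        rw [map_sub, sub_mul]
      rw [e2]
      linear_combination hpe
    rw [e, norm_neg]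
    rcases (Finset.range d).eq_empty_or_nonempty with h0 | h0
    · rw [h0, Finset.sum_empty, norm_zero]
      exact one_pos
    · obtain ⟨i, -, hi⟩ := IsUltrametricDist.exists_norm_finsetSum_le_of_nonempty h0
        (fun i => j (p.coeff i - ι (c i)) * a ^ i)
      refine hi.trans_lt ?_
      rw [norm_mul, norm_pow, hj]
      exact (mul_le_of_le_one_right (norm_nonneg _) (pow_le_one₀ (norm_nonneg _) ha)).trans_lt
        (hc i)
  have hsplit : q = (q.roots.map fun b => X - C b).prod := by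
    have h1 := (IsAlgClosed.splits q).eq_prod_roots
    rw [hqm.leadingCoeff, C_1, one_mul] at h1
    exact h1
  have hprod : q.eval₂ (j.comp ι) a = (q.roots.map fun b => a - j (ι b)).prod := by
    conv_lhs => rw [hsplit]
    rw [eval₂_multiset_prod, Multiset.map_map]
    congr 1
    refine Multiset.map_congr rfl fun b _ => ?_
    rw [Function.comp_apply, eval₂_sub, eval₂_X, eval₂_C]
    rfl
  by_contra hcon
  push Not at hcon
  have hge : ∀ s : Multiset K, 1 ≤ ‖(s.map fun b => a - j (ι b)).prod‖ := by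
    intro s
    induction s using Multiset.induction_on with
    | empty => simp
    | cons b s ih =>
      rw [Multiset.map_cons, Multiset.prod_cons, norm_mul]
      exact one_le_mul_of_one_le_of_one_le (hcon b) ih
  rw [hprod] at hsmall
  exact absurd (hge q.roots) (not_le.2 hsmall)

/-- **The big field**: a complete algebraically closed ultrametric extension of `K` with an
element of norm `r` and with the same residue field. -/
theorem fld_big (K : Type) [NormedField K] [IsUltrametricDist K] [IsAlgClosed K] [CharZero K]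
    (hK : ∃ c : K, 1 < ‖c‖) (r : ℝ) (hr : 0 < r)
    (hr' : ∀ (c : K) (m : ℤ), r ^ m = ‖c‖ → m = 0) :
    ∃ (L : Type) (_ : NormedField L) (_ : IsUltrametricDist L) (_ : CompleteSpace L)
      (_ : IsAlgClosed L) (ι : K →+* L) (t : L), (∀ c, ‖ι c‖ = ‖c‖) ∧ ‖t‖ = r ∧
      ∀ u : L, ‖u‖ ≤ 1 → ∃ c : K, ‖u - ι c‖ < 1 := by
  obtain ⟨F, hF1, hF2, i1, t, hi1, ht, hrat⟩ := fld_frac K r hr
  have hres1 := fld_res1 i1 t hi1 hr ht hr' hrat
  obtain ⟨E, hE1, hE2, hE3, i2, hi2, hd2⟩ := fld_compl F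
  have hres2 := fld_res2 i1 i2 hi2 hd2 hres1
  have hE : ∃ c : E, 1 < ‖c‖ := by
    obtain ⟨c, hc⟩ := hK
    exact ⟨i2 (i1 c), by rw [hi2, hi1]; exact hc⟩
  obtain ⟨A, hA1, hA2, hA3, i3, hi3, halg⟩ := fld_algcl E hE
  have hres3 : ∀ a : A, ‖a‖ ≤ 1 → ∃ c : K, ‖a - i3 ((i2.comp i1) c)‖ < 1 := fun a ha =>
    fld_res3 (i2.comp i1) i3 hi3 hres2 a ha (halg a ha)
  obtain ⟨L, hL1, hL2, hL3, i4, hi4, hd4⟩ := fld_compl A
  have hres4 := fld_res2 (i3.comp (i2.comp i1)) i4 hi4 hd4 hres3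
  have hch : CharZero L := (RingHom.charZero_iff
    (ϕ := i4.comp (i3.comp (i2.comp i1))) (RingHom.injective _)).1 inferInstance
  have hLc : IsAlgClosed L := by
    let _ : NontriviallyNormedField L :=
      { hL1 with
        non_trivial := by
          obtain ⟨c, hc⟩ := hE
          exact ⟨i4 (i3 c), by rw [hi4, hi3]; exact hc⟩ }
    let _ : Algebra A L := i4.toAlgebra
    exact IsAlgClosed.of_denseRange (K := A) (L := L) hd4
  refine ⟨L, hL1, hL2, hL3, hLc, i4.comp (i3.comp (i2.comp i1)), i4 (i3 (i2 t)), ?_, ?_, hres4⟩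
  · intro c
    show ‖i4 (i3 (i2 (i1 c)))‖ = ‖c‖
    rw [hi4, hi3, hi2, hi1]
  · rw [hi4, hi3, hi2, ht]

end Pool.Agent.TRA
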