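import Pool.Agent.Lib.MP_e9abfe_ag_TRA.OrbA

/-!
# The types of a point for a suitable place above `2`
-/

set_option autoImplicit false

namespace Pool.Agent.TRA

open MvPolynomial
open Pool.Agent.DMC
open Pool.Agent.GSF
open Pool.Agent.MP_e9abfe (Phi progressions)

variable {L : Type} [NormedField L]

/-- independence of the norms -/
theorem geo_ind {r p q : ℝ} {j : ℤ} (hr : 0 < r) (hr1 : r < 1) (hj : j ≠ 0) (hq : 0 < q)
    (hpq : p = r ^ j * q) (hm : ∀ a b : ℤ, b ≠ 0 → q ^ b ≠ r ^ a) (a b : ℤ)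
    (h : p ^ a = q ^ b) : a = 0 ∧ b = 0 := by
  rw [hpq, mul_zpow, ← zpow_mul] at h
  have h1 : q ^ (b - a) = r ^ (j * a) := by
    rw [zpow_sub₀ hq.ne', ← h]
    field_simp
  have h2 : b - a = 0 := by
    by_contra hb
    exact hm _ _ hb h1
  rw [h2, zpow_zero] at h1
  have h3 : j * a = 0 := by
    by_contra hne
    rcases lt_or_gt_of_ne hne with h4 | h4
    · have := one_lt_zpow_of_neg₀ hr hr1 h4
      linarith
    · have := zpow_lt_one₀ hr hr1 h4
      linarith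
  have h4 : a = 0 := by
    rcases mul_eq_zero.1 h3 with h | h
    · exact absurd h hj
    · exact h
  exact ⟨h4, by omega⟩

variable [IsUltrametricDist L] [CharZero L] [CompleteSpace L] [IsAlgClosed L]

theorem geo_main (h2 : ‖(2 : L)‖ < 1)
    (hfr : ∀ u : L, ‖u‖ = 1 → ∃ f : ℕ, 0 < f ∧ ‖u ^ (2 ^ f - 1) - 1‖ < 1) {β : Fin 3 → L}
    {e : L} {r M₀ : ℝ} {D : ℕ} (hr : 0 < r) (hr1 : r < 1) (he : ‖e‖ = r)
    (hroot : β 1 * e ^ 2 + (β 0 + β 2) * e - β 2 = 0) (hM : ∃ i, M₀ ≤ ‖β i‖)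
    (hrM : 1 < r ^ (D + 8) * M₀) (hM₀ : 1 < M₀)
    (hind : ∀ (k : Fin 3) (a b : ℤ), b ≠ 0 → ‖β k‖ ^ b = r ^ a → ‖β k‖ ≤ (r⁻¹) ^ D) :
    APs β := by
  obtain ⟨x, hx⟩ : ∃ x, x = β 0 := ⟨_, rfl⟩
  obtain ⟨y, hy⟩ : ∃ y, y = β 1 := ⟨_, rfl⟩
  obtain ⟨z, hz⟩ : ∃ z, z = β 2 := ⟨_, rfl⟩
  rw [← hx, ← hy, ← hz] at hroot
  -- the key identity
  have hkey : ‖z‖ = r * ‖x + e * y‖ := by
    have h1 : z * (1 - e) = e * (x + e * y) := by linear_combination -hroot
    have h3 : ‖(1 : L) - e‖ = 1 := by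
      rw [sub_eq_add_neg, orb_add (by rw [norm_neg, norm_one, he]; exact hr1), norm_one]
    have h4 := congrArg norm h1
    rw [norm_mul, h3, mul_one, norm_mul, he] at h4
    exact h4
  have hpow : ∀ k, k ≤ D + 8 → 1 < r ^ k * M₀ := by
    intro k hk
    refine hrM.trans_le (mul_le_mul_of_nonneg_right ?_ (by linarith))
    exact pow_le_pow_of_le_one hr.le hr1.le hk
  have hx0 := norm_nonneg x
  have hy0 := norm_nonneg y
  have hz0 := norm_nonneg z
  have hey : ‖e * y‖ = r * ‖y‖ := by rw [norm_mul, he]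
  have hzle : ‖z‖ ≤ r * max ‖x‖ (r * ‖y‖) := by
    rw [hkey]
    refine mul_le_mul_of_nonneg_left ?_ hr.le
    refine (IsUltrametricDist.norm_add_le_max _ _).trans ?_
    rw [hey]
  -- the maximum
  obtain ⟨M, hMdef⟩ : ∃ M, M = max ‖x‖ ‖y‖ := ⟨_, rfl⟩
  have hxM : ‖x‖ ≤ M := by rw [hMdef]; exact le_max_left _ _
  have hyM : ‖y‖ ≤ M := by rw [hMdef]; exact le_max_right _ _
  have hM0 : 0 ≤ M := hx0.trans hxM
  have hzM' : ‖z‖ ≤ r * M := by
    refine hzle.trans (mul_le_mul_of_nonneg_left (max_le hxM ?_) hr.le)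
    nlinarith
  have hMM : M₀ ≤ M := by
    obtain ⟨i, hi⟩ := hM
    fin_cases i
    · have hi' : M₀ ≤ ‖β 0‖ := hi
      rw [← hx] at hi'
      exact hi'.trans hxM
    · have hi' : M₀ ≤ ‖β 1‖ := hi
      rw [← hy] at hi'
      exact hi'.trans hyM
    · have hi' : M₀ ≤ ‖β 2‖ := hi
      rw [← hz] at hi'
      nlinarith
  have hM1 : 1 < M := hM₀.trans_le hMM
  have hk : ∀ k, k ≤ D + 8 → 1 < r ^ k * M := fun k hk =>
    (hpow k hk).trans_le (mul_le_mul_of_nonneg_left hMM (by positivity))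
  have hk1 := hk 1 (by omega)
  have hk2 := hk 2 (by omega)
  have hk3 := hk 3 (by omega)
  have hk8 := hk 8 (by omega)
  rw [pow_one] at hk1
  have hzlt : ‖z‖ < M := hzM'.trans_lt (by nlinarith)
  -- independence
  have hq : ∀ k : Fin 3, r ^ 2 * M ≤ ‖β k‖ → ∀ a b : ℤ, b ≠ 0 → ‖β k‖ ^ b ≠ r ^ a := by
    intro k hk' a b hb hab
    have h3 := hind k a b hb hab
    have h4 := hk (D + 2) (by omega)
    have h5 : r ^ (D + 2) * M ≤ 1 := by
      have h6 : r ^ D * (r ^ 2 * M) ≤ r ^ D * (r⁻¹) ^ D :=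
        mul_le_mul_of_nonneg_left (hk'.trans h3) (by positivity)
      rw [← mul_pow, mul_inv_cancel₀ hr.ne', one_pow] at h6
      calc r ^ (D + 2) * M = r ^ D * (r ^ 2 * M) := by ring
        _ ≤ 1 := h6
    linarith
  have hrr : r ^ 2 * M ≤ r * M := by nlinarith
  have hrr' : r ^ 2 * M ≤ M := by nlinarith
  -- the free case
  have hF : ‖y‖ < ‖x‖ ^ 2 → ‖z‖ < ‖y‖ ^ 2 → ‖x‖ < ‖z‖ ^ 2 → APs β := by
    intro a1 a2 a3
    refine orbit_free h2 hfr fun i => ?_
    fin_cases i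
    · show ‖β 1‖ < ‖β 0‖ ^ 2
      rw [← hx, ← hy]
      exact a1
    · show ‖β 2‖ < ‖β 1‖ ^ 2
      rw [← hz, ← hy]
      exact a2
    · show ‖β 0‖ < ‖β 2‖ ^ 2
      rw [← hx, ← hz]
      exact a3
  rcases lt_trichotomy ‖x‖ (r * ‖y‖) with hxy | hxy | hxy
  · -- the second coordinate dominates
    have hMy : M = ‖y‖ := by
      rw [hMdef]
      refine max_eq_right ?_
      nlinarith
    have hzn : ‖z‖ = r ^ 2 * ‖y‖ := by
      rw [hkey, add_comm, orb_add (by rw [hey]; exact hxy), hey]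
      ring
    rw [← hMy] at hxy hzn
    have hz3 : ‖x‖ < ‖z‖ ^ 2 := by
      rw [hzn]
      have : r * M ≤ (r ^ 2 * M) ^ 2 := by
        have e1 : (r ^ 2 * M) ^ 2 = (r * M) * (r ^ 3 * M) := by ring
        rw [e1]
        have : 0 < r * M := by positivity
        nlinarith
      linarith
    by_cases hc : ‖y‖ < ‖x‖ ^ 2
    · refine hF hc ?_ hz3
      rw [← hMy]
      nlinarith
    · rw [not_lt] at hc
      refine orbit_semi h2 hfr 1 ?_ ?_ ?_ ?_ ?_ ?_
      · rw [← hy, ← hMy]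
        exact hM1
      · show 1 < ‖β 2‖
        rw [← hz, hzn]
        exact hk2
      · show ‖β 0‖ ^ 2 ≤ ‖β 1‖
        rw [← hx, ← hy]
        exact hc
      · show ‖β 2‖ < ‖β 1‖ ^ 2
        rw [← hz, ← hy, ← hMy]
        nlinarith
      · show ‖β 1‖ < ‖β 2‖ ^ 4
        rw [← hy, ← hz, hzn, ← hMy]
        have e1 : (r ^ 2 * M) ^ 4 = (r ^ 8 * M) * M ^ 3 := by ring
        rw [e1]
        have h5 : M ≤ M ^ 3 := le_self_pow₀ hM1.le (by norm_num)
        have h6 : 0 < M ^ 3 := by positivity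
        nlinarith
      · show ∀ a b : ℤ, ‖β 1‖ ^ a = ‖β 2‖ ^ b → a = 0 ∧ b = 0
        have h5 : ‖β 1‖ = r ^ (-2 : ℤ) * ‖β 2‖ := by
          rw [← hy, ← hz, hzn, ← hMy, zpow_neg]
          have e1 : r ^ (2 : ℤ) = r ^ 2 := by norm_cast
          rw [e1]
          field_simp
        refine geo_ind hr hr1 (by norm_num) ?_ h5 (hq 2 ?_)
        · rw [← hz, hzn]
          positivity
        · rw [← hz, hzn]
  · -- the tie
    have hMy : M = ‖y‖ := by
      rw [hMdef]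
      refine max_eq_right ?_
      nlinarith
    rw [← hMy] at hxy
    have h1 : ‖y‖ < ‖x‖ ^ 2 := by
      rw [← hMy, hxy]
      nlinarith
    by_cases hc : ‖x‖ < ‖z‖ ^ 2
    · refine hF h1 ?_ hc
      rw [← hMy]
      nlinarith
    · rw [not_lt] at hc
      refine orbit_semi h2 hfr 0 ?_ ?_ ?_ ?_ ?_ ?_
      · rw [← hx, hxy]
        exact hk1
      · show 1 < ‖β 1‖
        rw [← hy, ← hMy]
        exact hM1
      · show ‖β 2‖ ^ 2 ≤ ‖β 0‖
        rw [← hx, ← hz]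
        exact hc
      · show ‖β 1‖ < ‖β 0‖ ^ 2
        rw [← hx, ← hy]
        exact h1
      · show ‖β 0‖ < ‖β 1‖ ^ 4
        rw [← hx, ← hy, hxy, ← hMy]
        have h5 : M ≤ M ^ 4 := le_self_pow₀ hM1.le (by norm_num)
        nlinarith
      · show ∀ a b : ℤ, ‖β 0‖ ^ a = ‖β 1‖ ^ b → a = 0 ∧ b = 0
        have h5 : ‖β 0‖ = r ^ (1 : ℤ) * ‖β 1‖ := by
          rw [← hx, ← hy, hxy, ← hMy, zpow_one]
        refine geo_ind hr hr1 (by norm_num) ?_ h5 (hq 1 ?_)
        · rw [← hy, ← hMy]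
          linarith
        · rw [← hy, ← hMy]
          exact hrr'
  · -- the first coordinate is large
    have hzn : ‖z‖ = r * ‖x‖ := by
      rw [hkey, orb_add (by rw [hey]; exact hxy)]
    rcases le_or_gt ‖y‖ ‖x‖ with hyx | hyx
    · have hMx : M = ‖x‖ := by
        rw [hMdef]
        exact max_eq_left hyx
      rw [← hMx] at hzn hyx
      have h1 : ‖x‖ < ‖z‖ ^ 2 := by
        rw [hzn, ← hMx]
        nlinarith
      by_cases hc : ‖z‖ < ‖y‖ ^ 2
      · refine hF ?_ hc h1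
        rw [← hMx]
        nlinarith
      · rw [not_lt] at hc
        refine orbit_semi h2 hfr 2 ?_ ?_ ?_ ?_ ?_ ?_
        · rw [← hz, hzn]
          exact hk1
        · show 1 < ‖β 0‖
          rw [← hx, ← hMx]
          exact hM1
        · show ‖β 1‖ ^ 2 ≤ ‖β 2‖
          rw [← hy, ← hz]
          exact hc
        · show ‖β 0‖ < ‖β 2‖ ^ 2
          rw [← hx, ← hz]
          exact h1
        · show ‖β 2‖ < ‖β 0‖ ^ 4
          rw [← hx, ← hz, hzn, ← hMx]
          have h5 : M ≤ M ^ 4 := le_self_pow₀ hM1.le (by norm_num)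
          nlinarith
        · show ∀ a b : ℤ, ‖β 2‖ ^ a = ‖β 0‖ ^ b → a = 0 ∧ b = 0
          have h5 : ‖β 2‖ = r ^ (1 : ℤ) * ‖β 0‖ := by
            rw [← hx, ← hz, hzn, ← hMx, zpow_one]
          refine geo_ind hr hr1 (by norm_num) ?_ h5 (hq 0 ?_)
          · rw [← hx, ← hMx]
            linarith
          · rw [← hx, ← hMx]
            exact hrr'
    · have hMy : M = ‖y‖ := by
        rw [hMdef]
        exact max_eq_right hyx.le
      rw [← hMy] at hxy hyx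
      refine hF ?_ ?_ ?_
      · rw [← hMy]
        have h5 : (r * M) ^ 2 < ‖x‖ ^ 2 := pow_lt_pow_left₀ hxy (by positivity) (by norm_num)
        have h6 : M < (r * M) ^ 2 := by nlinarith
        exact h6.trans h5
      · rw [← hMy]
        nlinarith
      · rw [hzn]
        have h5 : 1 < r ^ 2 * ‖x‖ := by nlinarith
        have h6 : 0 < ‖x‖ := by nlinarith
        nlinarith

end Pool.Agent.TRA
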