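import Pool.Agent.Lib.MP_e9abfe_ag_TRA.SemE
import Pool.Agent.Lib.MP_e9abfe_ag_GSF.Orbit

/-!
# Orbits of type `Free` and `Semi`
-/

set_option autoImplicit false

namespace Pool.Agent.TRA

open MvPolynomial
open Pool.Agent.DMC
open Pool.Agent.GSF
open Pool.Agent.MP_e9abfe (Phi progressions)

variable {L : Type} [NormedField L]

/-- the return sets of `β` are finite unions of progressions -/
def APs (β : Fin 3 → L) : Prop := ∀ T : Set (MvPolynomial (Fin 3) L), ∃ F : Finset (ℕ × ℕ),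
  {n : ℕ | ∀ g ∈ T, eval (Phi^[n] β) g = 0} = {m | ∃ q ∈ F, ∃ j : ℕ, m = q.1 + q.2 * j}

theorem orb_eval (β : Fin 3 → L) (i : Fin 3) (n : ℕ) (g : MvPolynomial (Fin 3) L) :
    eval ![Phi^[n] β i, Phi^[n] β (i + 1), Phi^[n] β (i + 2)] (rename (fun j => j - i) g) =
      eval (Phi^[n] β) g := by
  have hvec : (![Phi^[n] β i, Phi^[n] β (i + 1), Phi^[n] β (i + 2)] : Fin 3 → L) ∘
      (fun j => j - i) = Phi^[n] β := by
    funext j
    have h3 : ∀ i j : Fin 3, (![Phi^[n] β i, Phi^[n] β (i + 1), Phi^[n] β (i + 2)] : Fin 3 → L)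
        (j - i) = Phi^[n] β j := by
      intro i j
      fin_cases i <;> fin_cases j <;> rfl
    exact h3 i j
  rw [eval_rename, hvec]

theorem orb_succ (β : Fin 3 → L) (i : Fin 3) (n : ℕ) :
    Phi^[n + 1] β i = Phi^[n] β i ^ 2 + Phi^[n] β (i + 1) ∧
    Phi^[n + 1] β (i + 1) = Phi^[n] β (i + 1) ^ 2 + Phi^[n] β (i + 2) ∧
    Phi^[n + 1] β (i + 2) = Phi^[n] β (i + 2) ^ 2 + Phi^[n] β i := by
  have e1 : i + 1 + 1 = i + 2 := by fin_cases i <;> rfl
  have e2 : i + 2 + 1 = i := by fin_cases i <;> rfl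
  rw [Function.iterate_succ_apply', Fin_Phi_apply, Fin_Phi_apply, Fin_Phi_apply, e1, e2]
  exact ⟨rfl, rfl, rfl⟩

theorem orbit_gen [IsUltrametricDist L] [CharZero L] {β : Fin 3 → L} {i : Fin 3} {N n₁ : ℕ}
    (hN : 0 < N)
    (hD : ∀ (P : MvPolynomial (Fin 3) L) (r : ℕ),
      Dich N r fun n => eval ![Phi^[n] β i, Phi^[n] β (i + 1), Phi^[n] β (i + 2)] P)
    (hJ : ∀ n, n₁ ≤ n →
      1 ≤ ‖1 + 8 * (Phi^[n] β i * Phi^[n] β (i + 1) * Phi^[n] β (i + 2))‖) : APs β := by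
  classical
  intro T
  obtain ⟨R, hR⟩ : ∃ R : ℝ, R = 1 + ∑ j, ‖β j‖ := ⟨_, rfl⟩
  have hR1 : 1 ≤ R := by
    rw [hR]
    have : 0 ≤ ∑ j, ‖β j‖ := Finset.sum_nonneg fun _ _ => norm_nonneg _
    linarith
  have hgrow : ∀ n j, ‖Phi^[n] β j‖ ≤ R ^ 2 ^ n := by
    intro n
    induction n with
    | zero =>
      intro j
      rw [pow_zero, pow_one, Function.iterate_zero, id_eq, hR]
      have h1 := Finset.single_le_sum (f := fun j => ‖β j‖) (fun _ _ => norm_nonneg _)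
        (Finset.mem_univ j)
      linarith
    | succ n ih =>
      intro j
      rw [Function.iterate_succ_apply', Fin_Phi_apply]
      refine (IsUltrametricDist.norm_add_le_max _ _).trans (max_le ?_ ?_)
      · rw [norm_pow, pow_succ 2 n, pow_mul]
        exact pow_le_pow_left₀ (norm_nonneg _) (ih j) 2
      · refine (ih _).trans ?_
        exact pow_le_pow_right₀ hR1 (Nat.pow_le_pow_right (by norm_num) (Nat.le_succ n))
  obtain ⟨n₀, hn₀⟩ := flat_zero
    (v := fun n => ![Phi^[n] β i, Phi^[n] β (i + 1), Phi^[n] β (i + 2)]) hN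
    (fun n => by
      funext j
      obtain ⟨h1, h2, h3⟩ := orb_succ β i n
      fin_cases j
      · exact h1
      · exact h2
      · exact h3)
    hR1
    (fun n j => by
      fin_cases j
      · exact hgrow n i
      · exact hgrow n (i + 1)
      · exact hgrow n (i + 2))
    hD (n₁ := n₁) (fun n hn => hJ n hn)
  refine progressions _ n₀ N hN fun n hn => ?_
  by_cases hinf : {t | n + N * t ∈ {n : ℕ | ∀ g ∈ T, eval (Phi^[n] β) g = 0}}.Finite
  · exact Or.inl hinf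
  · right
    intro t g hg
    have h3 := hn₀ (rename (fun j => j - i) g) (n % N) (by
      intro hf3
      apply hinf
      refine Set.Finite.of_finite_image (f := fun t => n + N * t) (hf3.subset ?_) ?_
      · rintro k ⟨t, ht, rfl⟩
        refine ⟨by rw [Nat.add_mul_mod_self_left], ?_⟩
        show eval ![Phi^[n + N * t] β i, Phi^[n + N * t] β (i + 1), Phi^[n + N * t] β (i + 2)]
          (rename (fun j => j - i) g) = 0
        rw [orb_eval]
        exact ht g hg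
      · intro a _ b _ hab
        have h4 : n + N * a = n + N * b := hab
        have h5 : N * a = N * b := by omega
        exact Nat.eq_of_mul_eq_mul_left hN h5) (n + N * t) (by omega)
      (by rw [Nat.add_mul_mod_self_left])
    have h4 : eval ![Phi^[n + N * t] β i, Phi^[n + N * t] β (i + 1), Phi^[n + N * t] β (i + 2)]
        (rename (fun j => j - i) g) = 0 := h3
    rw [orb_eval] at h4
    exact h4

section

variable [IsUltrametricDist L] [CharZero L] [CompleteSpace L] [IsAlgClosed L]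

/-- `Semi` at the base index `i` -/
theorem orbit_semi (h2 : ‖(2 : L)‖ < 1)
    (hfr : ∀ u : L, ‖u‖ = 1 → ∃ f : ℕ, 0 < f ∧ ‖u ^ (2 ^ f - 1) - 1‖ < 1) {β : Fin 3 → L}
    (i : Fin 3) (h1 : 1 < ‖β i‖) (h3 : 1 < ‖β (i + 1)‖) (hw : ‖β (i + 2)‖ ^ 2 ≤ ‖β i‖)
    (hv : ‖β (i + 1)‖ < ‖β i‖ ^ 2) (hu : ‖β i‖ < ‖β (i + 1)‖ ^ 4)
    (hind : ∀ a b : ℤ, ‖β i‖ ^ a = ‖β (i + 1)‖ ^ b → a = 0 ∧ b = 0) : APs β := by
  have hs : Semi (fun n => Phi^[n] β i) (fun n => Phi^[n] β (i + 1))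
      (fun n => Phi^[n] β (i + 2)) :=
    { u_succ := fun n => (orb_succ β i n).1
      v_succ := fun n => (orb_succ β i n).2.1
      w_succ := fun n => (orb_succ β i n).2.2
      u_one := h1
      v_one := h3
      hw := hw
      hv := hv
      hu := hu
      indep := hind }
  obtain ⟨M, hM, hD, n₁, hJ⟩ := semi_dich h2 hfr hs
  exact orbit_gen hM hD hJ

omit [CharZero L] [CompleteSpace L] [IsAlgClosed L] in
theorem orb_add {a b : L} (h : ‖b‖ < ‖a‖) : ‖a + b‖ = ‖a‖ := by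
  rw [IsUltrametricDist.norm_add_eq_max_of_norm_ne_norm h.ne', max_eq_left h.le]

/-- `Free` orbits -/
theorem orbit_free (h2 : ‖(2 : L)‖ < 1)
    (hfr : ∀ u : L, ‖u‖ = 1 → ∃ f : ℕ, 0 < f ∧ ‖u ^ (2 ^ f - 1) - 1‖ < 1) {β : Fin 3 → L}
    (hβ : ∀ i, ‖β (i + 1)‖ < ‖β i‖ ^ 2) : APs β := by
  -- all norms are larger than one
  obtain ⟨i₀, hi₀⟩ := Finite.exists_max fun i => ‖β i‖
  have hpos : ∀ i, 0 < ‖β i‖ := fun i => by
    rcases (norm_nonneg (β i)).eq_or_lt with h | h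
    · have := hβ i
      rw [← h] at this
      have := norm_nonneg (β (i + 1))
      nlinarith
    · exact h
  have hi₀1 : 1 < ‖β i₀‖ := by
    have a1 := hβ (i₀ + 2)
    have e2 : i₀ + 2 + 1 = i₀ := by fin_cases i₀ <;> rfl
    rw [e2] at a1
    have a2 := hi₀ (i₀ + 2)
    have a3 := hpos i₀
    have a4 := hpos (i₀ + 2)
    by_contra hcon
    push Not at hcon
    nlinarith
  have hstep : ∀ i, 1 < ‖β (i + 1)‖ → 1 < ‖β i‖ := by
    intro i hi
    have a1 := hβ i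
    by_contra hcon
    push Not at hcon
    have := norm_nonneg (β i)
    nlinarith
  have hall : ∀ i, 1 < ‖β i‖ := by
    have e2 : i₀ + 2 + 1 = i₀ := by fin_cases i₀ <;> rfl
    have e1 : i₀ + 1 + 1 = i₀ + 2 := by fin_cases i₀ <;> rfl
    have b2 : 1 < ‖β (i₀ + 2)‖ := hstep _ (by rw [e2]; exact hi₀1)
    have b1 : 1 < ‖β (i₀ + 1)‖ := hstep _ (by rw [e1]; exact b2)
    intro i
    have hcase : ∀ i₀ i : Fin 3, i = i₀ ∨ i = i₀ + 1 ∨ i = i₀ + 2 := by decide
    rcases hcase i₀ i with h | h | h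
    · rw [h]; exact hi₀1
    · rw [h]; exact b1
    · rw [h]; exact b2
  have hsize : ∀ n i, ‖Phi^[n] β i‖ = ‖β i‖ ^ 2 ^ n := by
    intro n
    induction n with
    | zero => intro i; simp
    | succ n ih =>
      intro i
      rw [Function.iterate_succ_apply', Fin_Phi_apply, orb_add, norm_pow, ih, ← pow_mul,
        pow_succ 2 n]
      rw [norm_pow, ih, ih, ← pow_mul, mul_comm (2 ^ n) 2, pow_mul]
      exact pow_lt_pow_left₀ (hβ i) (norm_nonneg _) (by positivity)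
  have hfree : Free (fun n => Phi^[n] β 0) (fun n => Phi^[n] β (0 + 1))
      (fun n => Phi^[n] β (0 + 2)) :=
    { x_succ := fun n => (orb_succ β 0 n).1
      y_succ := fun n => (orb_succ β 0 n).2.1
      z_succ := fun n => (orb_succ β 0 n).2.2
      one_lt := hall 0
      hx := hβ 0
      hy := hβ 1
      hz := hβ 2 }
  obtain ⟨M, hM, hD⟩ := free_dich h2 hfr hfree
  have h8 : (0 : ℝ) < ‖(8 : L)‖ := norm_pos_iff.2 (by norm_num)
  have htend : Filter.Tendsto (fun n : ℕ => ‖β 0‖ ^ 2 ^ n) Filter.atTop Filter.atTop :=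
    (tendsto_pow_atTop_atTop_of_one_lt (hall 0)).comp
      (tendsto_pow_atTop_atTop_of_one_lt (by norm_num : (1 : ℕ) < 2))
  obtain ⟨n₁, hn₁⟩ := Filter.eventually_atTop.1
    (htend.eventually (Filter.eventually_gt_atTop (‖(8 : L)‖⁻¹)))
  refine orbit_gen (i := 0) (n₁ := n₁) hM hD fun n hn => ?_
  have h9 := hn₁ n hn
  rw [← hsize] at h9
  have k1 : 1 < ‖Phi^[n] β (0 + 1)‖ := by
    rw [hsize]
    exact one_lt_pow₀ (hall _) (by positivity)
  have k2 : 1 < ‖Phi^[n] β (0 + 2)‖ := by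
    rw [hsize]
    exact one_lt_pow₀ (hall _) (by positivity)
  have hbig : 1 < ‖8 * (Phi^[n] β 0 * Phi^[n] β (0 + 1) * Phi^[n] β (0 + 2))‖ := by
    rw [norm_mul, norm_mul, norm_mul]
    have h10 : 1 < ‖(8 : L)‖ * ‖Phi^[n] β 0‖ := by
      rw [inv_lt_iff_one_lt_mul₀ h8, mul_comm] at h9
      linarith
    have h11 : 1 < ‖Phi^[n] β (0 + 1)‖ * ‖Phi^[n] β (0 + 2)‖ := by nlinarith
    calc (1 : ℝ) = 1 * 1 := by ring
      _ < (‖(8 : L)‖ * ‖Phi^[n] β 0‖) * (‖Phi^[n] β (0 + 1)‖ * ‖Phi^[n] β (0 + 2)‖) :=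
          mul_lt_mul'' h10 h11 zero_le_one zero_le_one
      _ = _ := by ring
  rw [IsUltrametricDist.norm_add_eq_max_of_norm_ne_norm (by rw [norm_one]; exact hbig.ne)]
  exact le_max_of_le_left (by rw [norm_one])

end

end Pool.Agent.TRA
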