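import Pool.Agent.Lib.MP_e9abfe_ag_TRA.Defs
import Pool.Agent.Lib.MP_e9abfe_ag_DMC.Expa

/-!
# Expansions in one small and three bounded sequences
-/

set_option autoImplicit false

namespace Pool.Agent.TRA

open MvPolynomial
open Pool.Agent.DMC

variable {L : Type} [NormedField L]

/-- sequences with an expansion up to the order `j` in `u`, with coefficients which are
polynomials in `x`, periodic modulo `N` -/
def SApp (x : ℕ → Fin 3 → L) (u : ℕ → L) (N j : ℕ) (f : ℕ → L) : Prop :=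
  ∃ (F : ℕ → MvPolynomial (Fin 4) L) (C : ℝ), 0 ≤ C ∧ (∀ n, F (n + N) = F n) ∧
    ∀ n, ‖f n - eval (Fin.cons (u n) (x n) : Fin 4 → L) (F n)‖ ≤ C * ‖u n‖ ^ j

theorem SApp_poly {σ : Type} (P : MvPolynomial σ L) : ∃ B : ℝ, 0 ≤ B ∧
    ∀ y : σ → L, (∀ i, ‖y i‖ ≤ 1) → ‖eval y P‖ ≤ B := by
  induction P using MvPolynomial.induction_on with
  | C a => exact ⟨‖a‖, norm_nonneg _, fun y _ => by rw [eval_C]⟩
  | add p q hp hq =>
    obtain ⟨B₁, h₁, h₁b⟩ := hp
    obtain ⟨B₂, h₂, h₂b⟩ := hq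
    refine ⟨B₁ + B₂, add_nonneg h₁ h₂, fun y hy => ?_⟩
    rw [map_add]
    exact (norm_add_le _ _).trans (add_le_add (h₁b y hy) (h₂b y hy))
  | mul_X p i hp =>
    obtain ⟨B, hB, hb⟩ := hp
    refine ⟨B, hB, fun y hy => ?_⟩
    rw [map_mul, eval_X, norm_mul]
    exact (mul_le_of_le_one_right (norm_nonneg _) (hy i)).trans (hb y hy)

theorem SApp_unif {N : ℕ} (hN : 0 < N) {F : ℕ → MvPolynomial (Fin 4) L}
    (hF : ∀ n, F (n + N) = F n) : ∃ B : ℝ, 0 ≤ B ∧
    ∀ (n : ℕ) (y : Fin 4 → L), (∀ i, ‖y i‖ ≤ 1) → ‖eval y (F n)‖ ≤ B := by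
  choose B hB hb using SApp_poly (L := L) (σ := Fin 4)
  obtain ⟨D, hD, hd⟩ := Expa_per (f := fun n => B (F n)) hN fun n => by simp only [hF n]
  exact ⟨D, hD, fun n y hy => (hb _ y hy).trans (hd n)⟩

section app

variable {x : ℕ → Fin 3 → L} {u : ℕ → L} {N : ℕ}

theorem SApp_cons (hx : ∀ n i, ‖x n i‖ ≤ 1) (hu : ∀ n, ‖u n‖ ≤ 1) (n : ℕ) (i : Fin 4) :
    ‖(Fin.cons (u n) (x n) : Fin 4 → L) i‖ ≤ 1 := by
  refine Fin.cases ?_ (fun i => ?_) i
  · rw [Fin.cons_zero]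
    exact hu n
  · rw [Fin.cons_succ]
    exact hx n i

theorem SApp_bdd (hx : ∀ n i, ‖x n i‖ ≤ 1) (hu : ∀ n, ‖u n‖ ≤ 1) (hN : 0 < N) {j : ℕ}
    {f : ℕ → L} (hf : SApp x u N j f) : ∃ M : ℝ, 0 ≤ M ∧ ∀ n, ‖f n‖ ≤ M := by
  obtain ⟨F, C, hC, hF, h⟩ := hf
  obtain ⟨B, hB, hb⟩ := SApp_unif hN hF
  refine ⟨C + B, add_nonneg hC hB, fun n => ?_⟩
  have h1 : f n = (f n - eval (Fin.cons (u n) (x n) : Fin 4 → L) (F n)) +
    eval (Fin.cons (u n) (x n) : Fin 4 → L) (F n) := by ring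
  rw [h1]
  refine (norm_add_le _ _).trans (add_le_add ?_ (hb n _ (SApp_cons hx hu n)))
  exact (h n).trans (mul_le_of_le_one_right hC (pow_le_one₀ (norm_nonneg _) (hu n)))

theorem SApp_add {j : ℕ} {f g : ℕ → L} (hf : SApp x u N j f) (hg : SApp x u N j g) :
    SApp x u N j fun n => f n + g n := by
  obtain ⟨F, C, hC, hF, h⟩ := hf
  obtain ⟨G, D, hD, hG, h'⟩ := hg
  refine ⟨fun n => F n + G n, C + D, add_nonneg hC hD, fun n => by simp only [hF n, hG n],
    fun n => ?_⟩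
  rw [map_add, add_sub_add_comm, add_mul]
  exact (norm_add_le _ _).trans (add_le_add (h n) (h' n))

theorem SApp_mul (hx : ∀ n i, ‖x n i‖ ≤ 1) (hu : ∀ n, ‖u n‖ ≤ 1) (hN : 0 < N) {j : ℕ}
    {f g : ℕ → L} (hf : SApp x u N j f) (hg : SApp x u N j g) :
    SApp x u N j fun n => f n * g n := by
  obtain ⟨M, hM, hm⟩ := SApp_bdd hx hu hN hg
  obtain ⟨F, C, hC, hF, h⟩ := hf
  obtain ⟨G, D, hD, hG, h'⟩ := hg
  obtain ⟨B, hB, hb⟩ := SApp_unif hN hF
  refine ⟨fun n => F n * G n, C * M + B * D, by positivity, fun n => by simp only [hF n, hG n],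
    fun n => ?_⟩
  rw [map_mul]
  have h1 : f n * g n - eval (Fin.cons (u n) (x n) : Fin 4 → L) (F n) *
      eval (Fin.cons (u n) (x n) : Fin 4 → L) (G n) =
      (f n - eval (Fin.cons (u n) (x n) : Fin 4 → L) (F n)) * g n +
      eval (Fin.cons (u n) (x n) : Fin 4 → L) (F n) *
        (g n - eval (Fin.cons (u n) (x n) : Fin 4 → L) (G n)) := by ring
  rw [h1]
  refine (norm_add_le _ _).trans ?_
  rw [norm_mul, norm_mul, add_mul]
  refine add_le_add ?_ ?_
  · calc _ ≤ C * ‖u n‖ ^ j * M := mul_le_mul (h n) (hm n) (norm_nonneg _) (by positivity)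
      _ = _ := by ring
  · calc _ ≤ B * (D * ‖u n‖ ^ j) :=
          mul_le_mul (hb n _ (SApp_cons hx hu n)) (h' n) (norm_nonneg _) hB
      _ = _ := by ring

theorem SApp_seq (x : ℕ → Fin 3 → L) (u : ℕ → L) (j : ℕ) {c : ℕ → L} (hc : ∀ n, c (n + N) = c n) :
    SApp x u N j c := by
  refine ⟨fun n => C (c n), 0, le_rfl, fun n => by simp only [hc n], fun n => ?_⟩
  rw [eval_C, sub_self, norm_zero, zero_mul]

theorem SApp_const (x : ℕ → Fin 3 → L) (u : ℕ → L) (N j : ℕ) (c : L) :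
    SApp x u N j fun _ => c := SApp_seq x u j fun _ => rfl

theorem SApp_var (x : ℕ → Fin 3 → L) (u : ℕ → L) (N j : ℕ) (i : Fin 3) :
    SApp x u N j fun n => x n i := by
  refine ⟨fun _ => X i.succ, 0, le_rfl, fun n => rfl, fun n => ?_⟩
  rw [eval_X, Fin.cons_succ, sub_self, norm_zero, zero_mul]

theorem SApp_u (x : ℕ → Fin 3 → L) (u : ℕ → L) (N j : ℕ) : SApp x u N j u := by
  refine ⟨fun _ => X 0, 0, le_rfl, fun n => rfl, fun n => ?_⟩
  rw [eval_X, Fin.cons_zero, sub_self, norm_zero, zero_mul]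

theorem SApp_umul {j : ℕ} {f : ℕ → L} (hf : SApp x u N j f) :
    SApp x u N (j + 1) fun n => u n * f n := by
  obtain ⟨F, C, hC, hF, h⟩ := hf
  refine ⟨fun n => X 0 * F n, C, hC, fun n => by simp only [hF n], fun n => ?_⟩
  rw [map_mul, eval_X, Fin.cons_zero, ← mul_sub, norm_mul]
  calc _ ≤ ‖u n‖ * (C * ‖u n‖ ^ j) := mul_le_mul_of_nonneg_left (h n) (norm_nonneg _)
    _ = _ := by ring

theorem SApp_pow (hx : ∀ n i, ‖x n i‖ ≤ 1) (hu : ∀ n, ‖u n‖ ≤ 1) (hN : 0 < N) {j : ℕ}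
    {f : ℕ → L} (hf : SApp x u N j f) (m : ℕ) :
    SApp x u N j fun n => f n ^ m := by
  induction m with
  | zero =>
    simp only [pow_zero]
    exact SApp_const x u N j 1
  | succ m ih =>
    simp only [pow_succ]
    exact SApp_mul hx hu hN ih hf

theorem SApp_eval (hx : ∀ n i, ‖x n i‖ ≤ 1) (hu : ∀ n, ‖u n‖ ≤ 1) (hN : 0 < N) {j : ℕ}
    {σ : Type} {y : ℕ → σ → L} (hy : ∀ i, SApp x u N j fun n => y n i) (P : MvPolynomial σ L) :
    SApp x u N j fun n => eval (y n) P := by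
  induction P using MvPolynomial.induction_on with
  | C a =>
    simp only [eval_C]
    exact SApp_const x u N j a
  | add p q hp hq =>
    simp only [map_add]
    exact SApp_add hp hq
  | mul_X p i hp =>
    simp only [map_mul, eval_X]
    exact SApp_mul hx hu hN hp (hy i)

theorem SApp_sum {ι : Type} (T : Finset ι) {j : ℕ} {f : ι → ℕ → L}
    (hf : ∀ i ∈ T, SApp x u N j (f i)) : SApp x u N j fun n => ∑ i ∈ T, f i n := by
  classical
  induction T using Finset.induction_on with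
  | empty =>
    simp only [Finset.sum_empty]
    exact SApp_const x u N j 0
  | insert i T hi ih =>
    simp only [Finset.sum_insert hi]
    exact SApp_add (hf i (Finset.mem_insert_self i T))
      (ih fun i' hi' => hf i' (Finset.mem_insert_of_mem hi'))

theorem SApp_per (hx : ∀ n i, ‖x n i‖ ≤ 1) (hu : ∀ n, ‖u n‖ ≤ 1) (hN : 0 < N) {j : ℕ}
    {y : ℕ → Fin 4 → L} (hy : ∀ i, SApp x u N j fun n => y n i)
    {A : ℕ → MvPolynomial (Fin 4) L} (hA : ∀ n, A (n + N) = A n) :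
    SApp x u N j fun n => eval (y n) (A n) := by
  have h1 : (fun n => eval (y n) (A n)) = fun n =>
      ∑ r ∈ Finset.range N, (if n % N = r then 1 else 0) * eval (y n) (A r) := by
    funext n
    rw [Finset.sum_eq_single (n % N)]
    · rw [if_pos rfl, one_mul, Function.Periodic.map_mod_nat hA n]
    · intro r _ hr
      rw [if_neg (Ne.symm hr), zero_mul]
    · intro hn
      exact absurd (Finset.mem_range.2 (Nat.mod_lt _ hN)) hn
  rw [h1]
  refine SApp_sum _ fun r _ => SApp_mul hx hu hN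
    (SApp_seq x u j (c := fun n => if n % N = r then 1 else 0) fun n => ?_)
    (SApp_eval hx hu hN hy (A r))
  simp only [Nat.add_mod_right]

theorem SApp_shift (hx : ∀ n i, ‖x n i‖ ≤ 1) (hu : ∀ n, ‖u n‖ ≤ 1) (hN : 0 < N)
    (hus : ∀ n, u (n + 1) = u n ^ 2) {j : ℕ}
    (hxs : ∀ i, SApp x u N j fun n => x (n + 1) i) {f : ℕ → L} (hf : SApp x u N j f) :
    SApp x u N j fun n => f (n + 1) := by
  obtain ⟨F, C, hC, hF, h⟩ := hf
  have hu2 : SApp x u N j fun n => u (n + 1) := by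
    simp only [hus]
    exact SApp_pow hx hu hN (SApp_u x u N j) 2
  have hy : ∀ i, SApp x u N j fun n => (Fin.cons (u (n + 1)) (x (n + 1)) : Fin 4 → L) i := by
    intro i
    refine Fin.cases ?_ (fun i => ?_) i
    · simp only [Fin.cons_zero]
      exact hu2
    · simp only [Fin.cons_succ]
      exact hxs i
  have h1 : SApp x u N j fun n =>
      eval (Fin.cons (u (n + 1)) (x (n + 1)) : Fin 4 → L) (F (n + 1)) :=
    SApp_per hx hu hN hy (A := fun n => F (n + 1)) fun n => by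
      have h2 : n + N + 1 = n + 1 + N := by ring
      rw [h2, hF]
  obtain ⟨G, D, hD, hG, h'⟩ := h1
  refine ⟨G, C + D, add_nonneg hC hD, hG, fun n => ?_⟩
  have h2 : f (n + 1) - eval (Fin.cons (u n) (x n) : Fin 4 → L) (G n) =
      (f (n + 1) - eval (Fin.cons (u (n + 1)) (x (n + 1)) : Fin 4 → L) (F (n + 1))) +
      (eval (Fin.cons (u (n + 1)) (x (n + 1)) : Fin 4 → L) (F (n + 1)) -
        eval (Fin.cons (u n) (x n) : Fin 4 → L) (G n)) := by ring
  rw [h2, add_mul]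
  refine (norm_add_le _ _).trans (add_le_add ((h (n + 1)).trans ?_) (h' n))
  refine mul_le_mul_of_nonneg_left ?_ hC
  rw [hus, norm_pow, ← pow_mul]
  exact pow_le_pow_of_le_one (norm_nonneg _) (hu n) (by omega)

end app

end Pool.Agent.TRA
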