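import Pool.Agent.Lib.MP_e9abfe_ag_TRA.Defs
import Pool.Agent.Lib.MP_e9abfe_ag_DMC.Boe
import Pool.Agent.Lib.MP_e9abfe_ag_DMC.SesL

/-!
# Boettcher coordinates of a `Semi` orbit
-/

set_option autoImplicit false

namespace Pool.Agent.TRA

open Pool.Agent.DMC

variable {L : Type} [NormedField L]

/-- a `Semi` orbit with two scales `Z`, `V` -/
structure SD (u v w Z V : ℕ → L) (d : ℕ) : Prop where
  d_pos : 0 < d
  u_succ : ∀ n, u (n + 1) = u n ^ 2 + v n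
  v_succ : ∀ n, v (n + 1) = v n ^ 2 + w n
  w_succ : ∀ n, w (n + 1) = w n ^ 2 + u n
  hZ : Sq Z
  hV : Sq V
  hw : ∀ n, ‖w n‖ ≤ ‖Z n‖ ^ d
  hu : ∃ C : ℝ, ∀ n, ‖u n / Z n ^ (2 * d) - 1‖ ≤ C / ‖Z n‖
  hv : ∃ C : ℝ, ∀ n, ‖v n / V n - 1‖ ≤ C / ‖Z n‖
  hA : ∀ n, ‖V n‖ * ‖Z n‖ ≤ ‖Z n‖ ^ (4 * d)
  hB : ∀ n, ‖Z n‖ ^ (d + 1) ≤ ‖V n‖ ^ 2
  indep : ∀ a b : ℤ, ‖Z 0‖ ^ a = ‖V 0‖ ^ b → a = 0 ∧ b = 0

variable [IsUltrametricDist L]

omit [IsUltrametricDist L] in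
private theorem semb_add [IsUltrametricDist L] {a b : L} (h : ‖b‖ < ‖a‖) : ‖a + b‖ = ‖a‖ := by
  rw [IsUltrametricDist.norm_add_eq_max_of_norm_ne_norm h.ne', max_eq_left h.le]

theorem sem_size {u v w : ℕ → L} (h : Semi u v w) (n : ℕ) :
    ‖u n‖ = ‖u 0‖ ^ 2 ^ n ∧ ‖v n‖ = ‖v 0‖ ^ 2 ^ n ∧ ‖w n‖ ^ 2 ≤ ‖u n‖ := by
  have hu0 : 0 < ‖u 0‖ := one_pos.trans h.u_one
  have hv0 : 0 < ‖v 0‖ := one_pos.trans h.v_one
  induction n with
  | zero => exact ⟨by simp, by simp, h.hw⟩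
  | succ n ih =>
    obtain ⟨h1, h2, h3⟩ := ih
    have hu1 : 1 < ‖u n‖ := by rw [h1]; exact one_lt_pow₀ h.u_one (by positivity)
    have hv1 : 1 < ‖v n‖ := by rw [h2]; exact one_lt_pow₀ h.v_one (by positivity)
    have a1 : ‖v n‖ < ‖u n ^ 2‖ := by
      rw [norm_pow, h1, h2, ← pow_mul, mul_comm (2 ^ n) 2, pow_mul]
      exact pow_lt_pow_left₀ h.hv (norm_nonneg _) (by positivity)
    have a2 : ‖u n‖ < ‖v n‖ ^ 4 := by
      rw [h1, h2, ← pow_mul, mul_comm (2 ^ n) 4, pow_mul]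
      exact pow_lt_pow_left₀ h.hu (norm_nonneg _) (by positivity)
    have a3 : ‖w n‖ < ‖v n ^ 2‖ := by
      rw [norm_pow]
      have e1 : ‖w n‖ ^ 2 < (‖v n‖ ^ 2) ^ 2 := by
        rw [← pow_mul]
        exact h3.trans_lt a2
      exact lt_of_pow_lt_pow_left₀ 2 (by positivity) e1
    refine ⟨?_, ?_, ?_⟩
    · rw [h.u_succ, semb_add a1, norm_pow, h1, ← pow_mul, pow_succ 2 n]
    · rw [h.v_succ, semb_add a3, norm_pow, h2, ← pow_mul, pow_succ 2 n]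
    · rw [h.u_succ, semb_add a1, h.w_succ, norm_pow]
      refine pow_le_pow_left₀ (norm_nonneg _) ?_ 2
      refine (IsUltrametricDist.norm_add_le_max _ _).trans (max_le ?_ le_rfl)
      rw [norm_pow]
      exact h3

theorem sem_coord [CharZero L] [CompleteSpace L] [IsAlgClosed L] (h2 : ‖(2 : L)‖ < 1)
    {p q : ℕ → L} (hrec : ∀ n, p (n + 1) = p n ^ 2 + q n) (hp : ∀ n, ‖p n‖ = ‖p 0‖ ^ 2 ^ n)
    (hp1 : 1 < ‖p 0‖) (he : Ses fun n => q n / p n ^ 2) :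
    ∃ X : ℕ → L, Sq X ∧ (∀ n, ‖X n‖ = ‖p n‖) ∧ Ses fun n => p n / X n - 1 := by
  have hpos : ∀ n, 0 < ‖p n‖ := fun n => by
    rw [hp]
    positivity
  have hx : ∀ n, p n ≠ 0 := fun n => norm_pos_iff.1 (hpos n)
  obtain ⟨X, hX0, hX, hs⟩ := boettcher h2 (x := p) (e := fun n => q n / p n ^ 2) hx (fun n => by
      rw [hrec]
      field_simp [hx n]) he
  obtain ⟨n₁, hn₁⟩ := hs.lt one_pos
  have hlarge : ∀ n, n₁ ≤ n → ‖X n‖ = ‖p n‖ := by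
    intro n hn
    have h3 := hn₁ n hn
    have h4 : p n / X n = 1 + (p n / X n - 1) := by ring
    have h5 : ‖p n / X n‖ = 1 := by
      rw [h4, IsUltrametricDist.norm_add_eq_max_of_norm_ne_norm (by rw [norm_one]; exact h3.ne'),
        norm_one, max_eq_left h3.le]
    rw [norm_div, div_eq_one_iff_eq (norm_ne_zero_iff.2 (hX0 n))] at h5
    exact h5.symm
  have hXk : ∀ n k, X (n + k) = X n ^ 2 ^ k := by
    intro n k
    induction k with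
    | zero => simp
    | succ k ih => rw [← add_assoc, hX, ih, ← pow_mul, pow_succ]
  have hall : ∀ n, ‖X n‖ = ‖p n‖ := by
    intro n
    have h3 := hlarge (n + n₁) (by omega)
    rw [hXk, norm_pow, hp, pow_add, pow_mul, ← hp n] at h3
    exact (pow_left_inj₀ (norm_nonneg _) (norm_nonneg _) (by positivity)).1 h3
  exact ⟨X, ⟨hX, by rw [hall]; exact hp1⟩, hall, hs⟩

theorem exists_sd [CharZero L] [CompleteSpace L] [IsAlgClosed L] (h2 : ‖(2 : L)‖ < 1)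
    {u v w : ℕ → L} (h : Semi u v w) : ∃ (Z V : ℕ → L) (d : ℕ), SD u v w Z V d := by
  have hu0 : 0 < ‖u 0‖ := one_pos.trans h.u_one
  have hv0 : 0 < ‖v 0‖ := one_pos.trans h.v_one
  have nu := fun n => (sem_size h n).1
  have nv := fun n => (sem_size h n).2.1
  have nw := fun n => (sem_size h n).2.2
  have hupos : ∀ n, 0 < ‖u n‖ := fun n => by rw [nu]; positivity
  have hvpos : ∀ n, 0 < ‖v n‖ := fun n => by rw [nv]; positivity
  obtain ⟨U, hU, hUn, Cu, ρu, hCu, hρu, hρu1, hbu⟩ := sem_coord h2 h.u_succ nu h.u_one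
    ⟨1, ‖v 0‖ / ‖u 0‖ ^ 2, one_pos, by positivity, (div_lt_one (by positivity)).2 h.hv,
      fun n => by
        rw [norm_div, norm_pow, nu, nv, one_mul, div_pow, ← pow_mul, ← pow_mul,
          mul_comm (2 ^ n) 2]⟩
  obtain ⟨V, hV, hVn, Cv, ρv, hCv, hρv, hρv1, hbv⟩ := sem_coord h2 h.v_succ nv h.v_one
    (Ses.root (d := 2) (by norm_num)
      ⟨1, ‖u 0‖ / ‖v 0‖ ^ 4, one_pos, by positivity, (div_lt_one (by positivity)).2 h.hu,
      fun n => by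
        rw [norm_pow, norm_div, norm_pow, div_pow, one_mul]
        have e1 : (‖u 0‖ / ‖v 0‖ ^ 4) ^ 2 ^ n = ‖u n‖ / (‖v n‖ ^ 2) ^ 2 := by
          rw [nu n, nv n, div_pow, ← pow_mul, ← pow_mul, ← pow_mul]
          congr 2
          ring
        rw [e1]
        exact div_le_div_of_nonneg_right (nw n) (by positivity)⟩)
  have hUu : ‖U 0‖ = ‖u 0‖ := hUn 0
  have hVv : ‖V 0‖ = ‖v 0‖ := hVn 0
  -- the bound for the small scale
  have k1 : 1 < ‖u 0‖ ^ 2 / ‖v 0‖ := (one_lt_div hv0).2 h.hv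
  have k2 : 1 < ‖v 0‖ ^ 4 / ‖u 0‖ := (one_lt_div hu0).2 h.hu
  obtain ⟨κ, hκ⟩ : ∃ κ : ℝ, κ = min (min ρu⁻¹ ρv⁻¹)
      (min (‖u 0‖ ^ 2 / ‖v 0‖) (Real.sqrt (‖v 0‖ ^ 4 / ‖u 0‖))) := ⟨_, rfl⟩
  have hκ1 : 1 < κ := by
    rw [hκ]
    refine lt_min (lt_min (one_lt_inv_iff₀.2 ⟨hρu, hρu1⟩) (one_lt_inv_iff₀.2 ⟨hρv, hρv1⟩))
      (lt_min k1 ?_)
    rw [Real.lt_sqrt zero_le_one]
    simpa using k2
  have hκu : κ ≤ ρu⁻¹ := by
    rw [hκ]
    exact (min_le_left _ _).trans (min_le_left _ _)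
  have hκv : κ ≤ ρv⁻¹ := by
    rw [hκ]
    exact (min_le_left _ _).trans (min_le_right _ _)
  have hκA : κ ≤ ‖u 0‖ ^ 2 / ‖v 0‖ := by
    rw [hκ]
    exact (min_le_right _ _).trans (min_le_left _ _)
  have hκB : κ ^ 2 ≤ ‖v 0‖ ^ 4 / ‖u 0‖ := by
    have e1 : κ ≤ Real.sqrt (‖v 0‖ ^ 4 / ‖u 0‖) := by
      rw [hκ]
      exact (min_le_right _ _).trans (min_le_right _ _)
    calc κ ^ 2 ≤ Real.sqrt (‖v 0‖ ^ 4 / ‖u 0‖) ^ 2 :=
          pow_le_pow_left₀ (zero_le_one.trans hκ1.le) e1 2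
      _ = _ := Real.sq_sqrt (by positivity)
  obtain ⟨d', hd'⟩ := pow_unbounded_of_one_lt ‖U 0‖ hκ1
  obtain ⟨d, hd⟩ : ∃ d, d = d' + 1 := ⟨_, rfl⟩
  have hdpos : 0 < d := by omega
  obtain ⟨Z, hZ, hZU⟩ := hU.root (d := 2 * d) (by omega)
  have hZ1 := hZ.one_lt
  have hZ0 : 0 < ‖Z 0‖ := one_pos.trans hZ1
  have hZd : ‖Z 0‖ ^ (2 * d) = ‖u 0‖ := by rw [← norm_pow, hZU, hUu]
  have hZκ : ‖Z 0‖ ≤ κ := by
    have e1 : ‖Z 0‖ ^ (2 * d) ≤ κ ^ (2 * d) := by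
      rw [← norm_pow, hZU]
      exact hd'.le.trans (pow_le_pow_right₀ hκ1.le (by omega))
    exact (pow_le_pow_iff_left₀ (norm_nonneg _) (zero_le_one.trans hκ1.le) (by omega)).1 e1
  have hZn : ∀ n, ‖Z n‖ = ‖Z 0‖ ^ 2 ^ n := hZ.norm
  have hρ : ∀ ρ : ℝ, 0 < ρ → κ ≤ ρ⁻¹ → ∀ n, ρ ^ 2 ^ n ≤ ‖Z n‖⁻¹ := by
    intro ρ hρ0 hρκ n
    rw [hZn, ← inv_pow]
    refine pow_le_pow_left₀ hρ0.le ?_ _
    rw [le_inv_comm₀ hρ0 hZ0]
    exact hZκ.trans hρκ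
  refine ⟨Z, V, d, ?_⟩
  exact
    { d_pos := hdpos
      u_succ := h.u_succ
      v_succ := h.v_succ
      w_succ := h.w_succ
      hZ := hZ
      hV := hV
      hw := fun n => by
        have e1 : ‖w n‖ ^ 2 ≤ (‖Z n‖ ^ d) ^ 2 := by
          have e2 : ‖Z n‖ ^ (2 * d) = ‖u n‖ := by rw [← norm_pow, hZU, hUn]
          rw [← pow_mul, mul_comm d 2, e2]
          exact nw n
        exact (pow_le_pow_iff_left₀ (norm_nonneg _) (by positivity) (by norm_num)).1 e1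
      hu := ⟨Cu, fun n => by
        rw [hZU, div_eq_mul_inv Cu]
        exact (hbu n).trans (mul_le_mul_of_nonneg_left (hρ ρu hρu hκu n) hCu.le)⟩
      hv := ⟨Cv, fun n => by
        rw [div_eq_mul_inv Cv]
        exact (hbv n).trans (mul_le_mul_of_nonneg_left (hρ ρv hρv hκv n) hCv.le)⟩
      hA := fun n => by
        have e1 : ‖v 0‖ * ‖Z 0‖ ≤ ‖Z 0‖ ^ (4 * d) := by
          have e2 : ‖Z 0‖ ^ (4 * d) = ‖u 0‖ ^ 2 := by
            rw [← hZd, ← pow_mul]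
            congr 1
            ring
          rw [e2]
          calc ‖v 0‖ * ‖Z 0‖ ≤ ‖v 0‖ * (‖u 0‖ ^ 2 / ‖v 0‖) :=
                mul_le_mul_of_nonneg_left (hZκ.trans hκA) hv0.le
            _ = ‖u 0‖ ^ 2 := by field_simp
        rw [hVn, nv, hZn, ← mul_pow, ← pow_mul, mul_comm (2 ^ n) (4 * d), pow_mul]
        exact pow_le_pow_left₀ (by positivity) e1 _
      hB := fun n => by
        have e1 : ‖Z 0‖ ^ (d + 1) ≤ ‖v 0‖ ^ 2 := by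
          have e2 : (‖Z 0‖ ^ (d + 1)) ^ 2 ≤ (‖v 0‖ ^ 2) ^ 2 := by
            have e3 : (‖Z 0‖ ^ (d + 1)) ^ 2 = ‖u 0‖ * ‖Z 0‖ ^ 2 := by
              rw [← hZd, ← pow_mul, ← pow_add]
              congr 1
              ring
            rw [e3, ← pow_mul]
            calc ‖u 0‖ * ‖Z 0‖ ^ 2 ≤ ‖u 0‖ * (‖v 0‖ ^ 4 / ‖u 0‖) :=
                  mul_le_mul_of_nonneg_left ((pow_le_pow_left₀ hZ0.le hZκ 2).trans hκB) hu0.le
              _ = ‖v 0‖ ^ (2 * 2) := by field_simp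
          exact (pow_le_pow_iff_left₀ (by positivity) (by positivity) (by norm_num)).1 e2
        rw [hVn, nv, hZn, ← pow_mul, ← pow_mul, mul_comm (2 ^ n) (d + 1), mul_comm (2 ^ n) 2,
          pow_mul, pow_mul]
        exact pow_le_pow_left₀ (by positivity) e1 _
      indep := fun a b hab => by
        have e1 : ‖u 0‖ ^ a = ‖v 0‖ ^ (b * (2 * d : ℕ)) := by
          have e2 : (‖Z 0‖ ^ (2 * d)) ^ a = (‖Z 0‖ ^ a) ^ ((2 * d : ℕ) : ℤ) := by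
            rw [← zpow_natCast, ← zpow_mul, ← zpow_mul, mul_comm]
          rw [← hZd, zpow_mul, ← hVv, ← hab, e2]
        obtain ⟨e2, e3⟩ := h.indep _ _ e1
        refine ⟨e2, ?_⟩
        rcases mul_eq_zero.1 e3 with e4 | e4
        · exact e4
        · exfalso
          have : 2 * d = 0 := by exact_mod_cast e4
          omega }

end Pool.Agent.TRA
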