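import Pool.Agent.Lib.MP_e9abfe_ag_TRA.SemA
import Pool.Agent.Lib.MP_e9abfe_ag_TRA.SemB

/-!
# Expansions of a `Semi` orbit
-/

set_option autoImplicit false

namespace Pool.Agent.TRA

open MvPolynomial
open Pool.Agent.DMC

variable {L : Type} [NormedField L]

/-- the normalized coordinates -/
structure Nrm (Z V s A B φ ψ : ℕ → L) : Prop where
  s1 : ∀ n, ‖s n‖ ≤ 1
  A1 : ∀ n, ‖A n‖ ≤ 1
  B1 : ∀ n, ‖B n‖ ≤ 1
  e1 : ∀ n, ‖(Z n)⁻¹‖ ≤ 1
  e_succ : ∀ n, (Z (n + 1))⁻¹ = (Z n)⁻¹ ^ 2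
  A_succ : ∀ n, A (n + 1) = A n ^ 2
  B_succ : ∀ n, B (n + 1) = B n ^ 2
  s_succ : ∀ n, s (n + 1) = s n ^ 2 + (1 + (Z n)⁻¹ * φ n)
  hφ : ∃ C : ℝ, ∀ n, ‖φ n‖ ≤ C
  hψ : ∃ C : ℝ, ∀ n, ‖ψ n‖ ≤ C
  rφ : ∀ n, φ n = 2⁻¹ * ((Z n)⁻¹ * (φ (n + 1) + (-1) * φ n ^ 2)) +
    (-2⁻¹) * (A n + A n * ((Z n)⁻¹ * ψ n))
  rψ : ∀ n, ψ n = 2⁻¹ * ((Z n)⁻¹ * (ψ (n + 1) + (-1) * ψ n ^ 2)) + (-2⁻¹) * (B n * s n)

theorem SD.nrm [IsUltrametricDist L] [CharZero L] {u v w Z V : ℕ → L} {d : ℕ} (h : SD u v w Z V d) :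
    Nrm Z V (fun n => w n / Z n ^ d) (fun n => V n * Z n / Z n ^ (4 * d))
      (fun n => Z n ^ (d + 1) / V n ^ 2) (fun n => (u n / Z n ^ (2 * d) - 1) * Z n)
      (fun n => (v n / V n - 1) * Z n) := by
  have hZ0 : ∀ n, Z n ≠ 0 := h.hZ.ne
  have hV0 : ∀ n, V n ≠ 0 := h.hV.ne
  have hZ1 : ∀ n, 1 < ‖Z n‖ := h.hZ.one_lt_norm
  have hZp : ∀ n, 0 < ‖Z n‖ := fun n => one_pos.trans (hZ1 n)
  have h20 : (2 : L) ≠ 0 := two_ne_zero
  exact
    { s1 := fun n => by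
        rw [norm_div, norm_pow]
        exact div_le_one_of_le₀ (h.hw n) (by positivity)
      A1 := fun n => by
        rw [norm_div, norm_mul, norm_pow]
        exact div_le_one_of_le₀ (h.hA n) (by positivity)
      B1 := fun n => by
        rw [norm_div, norm_pow, norm_pow]
        exact div_le_one_of_le₀ (h.hB n) (by positivity)
      e1 := fun n => by
        rw [norm_inv]
        exact inv_le_one_of_one_le₀ (hZ1 n).le
      e_succ := fun n => by rw [h.hZ.succ, inv_pow]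
      A_succ := fun n => by
        rw [h.hZ.succ, h.hV.succ, div_pow, mul_pow, ← pow_mul, ← pow_mul, mul_comm 2 (4 * d)]
      B_succ := fun n => by
        rw [h.hZ.succ, h.hV.succ]
        ring
      s_succ := fun n => by
        rw [h.w_succ, h.hZ.succ, ← pow_mul, add_div, div_pow, ← pow_mul, mul_comm d 2]
        have := hZ0 n
        field_simp
        ring
      hφ := by
        obtain ⟨C, hC⟩ := h.hu
        refine ⟨C, fun n => ?_⟩
        rw [norm_mul, ← le_div_iff₀ (hZp n)]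
        exact hC n
      hψ := by
        obtain ⟨C, hC⟩ := h.hv
        refine ⟨C, fun n => ?_⟩
        rw [norm_mul, ← le_div_iff₀ (hZp n)]
        exact hC n
      rφ := fun n => by
        rw [h.u_succ, h.hZ.succ]
        have e1 : (Z n ^ 2) ^ (2 * d) = Z n ^ (4 * d) := by
          rw [← pow_mul]
          congr 1
          ring
        have e2 : Z n ^ (4 * d) = Z n ^ (2 * d) * Z n ^ (2 * d) := by
          rw [← pow_add]
          congr 1
          ring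
        rw [e1, e2]
        have := hZ0 n
        have := hV0 n
        have := pow_ne_zero (2 * d) (hZ0 n)
        field_simp
        ring
      rψ := fun n => by
        rw [h.v_succ, h.hZ.succ, h.hV.succ]
        have e2 : Z n ^ (d + 1) = Z n ^ d * Z n := pow_succ _ _
        rw [e2]
        have := hZ0 n
        have := hV0 n
        have := pow_ne_zero d (hZ0 n)
        field_simp
        ring }

section exp

variable {Z V s A B φ ψ : ℕ → L}

/-- the vector of bounded variables -/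
def bvec (y A B : ℕ → L) (n : ℕ) : Fin 3 → L := ![y n, A n, B n]

theorem bvec_le {y A B : ℕ → L} (hy : ∀ n, ‖y n‖ ≤ 1) (hA : ∀ n, ‖A n‖ ≤ 1)
    (hB : ∀ n, ‖B n‖ ≤ 1) (n : ℕ) (i : Fin 3) : ‖bvec y A B n i‖ ≤ 1 := by
  fin_cases i
  · exact hy n
  · exact hA n
  · exact hB n

theorem bvec_var (y A B u : ℕ → L) (N j : ℕ) : SApp (bvec y A B) u N j y ∧
    SApp (bvec y A B) u N j A ∧ SApp (bvec y A B) u N j B :=
  ⟨SApp_var (bvec y A B) u N j 0, SApp_var (bvec y A B) u N j 1, SApp_var (bvec y A B) u N j 2⟩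

theorem bvec_bdd {x : ℕ → Fin 3 → L} {u : ℕ → L} (N : ℕ) {f : ℕ → L}
    (hf : ∃ C : ℝ, ∀ n, ‖f n‖ ≤ C) :
    SApp x u N 0 f := by
  obtain ⟨C, hC⟩ := hf
  refine ⟨fun _ => 0, |C|, abs_nonneg _, fun _ => rfl, fun n => ?_⟩
  rw [map_zero, sub_zero, pow_zero, mul_one]
  exact (hC n).trans (le_abs_self C)

/-- the step for `φ` and `ψ` -/
theorem nrm_step (h : Nrm Z V s A B φ ψ) {y : ℕ → L} (hy1 : ∀ n, ‖y n‖ ≤ 1) {N : ℕ} (hN : 0 < N)
    {j : ℕ}
    (hys : SApp (bvec y A B) (fun n => (Z n)⁻¹) N j fun n => y (n + 1))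
    (hs : SApp (bvec y A B) (fun n => (Z n)⁻¹) N (j + 1) s)
    (hφ : SApp (bvec y A B) (fun n => (Z n)⁻¹) N j φ)
    (hψ : SApp (bvec y A B) (fun n => (Z n)⁻¹) N j ψ) :
    SApp (bvec y A B) (fun n => (Z n)⁻¹) N (j + 1) φ ∧
      SApp (bvec y A B) (fun n => (Z n)⁻¹) N (j + 1) ψ := by
  have hx := bvec_le hy1 h.A1 h.B1
  have hu := h.e1
  have hxs : ∀ i, SApp (bvec y A B) (fun n => (Z n)⁻¹) N j fun n => bvec y A B (n + 1) i := by
    intro i
    fin_cases i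
    · exact hys
    · show SApp (bvec y A B) (fun n => (Z n)⁻¹) N j fun n => A (n + 1)
      simp only [h.A_succ]
      exact SApp_pow hx hu hN (bvec_var y A B _ N j).2.1 2
    · show SApp (bvec y A B) (fun n => (Z n)⁻¹) N j fun n => B (n + 1)
      simp only [h.B_succ]
      exact SApp_pow hx hu hN (bvec_var y A B _ N j).2.2 2
  have hshift : ∀ {f : ℕ → L}, SApp (bvec y A B) (fun n => (Z n)⁻¹) N j f →
      SApp (bvec y A B) (fun n => (Z n)⁻¹) N (j + 1) fun n =>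
        2⁻¹ * ((Z n)⁻¹ * (f (n + 1) + (-1) * f n ^ 2)) := fun hf =>
    SApp_mul hx hu hN (SApp_const _ _ N (j + 1) 2⁻¹)
      (SApp_umul (SApp_add (SApp_shift hx hu hN h.e_succ hxs hf)
        (SApp_mul hx hu hN (SApp_const _ _ N j (-1)) (SApp_pow hx hu hN hf 2))))
  obtain ⟨-, vA, vB⟩ := bvec_var y A B (fun n => (Z n)⁻¹) N (j + 1)
  constructor
  · have e := SApp_add (hshift hφ) (SApp_mul hx hu hN (SApp_const _ _ N (j + 1) (-2⁻¹))
      (SApp_add vA (SApp_mul hx hu hN vA (SApp_umul hψ))))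
    have e' : φ = fun n => 2⁻¹ * ((Z n)⁻¹ * (φ (n + 1) + (-1) * φ n ^ 2)) +
        (-2⁻¹) * (A n + A n * ((Z n)⁻¹ * ψ n)) := funext h.rφ
    rw [e']
    exact e
  · have e := SApp_add (hshift hψ) (SApp_mul hx hu hN (SApp_const _ _ N (j + 1) (-2⁻¹))
      (SApp_mul hx hu hN vB hs))
    have e' : ψ = fun n => 2⁻¹ * ((Z n)⁻¹ * (ψ (n + 1) + (-1) * ψ n ^ 2)) +
        (-2⁻¹) * (B n * s n) := funext h.rψ
    rw [e']
    exact e

/-- expansions with `s` as a variable -/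
theorem nrm_exp1 (h : Nrm Z V s A B φ ψ) (j : ℕ) :
    SApp (bvec s A B) (fun n => (Z n)⁻¹) 1 j φ ∧ SApp (bvec s A B) (fun n => (Z n)⁻¹) 1 j ψ := by
  have hx := bvec_le h.s1 h.A1 h.B1
  have hu := h.e1
  induction j with
  | zero => exact ⟨bvec_bdd 1 h.hφ, bvec_bdd 1 h.hψ⟩
  | succ j ih =>
    obtain ⟨hφ, hψ⟩ := ih
    refine nrm_step h h.s1 one_pos ?_ (bvec_var s A B _ 1 (j + 1)).1 hφ hψ
    simp only [h.s_succ]
    exact SApp_add (SApp_pow hx hu one_pos (bvec_var s A B _ 1 j).1 2)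
      (SApp_add (SApp_const _ _ 1 j 1) (SApp_mul hx hu one_pos (SApp_u _ _ 1 j) hφ))

/-- expansions without `s`, if `s` is flat -/
theorem nrm_exp2 [CharZero L] (h : Nrm Z V s A B φ ψ) (hZ : ∀ n, Z n ≠ 0) {N : ℕ} (hN : 0 < N)
    {σ : ℕ → L}
    (hσN : ∀ n, σ (n + N) = σ n) (hσs : ∀ n, σ (n + 1) = σ n ^ 2 + 1) (hσ0 : ∀ n, σ n ≠ 0)
    (hσ : ∃ C : ℝ, ∀ n, ‖s n - σ n‖ ≤ C / ‖Z n‖) (j : ℕ) :
    SApp (bvec (fun _ => 0) A B) (fun n => (Z n)⁻¹) N j φ ∧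
      SApp (bvec (fun _ => 0) A B) (fun n => (Z n)⁻¹) N j ψ ∧
      SApp (bvec (fun _ => 0) A B) (fun n => (Z n)⁻¹) N j s := by
  have hy1 : ∀ n : ℕ, ‖(fun _ => (0 : L)) n‖ ≤ 1 := fun n => by simp
  have hx := bvec_le hy1 h.A1 h.B1
  have hu := h.e1
  have h20 : (2 : L) ≠ 0 := two_ne_zero
  obtain ⟨χ, hχ⟩ : ∃ χ : ℕ → L, χ = fun n => (s n - σ n) * Z n := ⟨_, rfl⟩
  have hsχ : ∀ n, s n = σ n + (Z n)⁻¹ * χ n := by
    intro n
    rw [hχ]
    have := hZ n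
    field_simp
    ring
  have hχb : ∃ C : ℝ, ∀ n, ‖χ n‖ ≤ C := by
    obtain ⟨C, hC⟩ := hσ
    refine ⟨C, fun n => ?_⟩
    rw [hχ]
    simp only
    rw [norm_mul, ← le_div_iff₀ (norm_pos_iff.2 (hZ n))]
    exact hC n
  have hrχ : ∀ n, χ n = (2 * σ n)⁻¹ * ((Z n)⁻¹ * (χ (n + 1) + (-1) * χ n ^ 2) + (-1) * φ n) := by
    intro n
    have e1 := h.s_succ n
    rw [hsχ (n + 1), hsχ n, h.e_succ, hσs] at e1
    have hz : (Z n)⁻¹ ≠ 0 := inv_ne_zero (hZ n)
    have e2 : (Z n)⁻¹ * (2 * σ n * χ n - ((Z n)⁻¹ * (χ (n + 1) + (-1) * χ n ^ 2) +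
        (-1) * φ n)) = 0 := by
      linear_combination -e1
    have e3 := (mul_eq_zero.1 e2).resolve_left hz
    have := hσ0 n
    field_simp
    linear_combination e3
  have key : ∀ j, SApp (bvec (fun _ => 0) A B) (fun n => (Z n)⁻¹) N j φ ∧
      SApp (bvec (fun _ => 0) A B) (fun n => (Z n)⁻¹) N j ψ ∧
      SApp (bvec (fun _ => 0) A B) (fun n => (Z n)⁻¹) N j χ := by
    intro j
    induction j with
    | zero => exact ⟨bvec_bdd N h.hφ, bvec_bdd N h.hψ, bvec_bdd N hχb⟩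
    | succ j ih =>
      obtain ⟨hφ, hψ, hχj⟩ := ih
      have hs : SApp (bvec (fun _ => 0) A B) (fun n => (Z n)⁻¹) N (j + 1) s := by
        have e : s = fun n => σ n + (Z n)⁻¹ * χ n := funext hsχ
        rw [e]
        exact SApp_add (SApp_seq _ _ (j + 1) hσN) (SApp_umul hχj)
      obtain ⟨hφ', hψ'⟩ := nrm_step h hy1 hN (SApp_const _ _ N j 0) hs hφ hψ
      have hxs : ∀ i, SApp (bvec (fun _ => 0) A B) (fun n => (Z n)⁻¹) N j
          fun n => bvec (fun _ => (0 : L)) A B (n + 1) i := by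
        intro i
        fin_cases i
        · exact SApp_const _ _ N j 0
        · show SApp (bvec (fun _ => 0) A B) (fun n => (Z n)⁻¹) N j fun n => A (n + 1)
          simp only [h.A_succ]
          exact SApp_pow hx hu hN (bvec_var _ A B _ N j).2.1 2
        · show SApp (bvec (fun _ => 0) A B) (fun n => (Z n)⁻¹) N j fun n => B (n + 1)
          simp only [h.B_succ]
          exact SApp_pow hx hu hN (bvec_var _ A B _ N j).2.2 2
      refine ⟨hφ', hψ', ?_⟩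
      have e := SApp_mul hx hu hN (SApp_seq (N := N) (bvec (fun _ => 0) A B)
        (fun n => (Z n)⁻¹) (j + 1) (c := fun n => (2 * σ n)⁻¹) fun n => by simp only [hσN n])
        (SApp_add (SApp_umul (SApp_add (SApp_shift hx hu hN h.e_succ hxs hχj)
          (SApp_mul hx hu hN (SApp_const _ _ N j (-1)) (SApp_pow hx hu hN hχj 2))))
          (SApp_mul hx hu hN (SApp_const _ _ N (j + 1) (-1)) hφ'))
      have e' : χ = fun n => (2 * σ n)⁻¹ * ((Z n)⁻¹ * (χ (n + 1) + (-1) * χ n ^ 2) +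
          (-1) * φ n) := funext hrχ
      rw [e']
      exact e
  obtain ⟨h1, h2, h3⟩ := key j
  refine ⟨h1, h2, ?_⟩
  have e : s = fun n => σ n + (Z n)⁻¹ * χ n := funext hsχ
  rw [e]
  exact SApp_add (SApp_seq _ _ j hσN) (SApp_mul hx hu hN (SApp_u _ _ N j) h3)

end exp

end Pool.Agent.TRA
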