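import Pool.Agent.Lib.MP_e9abfe_ag_TRA.SemC
import Pool.Agent.Lib.MP_e9abfe_ag_GSF.BdDich

/-!
# Finite sums of exact squaring sequences with slow coefficients
-/

set_option autoImplicit false

namespace Pool.Agent.TRA

open Pool.Agent.DMC
open Pool.Agent.GSF

variable {L : Type} [NormedField L]

/-- the ring of formal sums -/
abbrev FS (L : Type) [NormedField L] : Type := AddMonoidAlgebra (Polynomial L) (ℤ × ℤ)

/-- the character -/
noncomputable def nu (a b : L) (i : ℤ × ℤ) : L := a ^ i.1 * b ^ i.2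

theorem nu_add {a b : L} (ha : a ≠ 0) (hb : b ≠ 0) (i j : ℤ × ℤ) :
    nu a b (i + j) = nu a b i * nu a b j := by
  unfold nu
  rw [Prod.fst_add, Prod.snd_add, zpow_add₀ ha, zpow_add₀ hb]
  ring

theorem nu_ne {a b : L} (ha : a ≠ 0) (hb : b ≠ 0) (i : ℤ × ℤ) : nu a b i ≠ 0 :=
  mul_ne_zero (zpow_ne_zero _ ha) (zpow_ne_zero _ hb)

/-- the value at the time `n` -/
noncomputable def ev (y : ℕ → L) (a b : L) (n : ℕ) (Q : FS L) : L :=
  Q.coeff.sum fun i p => p.eval (y n) * nu a b i ^ 2 ^ n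

theorem ev_eq (y : ℕ → L) (a b : L) (n : ℕ) (Q : FS L) :
    ev y a b n Q = ∑ i ∈ Q.coeff.support, (Q.coeff i).eval (y n) * nu a b i ^ 2 ^ n := rfl

theorem ev_add (y : ℕ → L) (a b : L) (n : ℕ) (P Q : FS L) :
    ev y a b n (P + Q) = ev y a b n P + ev y a b n Q := by
  unfold ev
  rw [AddMonoidAlgebra.coeff_add]
  exact Finsupp.sum_add_index' (fun i => by simp) (fun i p q => by
    rw [Polynomial.eval_add]
    ring)

theorem ev_single (y : ℕ → L) (a b : L) (n : ℕ) (i : ℤ × ℤ) (p : Polynomial L) :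
    ev y a b n (AddMonoidAlgebra.single i p) = p.eval (y n) * nu a b i ^ 2 ^ n := by
  unfold ev
  rw [AddMonoidAlgebra.coeff_single]
  exact Finsupp.sum_single_index (by simp)

theorem ev_mul {y : ℕ → L} {a b : L} (ha : a ≠ 0) (hb : b ≠ 0) (n : ℕ) (P Q : FS L) :
    ev y a b n (P * Q) = ev y a b n P * ev y a b n Q := by
  induction P using AddMonoidAlgebra.induction_linear with
  | zero => simp [ev]
  | add f g hf hg => rw [add_mul, ev_add, hf, hg, ev_add, add_mul]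
  | single i p =>
    induction Q using AddMonoidAlgebra.induction_linear with
    | zero => simp [ev]
    | add f g hf hg => rw [mul_add, ev_add, hf, hg, ev_add, mul_add]
    | single j q =>
      rw [AddMonoidAlgebra.single_mul_single, ev_single, ev_single, ev_single,
        Polynomial.eval_mul, nu_add ha hb, mul_pow]
      ring

/-- growth -/
theorem ev_bdd {y : ℕ → L} (hy : ∀ n, ‖y n‖ ≤ 1) (a b : L) (Q : FS L) :
    ∃ C M : ℝ, 0 ≤ C ∧ 1 ≤ M ∧ ∀ n, ‖ev y a b n Q‖ ≤ C * M ^ 2 ^ n := by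
  induction Q using AddMonoidAlgebra.induction_linear with
  | zero => exact ⟨0, 1, le_rfl, le_rfl, fun n => by simp [ev]⟩
  | add f g hf hg =>
    obtain ⟨C1, M1, hC1, hM1, h1⟩ := hf
    obtain ⟨C2, M2, hC2, hM2, h2⟩ := hg
    refine ⟨C1 + C2, max M1 M2, add_nonneg hC1 hC2, hM1.trans (le_max_left _ _), fun n => ?_⟩
    rw [ev_add, add_mul]
    refine (norm_add_le _ _).trans (add_le_add ((h1 n).trans ?_) ((h2 n).trans ?_))
    · exact mul_le_mul_of_nonneg_left (pow_le_pow_left₀ (by linarith) (le_max_left _ _) _) hC1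
    · exact mul_le_mul_of_nonneg_left (pow_le_pow_left₀ (by linarith) (le_max_right _ _) _) hC2
  | single i p =>
    obtain ⟨B, hB, hb⟩ := Expa_bd p
    refine ⟨B, max 1 ‖nu a b i‖, hB, le_max_left _ _, fun n => ?_⟩
    rw [ev_single, norm_mul, norm_pow]
    exact mul_le_mul (hb _ (hy n)) (pow_le_pow_left₀ (norm_nonneg _) (le_max_right _ _) _)
      (by positivity) hB

/-- polynomials in `y` vanish eventually or are not too small, along a class -/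
def Low (y : ℕ → L) (N r : ℕ) : Prop := ∀ a : Polynomial L,
  (∃ n₀ : ℕ, ∀ n, n₀ ≤ n → n % N = r → a.eval (y n) = 0) ∨
    ∃ (c θ : ℝ) (n₀ : ℕ), 0 < c ∧ 0 < θ ∧
      ∀ n, n₀ ≤ n → n % N = r → c * θ ^ n ≤ ‖a.eval (y n)‖

theorem dich_eventually {N r n₀ : ℕ} {g g' : ℕ → L}
    (h : ∀ n, n₀ ≤ n → n % N = r → g n = g' n) {ρ : ℝ} (hρ : 0 < ρ)
    (hd : (∃ C : ℝ, ∀ n, n % N = r → ‖g' n‖ ≤ C * ρ ^ 2 ^ n) ∨
      ∃ ρ' : ℝ, ρ < ρ' ∧ ∃ n₀ : ℕ, ∀ n, n₀ ≤ n → n % N = r → ρ' ^ 2 ^ n ≤ ‖g' n‖) :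
    (∃ C : ℝ, ∀ n, n % N = r → ‖g n‖ ≤ C * ρ ^ 2 ^ n) ∨
      ∃ ρ' : ℝ, ρ < ρ' ∧ ∃ n₀ : ℕ, ∀ n, n₀ ≤ n → n % N = r → ρ' ^ 2 ^ n ≤ ‖g n‖ := by
  rcases hd with ⟨C, hC⟩ | ⟨ρ', hρ', n₁, hn₁⟩
  · left
    have hsumnn : 0 ≤ ∑ n ∈ Finset.range n₀, ‖g n‖ / ρ ^ 2 ^ n :=
      Finset.sum_nonneg fun j _ => div_nonneg (norm_nonneg _) (pow_pos hρ _).le
    refine ⟨|C| + ∑ n ∈ Finset.range n₀, ‖g n‖ / ρ ^ 2 ^ n, fun n hr => ?_⟩
    have hρn : 0 < ρ ^ 2 ^ n := pow_pos hρ _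
    by_cases hn : n₀ ≤ n
    · rw [h n hn hr]
      refine (hC n hr).trans ?_
      apply mul_le_mul_of_nonneg_right _ hρn.le
      exact (le_abs_self C).trans (le_add_of_nonneg_right hsumnn)
    · have hmem : n ∈ Finset.range n₀ := Finset.mem_range.mpr (not_le.mp hn)
      have h5 : ‖g n‖ / ρ ^ 2 ^ n ≤ ∑ n ∈ Finset.range n₀, ‖g n‖ / ρ ^ 2 ^ n :=
        Finset.single_le_sum (f := fun n => ‖g n‖ / ρ ^ 2 ^ n)
          (fun j _ => div_nonneg (norm_nonneg _) (pow_pos hρ _).le) hmem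
      rw [div_le_iff₀ hρn] at h5
      refine h5.trans ?_
      apply mul_le_mul_of_nonneg_right _ hρn.le
      exact le_add_of_nonneg_left (abs_nonneg C)
  · right
    refine ⟨ρ', hρ', max n₀ n₁, fun n hn hr => ?_⟩
    rw [h n ((le_max_left _ _).trans hn) hr]
    exact hn₁ n ((le_max_right _ _).trans hn) hr

/-- the dichotomy for finite sums -/
theorem sum_dich {y : ℕ → L} (hy : ∀ n, ‖y n‖ ≤ 1) {a b : L}
    (hinj : ∀ i j : ℤ × ℤ, ‖nu a b i‖ = ‖nu a b j‖ → i = j) {N r : ℕ} (hl : Low y N r)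
    (Q : ℤ × ℤ → Polynomial L) (T : Finset (ℤ × ℤ)) :
    Dich N r fun n => ∑ i ∈ T, (Q i).eval (y n) * nu a b i ^ 2 ^ n := by
  classical
  intro ρ hρ
  induction hcard : T.card generalizing T with
  | zero =>
    left
    refine ⟨0, fun n _ => ?_⟩
    rw [Finset.card_eq_zero.1 hcard]
    simp
  | succ m IH =>
  have hne : T.Nonempty := by
    rw [← Finset.card_pos]
    omega
  choose B hB hb using fun i => Expa_bd (Q i)
  obtain ⟨i1, hi1, hmax⟩ := Finset.exists_max_image T (fun i => ‖nu a b i‖) hne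
  have hbound : ∀ (S : Finset (ℤ × ℤ)) (σ : ℝ), (∀ i ∈ S, ‖nu a b i‖ ≤ σ) → ∀ n,
      ‖∑ i ∈ S, (Q i).eval (y n) * nu a b i ^ 2 ^ n‖ ≤ (∑ i ∈ S, B i) * σ ^ 2 ^ n := by
    intro S σ hS n
    refine (norm_sum_le _ _).trans ?_
    rw [Finset.sum_mul]
    refine Finset.sum_le_sum fun i hi => ?_
    rw [norm_mul, norm_pow]
    exact mul_le_mul (hb i _ (hy n)) (pow_le_pow_left₀ (norm_nonneg _) (hS i hi) _)
      (by positivity) (hB i)
  rcases le_or_gt ‖nu a b i1‖ ρ with hle | hgt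
  · left
    exact ⟨∑ i ∈ T, B i, fun n _ => hbound T ρ (fun i hi => (hmax i hi).trans hle) n⟩
  obtain ⟨M, hM⟩ : ∃ M : ℝ, M = ‖nu a b i1‖ := ⟨_, rfl⟩
  rw [← hM] at hgt
  have hM0 : 0 < M := hρ.trans hgt
  have hcard' : (T.erase i1).card = m := by
    rw [Finset.card_erase_of_mem hi1]
    omega
  have hsplit : ∀ n, ∑ i ∈ T, (Q i).eval (y n) * nu a b i ^ 2 ^ n =
      (Q i1).eval (y n) * nu a b i1 ^ 2 ^ n +
        ∑ i ∈ T.erase i1, (Q i).eval (y n) * nu a b i ^ 2 ^ n := fun n =>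
    (Finset.add_sum_erase T (fun i => (Q i).eval (y n) * nu a b i ^ 2 ^ n) hi1).symm
  rcases hl (Q i1) with ⟨n₀, h0⟩ | ⟨c, θ, n₀, hc, hθ, hlow⟩
  · refine dich_eventually (n₀ := n₀) (fun n hn hr => ?_) hρ (IH (T.erase i1) hcard')
    rw [hsplit n, h0 n hn hr, zero_mul, zero_add]
  · right
    obtain ⟨M', hM'ρ, hM'M, hM'⟩ : ∃ M' : ℝ, ρ ≤ M' ∧ M' < M ∧
        ∀ i ∈ T.erase i1, ‖nu a b i‖ ≤ M' := by
      by_cases hne2 : (T.erase i1).Nonempty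
      · obtain ⟨i2, hi2, hmax2⟩ := Finset.exists_max_image (T.erase i1) (fun i => ‖nu a b i‖) hne2
        refine ⟨max ρ ‖nu a b i2‖, le_max_left _ _, max_lt hgt ?_, fun i hi =>
          (hmax2 i hi).trans (le_max_right _ _)⟩
        obtain ⟨h1, h2⟩ := Finset.mem_erase.1 hi2
        rw [hM]
        exact lt_of_le_of_ne (hmax i2 h2) fun h => h1 (hinj _ _ h)
      · refine ⟨ρ, le_rfl, hgt, fun i hi => absurd ⟨i, hi⟩ hne2⟩
    have hM'0 : 0 < M' := lt_of_lt_of_le hρ hM'ρ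
    obtain ⟨ρ', hρ'⟩ : ∃ ρ' : ℝ, ρ' = (M' + M) / 2 := ⟨_, rfl⟩
    have hρ'1 : M' < ρ' := by rw [hρ']; linarith
    have hρ'2 : ρ' < M := by rw [hρ']; linarith
    have hρ'0 : 0 < ρ' := hM'0.trans hρ'1
    obtain ⟨K, hK⟩ : ∃ K : ℝ, K = ∑ i ∈ T.erase i1, B i := ⟨_, rfl⟩
    have hK0 : 0 ≤ K := by
      rw [hK]
      exact Finset.sum_nonneg fun i _ => hB i
    obtain ⟨n₁, hn₁⟩ := BdDich_lim θ (ρ' / M) hθ (div_nonneg hρ'0.le hM0.le)
      ((div_lt_one hM0).mpr hρ'2) c (K + 1) hc (by linarith)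
    refine ⟨ρ', lt_of_le_of_lt hM'ρ hρ'1, max n₀ n₁, fun n hn hr => ?_⟩
    have e1 := hlow n ((le_max_left _ _).trans hn) hr
    have e2 := hn₁ n ((le_max_right _ _).trans hn)
    have hMn : 0 < M ^ 2 ^ n := pow_pos hM0 _
    have e3 : (K + 1) * ρ' ^ 2 ^ n ≤ ‖(Q i1).eval (y n) * nu a b i1 ^ 2 ^ n‖ := by
      rw [norm_mul, norm_pow, ← hM]
      have h7 : (K + 1) * ρ' ^ 2 ^ n = ((K + 1) * (ρ' / M) ^ 2 ^ n) * M ^ 2 ^ n := by
        rw [div_pow]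
        field_simp
      rw [h7]
      exact mul_le_mul_of_nonneg_right (e2.trans e1) hMn.le
    have e4 : ‖∑ i ∈ T.erase i1, (Q i).eval (y n) * nu a b i ^ 2 ^ n‖ ≤ K * ρ' ^ 2 ^ n := by
      rw [hK]
      exact hbound _ ρ' (fun i hi => (hM' i hi).trans hρ'1.le) n
    show ρ' ^ 2 ^ n ≤ ‖∑ i ∈ T, (Q i).eval (y n) * nu a b i ^ 2 ^ n‖
    rw [hsplit n]
    have e5 := norm_sub_le ((Q i1).eval (y n) * nu a b i1 ^ 2 ^ n +
      ∑ i ∈ T.erase i1, (Q i).eval (y n) * nu a b i ^ 2 ^ n)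
      (∑ i ∈ T.erase i1, (Q i).eval (y n) * nu a b i ^ 2 ^ n)
    rw [add_sub_cancel_right] at e5
    nlinarith [pow_pos hρ'0 (2 ^ n)]

/-- sequences approximated at every level along a class -/
def AS (y : ℕ → L) (a b : L) (N r : ℕ) (g : ℕ → L) : Prop :=
  ∀ ρ : ℝ, 0 < ρ → ∃ (Q : FS L) (C : ℝ), 0 ≤ C ∧
    ∀ n, n % N = r → ‖g n - ev y a b n Q‖ ≤ C * ρ ^ 2 ^ n

theorem AS_dich {y : ℕ → L} (hy : ∀ n, ‖y n‖ ≤ 1) {a b : L}
    (hinj : ∀ i j : ℤ × ℤ, ‖nu a b i‖ = ‖nu a b j‖ → i = j) {N r : ℕ} (hl : Low y N r)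
    {g : ℕ → L} (hg : AS y a b N r g) : Dich N r g := by
  intro ρ hρ
  obtain ⟨Q, C, hC, h⟩ := hg ρ hρ
  rcases sum_dich hy hinj hl Q.coeff Q.coeff.support ρ hρ with ⟨C', hC'⟩ | ⟨ρ', hρ', n₀, hn₀⟩
  · left
    refine ⟨C + C', fun n hn => ?_⟩
    have h1 := hC' n hn
    have h2 := h n hn
    rw [ev_eq] at h2
    have e : g n = (g n - ∑ i ∈ Q.coeff.support, (Q.coeff i).eval (y n) * nu a b i ^ 2 ^ n) +
      ∑ i ∈ Q.coeff.support, (Q.coeff i).eval (y n) * nu a b i ^ 2 ^ n := by ring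
    rw [e, add_mul]
    exact (norm_add_le _ _).trans (add_le_add h2 h1)
  · right
    have h1 : 1 < ρ' / ρ := (one_lt_div hρ).2 hρ'
    have ht : Filter.Tendsto (fun n : ℕ => (ρ' / ρ) ^ 2 ^ n) Filter.atTop Filter.atTop :=
      (tendsto_pow_atTop_atTop_of_one_lt h1).comp
        (tendsto_pow_atTop_atTop_of_one_lt (one_lt_two (α := ℕ)))
    obtain ⟨n₁, hn₁⟩ := Filter.eventually_atTop.1 (ht.eventually_gt_atTop (2 * C))
    obtain ⟨ρ'', hρ1, hρ2⟩ := exists_between hρ'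
    have hρ''0 : 0 < ρ'' := hρ.trans hρ1
    have ht2 : Filter.Tendsto (fun n : ℕ => (ρ' / ρ'') ^ 2 ^ n) Filter.atTop Filter.atTop :=
      (tendsto_pow_atTop_atTop_of_one_lt ((one_lt_div hρ''0).2 hρ2)).comp
        (tendsto_pow_atTop_atTop_of_one_lt (one_lt_two (α := ℕ)))
    obtain ⟨n₂, hn₂⟩ := Filter.eventually_atTop.1 (ht2.eventually_ge_atTop 2)
    refine ⟨ρ'', hρ1, max n₀ (max n₁ n₂), fun n hn hr => ?_⟩
    have h3 := hn₀ n ((le_max_left _ _).trans hn) hr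
    have h4 := hn₁ n (((le_max_left _ _).trans (le_max_right _ _)).trans hn)
    have h5 := hn₂ n (((le_max_right _ _).trans (le_max_right _ _)).trans hn)
    rw [div_pow, lt_div_iff₀ (pow_pos hρ _)] at h4
    rw [div_pow, le_div_iff₀ (pow_pos hρ''0 _)] at h5
    have h6 := h n hr
    rw [ev_eq] at h6
    have h7 := norm_sub_norm_le (∑ i ∈ Q.coeff.support, (Q.coeff i).eval (y n) * nu a b i ^ 2 ^ n)
      (g n)
    rw [norm_sub_rev] at h7
    have h3' : ρ' ^ 2 ^ n ≤ ‖∑ i ∈ Q.coeff.support, (Q.coeff i).eval (y n) * nu a b i ^ 2 ^ n‖ := h3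
    linarith

theorem AS_add {y : ℕ → L} {a b : L} {N r : ℕ} {f g : ℕ → L} (hf : AS y a b N r f)
    (hg : AS y a b N r g) : AS y a b N r fun n => f n + g n := by
  intro ρ hρ
  obtain ⟨Q, C, hC, h⟩ := hf ρ hρ
  obtain ⟨Q', C', hC', h'⟩ := hg ρ hρ
  refine ⟨Q + Q', C + C', add_nonneg hC hC', fun n hn => ?_⟩
  rw [ev_add, add_sub_add_comm, add_mul]
  exact (norm_add_le _ _).trans (add_le_add (h n hn) (h' n hn))

theorem AS_exact {y : ℕ → L} {a b : L} {N r : ℕ} (i : ℤ × ℤ) (p : Polynomial L) :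
    AS y a b N r fun n => p.eval (y n) * nu a b i ^ 2 ^ n := by
  intro ρ _
  refine ⟨AddMonoidAlgebra.single i p, 0, le_rfl, fun n _ => ?_⟩
  rw [ev_single, sub_self, norm_zero, zero_mul]

theorem AS_const {y : ℕ → L} {a b : L} {N r : ℕ} (c : L) : AS y a b N r fun _ => c := by
  have h := AS_exact (y := y) (a := a) (b := b) (N := N) (r := r) 0 (Polynomial.C c)
  have e : (fun n => (Polynomial.C c).eval (y n) * nu a b 0 ^ 2 ^ n) = fun _ => c := by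
    funext n
    simp [nu]
  rw [e] at h
  exact h

theorem AS_bdd {y : ℕ → L} (hy : ∀ n, ‖y n‖ ≤ 1) {a b : L} {N r : ℕ} {f : ℕ → L}
    (hf : AS y a b N r f) :
    ∃ C M : ℝ, 0 ≤ C ∧ 1 ≤ M ∧ ∀ n, n % N = r → ‖f n‖ ≤ C * M ^ 2 ^ n := by
  obtain ⟨Q, C, hC, h⟩ := hf 1 one_pos
  obtain ⟨C', M, hC', hM, hM'⟩ := ev_bdd hy a b Q
  refine ⟨C + C', M, add_nonneg hC hC', hM, fun n hn => ?_⟩
  have h1 := h n hn
  rw [one_pow, mul_one] at h1
  have h2 : 1 ≤ M ^ 2 ^ n := one_le_pow₀ hM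
  calc ‖f n‖ = ‖(f n - ev y a b n Q) + ev y a b n Q‖ := by rw [sub_add_cancel]
    _ ≤ ‖f n - ev y a b n Q‖ + ‖ev y a b n Q‖ := norm_add_le _ _
    _ ≤ C * 1 + C' * M ^ 2 ^ n := add_le_add (by linarith) (hM' n)
    _ ≤ C * M ^ 2 ^ n + C' * M ^ 2 ^ n := by gcongr
    _ = (C + C') * M ^ 2 ^ n := by ring

theorem AS_mul {y : ℕ → L} (hy : ∀ n, ‖y n‖ ≤ 1) {a b : L} (ha : a ≠ 0) (hb : b ≠ 0) {N r : ℕ}
    {f g : ℕ → L} (hf : AS y a b N r f) (hg : AS y a b N r g) :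
    AS y a b N r fun n => f n * g n := by
  intro ρ hρ
  obtain ⟨Cf, Mf, hCf, hMf, hf'⟩ := AS_bdd hy hf
  have hMf0 : 0 < Mf := by linarith
  obtain ⟨Q', C', hC', h'⟩ := hg (ρ / Mf) (by positivity)
  obtain ⟨Cg, Mg, hCg, hMg, hg'⟩ := ev_bdd hy a b Q'
  have hMg0 : 0 < Mg := by linarith
  obtain ⟨Q, C, hC, h⟩ := hf (ρ / Mg) (by positivity)
  refine ⟨Q * Q', Cf * C' + C * Cg, by positivity, fun n hn => ?_⟩
  rw [ev_mul ha hb]
  have h1 : f n * g n - ev y a b n Q * ev y a b n Q' =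
      f n * (g n - ev y a b n Q') + (f n - ev y a b n Q) * ev y a b n Q' := by ring
  have h2 : ‖f n * (g n - ev y a b n Q')‖ ≤ Cf * C' * ρ ^ 2 ^ n := by
    rw [norm_mul]
    calc ‖f n‖ * ‖g n - ev y a b n Q'‖ ≤ (Cf * Mf ^ 2 ^ n) * (C' * (ρ / Mf) ^ 2 ^ n) :=
          mul_le_mul (hf' n hn) (h' n hn) (norm_nonneg _) ((norm_nonneg _).trans (hf' n hn))
      _ = Cf * C' * ρ ^ 2 ^ n := by
          rw [div_pow]
          field_simp
  have h3 : ‖(f n - ev y a b n Q) * ev y a b n Q'‖ ≤ C * Cg * ρ ^ 2 ^ n := by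
    rw [norm_mul]
    calc ‖f n - ev y a b n Q‖ * ‖ev y a b n Q'‖ ≤
          (C * (ρ / Mg) ^ 2 ^ n) * (Cg * Mg ^ 2 ^ n) :=
          mul_le_mul (h n hn) (hg' n) (norm_nonneg _) ((norm_nonneg _).trans (h n hn))
      _ = C * Cg * ρ ^ 2 ^ n := by
          rw [div_pow]
          field_simp
  rw [h1, add_mul]
  exact (norm_add_le _ _).trans (add_le_add h2 h3)

theorem AS_poly {y : ℕ → L} (hy : ∀ n, ‖y n‖ ≤ 1) {a b : L} (ha : a ≠ 0) (hb : b ≠ 0)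
    {N r : ℕ} {σ : Type} {x : ℕ → σ → L} (hx : ∀ i, AS y a b N r fun n => x n i)
    (P : MvPolynomial σ L) : AS y a b N r fun n => MvPolynomial.eval (x n) P := by
  induction P using MvPolynomial.induction_on with
  | C c =>
    simp only [MvPolynomial.eval_C]
    exact AS_const c
  | add p q hp hq =>
    simp only [map_add]
    exact AS_add hp hq
  | mul_X p i hp =>
    simp only [map_mul, MvPolynomial.eval_X]
    exact AS_mul hy ha hb hp (hx i)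

/-- an approximation of order `k` in `u` for every `k` gives an approximation at every level -/
theorem AS_of_SApp {y : ℕ → L} (hy : ∀ n, ‖y n‖ ≤ 1) {a b : L} (ha : a ≠ 0) (hb : b ≠ 0)
    {x : ℕ → Fin 3 → L} {u : ℕ → L} {N r : ℕ}
    (hx : ∀ i, AS y a b N r fun n => x n i) (hu : AS y a b N r u)
    (hu1 : ‖u 0‖ < 1) (hus : ∀ n, ‖u n‖ = ‖u 0‖ ^ 2 ^ n) {f : ℕ → L}
    (hf : ∀ k, SApp x u N k f) : AS y a b N r f := by
  intro ρ hρ
  obtain ⟨k, hk⟩ := exists_pow_lt_of_lt_one hρ hu1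
  obtain ⟨F, C, hC, hF, h⟩ := hf k
  have hy4 : ∀ i, AS y a b N r fun n => (Fin.cons (u n) (x n) : Fin 4 → L) i := by
    intro i
    refine Fin.cases ?_ (fun i => ?_) i
    · simp only [Fin.cons_zero]
      exact hu
    · simp only [Fin.cons_succ]
      exact hx i
  obtain ⟨Q, C', hC', h'⟩ := AS_poly hy ha hb hy4 (F r) ρ hρ
  refine ⟨Q, C + C', add_nonneg hC hC', fun n hn => ?_⟩
  have hFr : F n = F r := by
    have h1 : ∀ m, F (m % N) = F m := Function.Periodic.map_mod_nat hF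
    rw [← h1 n, hn]
  have e : f n - ev y a b n Q =
      (f n - MvPolynomial.eval (Fin.cons (u n) (x n) : Fin 4 → L) (F n)) +
      (MvPolynomial.eval (Fin.cons (u n) (x n) : Fin 4 → L) (F r) - ev y a b n Q) := by
    rw [hFr]
    ring
  rw [e, add_mul]
  refine (norm_add_le _ _).trans (add_le_add ((h n).trans ?_) (h' n hn))
  refine mul_le_mul_of_nonneg_left ?_ hC
  rw [hus, ← pow_mul, mul_comm, pow_mul]
  exact pow_le_pow_left₀ (by positivity) hk.le _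

end Pool.Agent.TRA
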