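import Pool.Agent.Lib.MP_e9abfe_ag_TRA.SemD

/-!
# The dichotomy and the Jacobian for a `Semi` orbit
-/

set_option autoImplicit false

namespace Pool.Agent.TRA

open MvPolynomial
open Pool.Agent.DMC
open Pool.Agent.GSF

variable {L : Type} [NormedField L]

theorem sq_pow {Z : ℕ → L} (h : Sq Z) (n : ℕ) : Z n = Z 0 ^ 2 ^ n := by
  induction n with
  | zero => simp
  | succ n ih => rw [h.succ, ih, ← pow_mul, pow_succ]

theorem nu_pow {Z V : ℕ → L} (hZ : Sq Z) (hV : Sq V) (i : ℤ × ℤ) (n : ℕ) :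
    nu (Z 0) (V 0) i ^ 2 ^ n = Z n ^ i.1 * V n ^ i.2 := by
  have e : ∀ (x : L) (k : ℤ) (m : ℕ), (x ^ k) ^ m = (x ^ m) ^ k := fun x k m => by
    rw [← zpow_natCast, ← zpow_natCast, ← zpow_mul, ← zpow_mul, mul_comm]
  unfold nu
  rw [mul_pow, e, e, ← sq_pow hZ, ← sq_pow hV]

theorem sd_inj {u v w Z V : ℕ → L} {d : ℕ} (h : SD u v w Z V d) (i j : ℤ × ℤ)
    (hij : ‖nu (Z 0) (V 0) i‖ = ‖nu (Z 0) (V 0) j‖) : i = j := by
  have hZ0 : 0 < ‖Z 0‖ := one_pos.trans h.hZ.one_lt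
  have hV0 : 0 < ‖V 0‖ := one_pos.trans h.hV.one_lt
  unfold nu at hij
  rw [norm_mul, norm_mul, norm_zpow, norm_zpow, norm_zpow, norm_zpow] at hij
  have e : ‖Z 0‖ ^ (i.1 - j.1) = ‖V 0‖ ^ (j.2 - i.2) := by
    rw [zpow_sub₀ hZ0.ne', zpow_sub₀ hV0.ne', div_eq_div_iff (zpow_ne_zero _ hZ0.ne')
      (zpow_ne_zero _ hV0.ne')]
    rw [mul_comm (‖V 0‖ ^ j.2)]
    exact hij
  obtain ⟨h1, h2⟩ := h.indep _ _ e
  exact Prod.ext (by omega) (by omega)

theorem SApp_mono {x : ℕ → Fin 3 → L} {u : ℕ → L} {j : ℕ} {f : ℕ → L} (N : ℕ)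
    (h : SApp x u 1 j f) : SApp x u N j f := by
  obtain ⟨F, C, hC, hF, hb⟩ := h
  refine ⟨F, C, hC, fun n => ?_, hb⟩
  have h1 : ∀ m k, F (m + k) = F m := by
    intro m k
    induction k with
    | zero => rfl
    | succ k ih => rw [← add_assoc, hF, ih]
  exact h1 n N

/-- polynomials along the orbit -/
theorem sem_AS [IsUltrametricDist L] [CharZero L] {u v w Z V : ℕ → L} {d : ℕ}
    (h : SD u v w Z V d) {s A B φ ψ : ℕ → L}
    (hs : ∀ n, w n = Z n ^ d * s n)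
    (hA : ∀ n, A n = V n * Z n / Z n ^ (4 * d)) (hB : ∀ n, B n = Z n ^ (d + 1) / V n ^ 2)
    (hφ : ∀ n, u n = Z n ^ (2 * d) * (1 + (Z n)⁻¹ * φ n))
    (hψ : ∀ n, v n = V n * (1 + (Z n)⁻¹ * ψ n)) {y : ℕ → L} (hy : ∀ n, ‖y n‖ ≤ 1) {N r : ℕ}
    (hs' : (∀ k, SApp (bvec y A B) (fun n => (Z n)⁻¹) N k s) ∨ y = s)
    (hφ' : ∀ k, SApp (bvec y A B) (fun n => (Z n)⁻¹) N k φ)
    (hψ' : ∀ k, SApp (bvec y A B) (fun n => (Z n)⁻¹) N k ψ) (P : MvPolynomial (Fin 3) L) :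
    AS y (Z 0) (V 0) N r fun n => eval ![u n, v n, w n] P := by
  have hZn : ∀ n, Z n ≠ 0 := h.hZ.ne
  have hVn : ∀ n, V n ≠ 0 := h.hV.ne
  have hZ0 := hZn 0
  have hV0 := hVn 0
  have hex : ∀ (i : ℤ × ℤ) (p : Polynomial L) (f : ℕ → L),
      (∀ n, f n = p.eval (y n) * (Z n ^ i.1 * V n ^ i.2)) → AS y (Z 0) (V 0) N r f := by
    intro i p f hf
    have e : f = fun n => p.eval (y n) * nu (Z 0) (V 0) i ^ 2 ^ n := by
      funext n
      rw [hf n, nu_pow h.hZ h.hV]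
    rw [e]
    exact AS_exact i p
  have ay : AS y (Z 0) (V 0) N r y := hex (0, 0) Polynomial.X y fun n => by simp
  have ae : AS y (Z 0) (V 0) N r fun n => (Z n)⁻¹ := hex (-1, 0) 1 _ fun n => by simp
  have aA : AS y (Z 0) (V 0) N r A := hex (1 - 4 * d, 1) 1 _ fun n => by
    rw [hA, Polynomial.eval_one, one_mul, zpow_one, zpow_sub₀ (hZn n), zpow_one]
    have e1 : Z n ^ (4 * (d : ℤ)) = Z n ^ (4 * d) := by
      rw [← zpow_natCast]
      norm_num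
    rw [e1]
    ring
  have aB : AS y (Z 0) (V 0) N r B := hex (d + 1, -2) 1 _ fun n => by
    rw [hB, Polynomial.eval_one, one_mul]
    have e1 : Z n ^ ((d : ℤ) + 1) = Z n ^ (d + 1) := by
      rw [← zpow_natCast]
      norm_num
    have e2 : V n ^ (-2 : ℤ) = (V n ^ 2)⁻¹ := by
      rw [zpow_neg]
      norm_num [zpow_ofNat]
    rw [e1, e2, div_eq_mul_inv]
  have ax : ∀ i, AS y (Z 0) (V 0) N r fun n => bvec y A B n i := by
    intro i
    fin_cases i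
    · exact ay
    · exact aA
    · exact aB
  have hu1 : ‖(fun n => (Z n)⁻¹) 0‖ < 1 := by
    show ‖(Z 0)⁻¹‖ < 1
    rw [norm_inv]
    exact inv_lt_one_of_one_lt₀ h.hZ.one_lt
  have hus : ∀ n, ‖(fun n => (Z n)⁻¹) n‖ = ‖(fun n => (Z n)⁻¹) 0‖ ^ 2 ^ n := by
    intro n
    show ‖(Z n)⁻¹‖ = ‖(Z 0)⁻¹‖ ^ 2 ^ n
    rw [norm_inv, norm_inv, h.hZ.norm, inv_pow]
  have aφ := AS_of_SApp hy hZ0 hV0 (r := r) ax ae hu1 hus hφ'
  have aψ := AS_of_SApp hy hZ0 hV0 (r := r) ax ae hu1 hus hψ'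
  have as : AS y (Z 0) (V 0) N r s := by
    rcases hs' with h1 | h1
    · exact AS_of_SApp hy hZ0 hV0 ax ae hu1 hus h1
    · rw [← h1]
      exact ay
  have hpw : ∀ k : ℕ, AS y (Z 0) (V 0) N r fun n => Z n ^ k := fun k =>
    hex (k, 0) 1 _ fun n => by simp
  have hVv : AS y (Z 0) (V 0) N r V := hex (0, 1) 1 _ fun n => by simp
  have au : AS y (Z 0) (V 0) N r u := by
    have e : u = fun n => Z n ^ (2 * d) * (1 + (Z n)⁻¹ * φ n) := funext hφ
    rw [e]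
    exact AS_mul hy hZ0 hV0 (hpw _) (AS_add (AS_const 1) (AS_mul hy hZ0 hV0 ae aφ))
  have av : AS y (Z 0) (V 0) N r v := by
    have e : v = fun n => V n * (1 + (Z n)⁻¹ * ψ n) := funext hψ
    rw [e]
    exact AS_mul hy hZ0 hV0 hVv (AS_add (AS_const 1) (AS_mul hy hZ0 hV0 ae aψ))
  have aw : AS y (Z 0) (V 0) N r w := by
    have e : w = fun n => Z n ^ d * s n := funext hs
    rw [e]
    exact AS_mul hy hZ0 hV0 (hpw _) as
  refine AS_poly hy hZ0 hV0 (x := fun n => ![u n, v n, w n]) (fun i => ?_) P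
  fin_cases i
  · exact au
  · exact av
  · exact aw

variable [IsUltrametricDist L] [CharZero L]

theorem semi_dich [CompleteSpace L] [IsAlgClosed L] (h2 : ‖(2 : L)‖ < 1)
    (hfr : ∀ u : L, ‖u‖ = 1 → ∃ f : ℕ, 0 < f ∧ ‖u ^ (2 ^ f - 1) - 1‖ < 1)
    {u v w : ℕ → L} (h : Semi u v w) :
    ∃ M : ℕ, 0 < M ∧ (∀ (P : MvPolynomial (Fin 3) L) (r : ℕ),
      Dich M r fun n => eval ![u n, v n, w n] P) ∧
      ∃ n₁ : ℕ, ∀ n, n₁ ≤ n → 1 ≤ ‖1 + 8 * (u n * v n * w n)‖ := by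
  obtain ⟨Z, V, d, hd⟩ := exists_sd h2 h
  have hn := hd.nrm
  have hZn : ∀ n, Z n ≠ 0 := hd.hZ.ne
  have hVn : ∀ n, V n ≠ 0 := hd.hV.ne
  have h1Z : ∀ n, 1 < ‖Z n‖ := hd.hZ.one_lt_norm
  have h1V : ∀ n, 1 < ‖V n‖ := hd.hV.one_lt_norm
  obtain ⟨Cu, hCu⟩ := hd.hu
  obtain ⟨Cv, hCv⟩ := hd.hv
  obtain ⟨M, σ, hM, hσp, hσs, hσ0, hσ1, hσl, hcase⟩ :=
    bd_cycle h2 hfr hd.hZ hn.s1 (ξ := fun n => u n / Z n ^ (2 * d)) (fun n => by
      rw [hn.s_succ]
      have := hZn n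
      field_simp
      ring) hCu
  have es : ∀ n, w n = Z n ^ d * (w n / Z n ^ d) := fun n => by
    have := hZn n
    field_simp
  have eφ : ∀ n, u n = Z n ^ (2 * d) * (1 + (Z n)⁻¹ * ((u n / Z n ^ (2 * d) - 1) * Z n)) :=
    fun n => by
    have := hZn n
    field_simp
    ring
  have eψ : ∀ n, v n = V n * (1 + (Z n)⁻¹ * ((v n / V n - 1) * Z n)) := fun n => by
    have := hZn n
    have := hVn n
    field_simp
    ring
  refine ⟨M, hM, fun P r => ?_, ?_⟩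
  · rcases hcase with hflat | ⟨θ, n₀, hθ, hlo⟩
    · have hy : ∀ n : ℕ, ‖(fun _ => (0 : L)) n‖ ≤ 1 := fun n => by simp
      have hexp := fun k => nrm_exp2 hn hZn hM hσp hσs hσ0 hflat k
      refine AS_dich hy (sd_inj hd) ?_ (sem_AS hd es (fun _ => rfl) (fun _ => rfl) eφ eψ hy
        (Or.inl fun k => (hexp k).2.2) (fun k => (hexp k).1) (fun k => (hexp k).2.1) P)
      intro a
      by_cases ha : a.eval 0 = 0
      · exact Or.inl ⟨0, fun n _ _ => ha⟩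
      · refine Or.inr ⟨‖a.eval 0‖, 1, 0, norm_pos_iff.2 ha, one_pos, fun n _ _ => ?_⟩
        rw [one_pow, mul_one]
    · have hexp := fun k => nrm_exp1 hn k
      refine AS_dich hn.s1 (sd_inj hd) ?_ (sem_AS hd es (fun _ => rfl) (fun _ => rfl) eφ eψ
        hn.s1 (Or.inr rfl) (fun k => SApp_mono M (hexp k).1) (fun k => SApp_mono M (hexp k).2) P)
      intro a
      by_cases ha : a = 0
      · exact Or.inl ⟨0, fun n _ _ => by rw [ha, Polynomial.eval_zero]⟩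
      · right
        have hσr : ∀ n, n % M = r → σ n = σ r := fun n hr => by
          have h1 : ∀ m, σ (m % M) = σ m := Function.Periodic.map_mod_nat hσp
          rw [← h1 n, ← h1 r, ← hr, Nat.mod_mod]
        refine BdDich_low (σ := σ r) (θ := θ) (n₀ := n₀) (fun ε hε => ?_) hθ
          (fun n hn hr => ?_) a ha
        · obtain ⟨n₁, hn₁⟩ := hσl ε hε
          refine ⟨n₁, fun n hn hr => ?_⟩
          rw [← hσr n hr]
          exact hn₁ n hn
        · rw [← hσr n hr]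
          exact hlo n hn
  · -- the Jacobian
    obtain ⟨m, hm, hmσ⟩ : ∃ m : ℝ, 0 < m ∧ ∀ n, m ≤ ‖σ n‖ := by
      obtain ⟨B, hB, hb⟩ := Expa_per (f := fun n => ‖σ n‖⁻¹) hM fun n => by simp only [hσp n]
      refine ⟨(B + 1)⁻¹, by positivity, fun n => ?_⟩
      have h0 : 0 < ‖σ n‖ := norm_pos_iff.2 (hσ0 n)
      have h1 : ‖σ n‖⁻¹ ≤ B + 1 := (hb n).trans (by linarith)
      exact inv_le_of_inv_le₀ h0 h1
    have h80 : (0 : ℝ) < ‖(8 : L)‖ := by
      rw [norm_pos_iff]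
      exact OfNat.ofNat_ne_zero 8
    obtain ⟨n₁, hn₁⟩ := hσl (m / 2) (half_pos hm)
    obtain ⟨n₂, hn₂⟩ := BdDich_big hd.hZ (2 * |Cu| + 2 * |Cv| + 16 / (‖(8 : L)‖ * m))
    refine ⟨max n₁ n₂, fun n hn' => ?_⟩
    have e1 := hn₁ n ((le_max_left _ _).trans hn')
    have e2 := hn₂ n ((le_max_right _ _).trans hn')
    have hZp : 0 < ‖Z n‖ := one_pos.trans (h1Z n)
    have hau := abs_nonneg Cu
    have hav := abs_nonneg Cv
    have h8m : 0 < ‖(8 : L)‖ * m := mul_pos h80 hm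
    have h16 : 0 < 16 / (‖(8 : L)‖ * m) := div_pos (by norm_num) h8m
    have hxn : 1 / 2 ≤ ‖u n / Z n ^ (2 * d)‖ := by
      have h3 : ‖u n / Z n ^ (2 * d) - 1‖ ≤ 1 / 2 := by
        refine (hCu n).trans ?_
        rw [div_le_iff₀ hZp]
        linarith [le_abs_self Cu]
      have h4 := norm_sub_norm_le (1 : L) (u n / Z n ^ (2 * d))
      rw [norm_sub_rev, norm_one] at h4
      linarith
    have hyn : 1 / 2 ≤ ‖v n / V n‖ := by
      have h3 : ‖v n / V n - 1‖ ≤ 1 / 2 := by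
        refine (hCv n).trans ?_
        rw [div_le_iff₀ hZp]
        linarith [le_abs_self Cv]
      have h4 := norm_sub_norm_le (1 : L) (v n / V n)
      rw [norm_sub_rev, norm_one] at h4
      linarith
    have hzn : m / 2 ≤ ‖w n / Z n ^ d‖ := by
      have h4 := norm_sub_norm_le (σ n) (w n / Z n ^ d)
      rw [norm_sub_rev] at h4
      have h5 := hmσ n
      linarith
    have hprod : u n * v n * w n = u n / Z n ^ (2 * d) * (v n / V n) * (w n / Z n ^ d) *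
        (Z n ^ (3 * d) * V n) := by
      have h3 : Z n ^ (3 * d) = Z n ^ (2 * d) * Z n ^ d := by
        rw [← pow_add]
        congr 1
        ring
      have h4 := pow_ne_zero (2 * d) (hZn n)
      have h5 := pow_ne_zero d (hZn n)
      have h6 := hVn n
      rw [h3]
      field_simp
    have hbig : ‖Z n‖ ≤ ‖Z n ^ (3 * d) * V n‖ := by
      rw [norm_mul, norm_pow]
      have h3 : ‖Z n‖ ≤ ‖Z n‖ ^ (3 * d) := by
        refine le_self_pow₀ (h1Z n).le ?_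
        have := hd.d_pos
        omega
      calc ‖Z n‖ = ‖Z n‖ * 1 := (mul_one _).symm
        _ ≤ ‖Z n‖ ^ (3 * d) * ‖V n‖ := mul_le_mul h3 (h1V n).le zero_le_one (by positivity)
    have hlow : 2 ≤ ‖8 * (u n * v n * w n)‖ := by
      rw [hprod, norm_mul, norm_mul (u n / Z n ^ (2 * d) * (v n / V n) * (w n / Z n ^ d)),
        norm_mul (u n / Z n ^ (2 * d) * (v n / V n)), norm_mul (u n / Z n ^ (2 * d))]
      have h3 : 1 / 2 * (1 / 2) ≤ ‖u n / Z n ^ (2 * d)‖ * ‖v n / V n‖ :=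
        mul_le_mul hxn hyn (by norm_num) (norm_nonneg _)
      have h4 : 1 / 2 * (1 / 2) * (m / 2) ≤
          ‖u n / Z n ^ (2 * d)‖ * ‖v n / V n‖ * ‖w n / Z n ^ d‖ :=
        mul_le_mul h3 hzn (half_pos hm).le (mul_nonneg (norm_nonneg _) (norm_nonneg _))
      have h5 : 1 / 2 * (1 / 2) * (m / 2) * (16 / (‖(8 : L)‖ * m)) ≤
          ‖u n / Z n ^ (2 * d)‖ * ‖v n / V n‖ * ‖w n / Z n ^ d‖ *
            ‖Z n ^ (3 * d) * V n‖ := by
        refine mul_le_mul h4 ?_ h16.le (by positivity)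
        linarith
      have h6 := mul_le_mul_of_nonneg_left h5 h80.le
      have h7 : ‖(8 : L)‖ * (1 / 2 * (1 / 2) * (m / 2) * (16 / (‖(8 : L)‖ * m))) = 2 := by
        have := h80.ne'
        have := hm.ne'
        field_simp
        norm_num
      rw [h7] at h6
      exact h6
    have h3 := norm_sub_norm_le (8 * (u n * v n * w n)) (-1 : L)
    rw [norm_neg, norm_one, sub_neg_eq_add, add_comm (8 * (u n * v n * w n)) 1] at h3
    linarith

end Pool.Agent.TRA
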